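import Pool.Agent.Lib_helper99.Transversal.Sample

set_option autoImplicit false

namespace Pool.Agent.Lib_helper99.Transversal

open Finset

theorem bernoulli_like (z h : ℝ) (hz : 0 ≤ z) (hh : 0 ≤ h) (a : ℕ) :
    z ^ (a + 1) + (a + 1 : ℝ) * z ^ a * h ≤ (z + h) ^ (a + 1) := by
  induction a with
  | zero => simp
  | succ a ih =>
    have h1 : 0 ≤ z ^ a := pow_nonneg hz a
    have h2 : (z + h) * (z ^ (a + 1) + (a + 1 : ℝ) * z ^ a * h) ≤ (z + h) ^ (a + 2) := by
      calc _ ≤ (z + h) * (z + h) ^ (a + 1) := mul_le_mul_of_nonneg_left ih (by positivity)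
        _ = _ := by ring
    have h3 : z ^ (a + 2) + ((a : ℝ) + 2) * z ^ (a + 1) * h ≤
        (z + h) * (z ^ (a + 1) + (a + 1 : ℝ) * z ^ a * h) := by
      have : (z + h) * (z ^ (a + 1) + (a + 1 : ℝ) * z ^ a * h) -
        (z ^ (a + 2) + ((a : ℝ) + 2) * z ^ (a + 1) * h) = (a + 1 : ℝ) * z ^ a * h ^ 2 := by
        ring
      have h4 : 0 ≤ (a + 1 : ℝ) * z ^ a * h ^ 2 := by positivity
      linarith
    push_cast
    calc z ^ (a + 1 + 1) + ((a : ℝ) + 1 + 1) * z ^ (a + 1) * h
        = z ^ (a + 2) + ((a : ℝ) + 2) * z ^ (a + 1) * h := by ring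
      _ ≤ _ := h3
      _ ≤ _ := h2

/-- Number of functions covering `A` on `S`, in terms of the coupon-collector product bound. -/
theorem surj_count (N g : ℕ) (hg : 1 ≤ g) (S : Finset (Fin N)) (A : Finset (Fin g)) :
    ((univ.filter (fun f : Fin N → Fin g => ∀ c ∈ A, ∃ i ∈ S, f i = c)).card : ℝ) ≤
      (g : ℝ) ^ N * (1 - (1 - 1 / (g : ℝ)) ^ S.card) ^ A.card := by
  classical
  have hg0 : (0 : ℝ) < g := by exact_mod_cast (by omega : 0 < g)
  have hg1 : (1 : ℝ) ≤ g := by exact_mod_cast hg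
  have hw0 : 0 ≤ 1 - 1 / (g : ℝ) := by
    rw [sub_nonneg, div_le_one hg0]; exact hg1
  have hw1 : 1 - 1 / (g : ℝ) ≤ 1 := by
    have : 0 ≤ 1 / (g : ℝ) := by positivity
    linarith
  have hrep : ∀ (S : Finset (Fin N)) (A : Finset (Fin g)),
      ((univ.filter (fun f : Fin N → Fin g => ∀ c ∈ A, ∃ i ∈ S, f i = c)).card : ℝ) =
      ∑ f : Fin N → Fin g, if (∀ c ∈ A, ∃ i ∈ S, f i = c) then (1 : ℝ) else 0 := by
    intro S A
    rw [Finset.card_filter]; push_cast; rfl
  induction S using Finset.induction_on generalizing A with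
  | empty =>
    by_cases hA : A = ∅
    · subst hA; simp
    · have : (univ.filter (fun f : Fin N → Fin g => ∀ c ∈ A, ∃ i ∈ (∅ : Finset (Fin N)),
          f i = c)) = ∅ := by
        rw [Finset.filter_eq_empty_iff]
        intro f _ h
        obtain ⟨c, hc⟩ := Finset.nonempty_iff_ne_empty.2 hA
        obtain ⟨i, hi, _⟩ := h c hc
        simp at hi
      rw [this]; simp
      positivity
  | insert x S hx ih =>
    rw [hrep]
    have h1 := resample (β := Fin g) x (fun f : Fin N → Fin g =>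
      if (∀ c ∈ A, ∃ i ∈ insert x S, f i = c) then (1 : ℝ) else 0)
    have h2 : ∀ (f : Fin N → Fin g) (y : Fin g),
        (∀ c ∈ A, ∃ i ∈ insert x S, Function.update f x y i = c) ↔
        (∀ c ∈ A.erase y, ∃ i ∈ S, f i = c) := by
      intro f y
      constructor
      · intro h c hc
        rw [Finset.mem_erase] at hc
        obtain ⟨i, hi, hi2⟩ := h c hc.2
        rw [Finset.mem_insert] at hi
        rcases hi with rfl | hi
        · rw [Function.update_self] at hi2; exact absurd hi2.symm hc.1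
        · rw [Function.update_of_ne (ne_of_mem_of_not_mem hi hx)] at hi2
          exact ⟨i, hi, hi2⟩
      · intro h c hc
        by_cases hcy : c = y
        · exact ⟨x, Finset.mem_insert_self _ _, by rw [Function.update_self]; exact hcy.symm⟩
        · obtain ⟨i, hi, hi2⟩ := h c (Finset.mem_erase.2 ⟨hcy, hc⟩)
          exact ⟨i, Finset.mem_insert_of_mem hi, by
            rw [Function.update_of_ne (ne_of_mem_of_not_mem hi hx)]; exact hi2⟩
    have h3 : (g : ℝ) * ∑ f : Fin N → Fin g,
        (if (∀ c ∈ A, ∃ i ∈ insert x S, f i = c) then (1 : ℝ) else 0) =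
        ∑ y : Fin g, ∑ f : Fin N → Fin g,
          (if (∀ c ∈ A.erase y, ∃ i ∈ S, f i = c) then (1 : ℝ) else 0) := by
      rw [Fintype.card_fin] at h1
      rw [← h1, Finset.sum_comm]
      refine Finset.sum_congr rfl fun y _ => Finset.sum_congr rfl fun f _ => ?_
      exact if_congr (h2 f y) rfl rfl
    obtain ⟨z, hz⟩ : ∃ z : ℝ, z = 1 - (1 - 1 / (g : ℝ)) ^ S.card := ⟨_, rfl⟩
    have hz0 : 0 ≤ z := by
      rw [hz, sub_nonneg]; exact pow_le_one₀ hw0 hw1
    have hz1 : z ≤ 1 := by
      have : 0 ≤ (1 - 1 / (g : ℝ)) ^ S.card := pow_nonneg hw0 _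
      linarith
    have hz' : 1 - (1 - 1 / (g : ℝ)) ^ (insert x S).card = z + (1 - z) / g := by
      rw [Finset.card_insert_of_notMem hx, pow_succ, hz]
      ring
    rw [hz']
    have h4 : ∀ y : Fin g, ∑ f : Fin N → Fin g,
          (if (∀ c ∈ A.erase y, ∃ i ∈ S, f i = c) then (1 : ℝ) else 0) ≤
          (g : ℝ) ^ N * (if y ∈ A then z ^ (A.card - 1) else z ^ A.card) := by
      intro y
      have := ih (A.erase y)
      rw [hrep, ← hz] at this
      refine this.trans_eq ?_
      split_ifs with hy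
      · rw [Finset.card_erase_of_mem hy]
      · rw [Finset.erase_eq_of_notMem hy]
    have h5 : ∑ y : Fin g, (if y ∈ A then z ^ (A.card - 1) else z ^ A.card) =
        (A.card : ℝ) * z ^ (A.card - 1) + ((g : ℝ) - A.card) * z ^ A.card := by
      rw [Finset.sum_ite, Finset.sum_const, Finset.sum_const, nsmul_eq_mul, nsmul_eq_mul]
      have e1 : (univ.filter (fun y : Fin g => y ∈ A)).card = A.card := by
        congr 1; ext y; simp
      have e2 : (univ.filter (fun y : Fin g => y ∉ A)).card = g - A.card := by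
        have : (univ.filter (fun y : Fin g => y ∉ A)) = Aᶜ := by ext y; simp
        rw [this, Finset.card_compl, Fintype.card_fin]
      rw [e1, e2, Nat.cast_sub (by simpa using Finset.card_le_univ A)]
    have h6 : (g : ℝ) * ∑ f : Fin N → Fin g,
        (if (∀ c ∈ A, ∃ i ∈ insert x S, f i = c) then (1 : ℝ) else 0) ≤
        (g : ℝ) * ((g : ℝ) ^ N * (z + (1 - z) / g) ^ A.card) := by
      rw [h3]
      calc _ ≤ ∑ y : Fin g, (g : ℝ) ^ N * (if y ∈ A then z ^ (A.card - 1) else z ^ A.card) :=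
            Finset.sum_le_sum fun y _ => h4 y
        _ = (g : ℝ) ^ N * ((A.card : ℝ) * z ^ (A.card - 1) + ((g : ℝ) - A.card) * z ^ A.card) := by
            rw [← Finset.mul_sum, h5]
        _ ≤ (g : ℝ) ^ N * (g * (z + (1 - z) / g) ^ A.card) := by
            apply mul_le_mul_of_nonneg_left _ (by positivity)
            rcases Nat.eq_zero_or_pos A.card with h0 | h0
            · rw [h0]; simp
            · obtain ⟨a, ha⟩ : ∃ a, A.card = a + 1 := ⟨A.card - 1, by omega⟩
              rw [ha]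
              have hh : 0 ≤ (1 - z) / g := div_nonneg (by linarith) hg0.le
              have h7 := bernoulli_like z ((1 - z) / g) hz0 hh a
              have h8 : (g : ℝ) * (z ^ (a + 1) + (a + 1 : ℝ) * z ^ a * ((1 - z) / g)) =
                  (((a + 1 : ℕ) : ℝ)) * z ^ (a + 1 - 1) +
                    ((g : ℝ) - ((a + 1 : ℕ) : ℝ)) * z ^ (a + 1) := by
                rw [Nat.add_sub_cancel]
                push_cast
                field_simp
                ring
              rw [← h8]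
              exact mul_le_mul_of_nonneg_left h7 hg0.le
        _ = _ := by ring
    exact le_of_mul_le_mul_left h6 hg0

/-- Number of functions taking the value `c` less than `r` times. -/
theorem few_count (N g r : ℕ) (t : ℝ) (ht0 : 0 < t) (ht1 : t < 1) (c : Fin g) :
    ((univ.filter (fun f : Fin N → Fin g => (univ.filter (fun i => f i = c)).card < r)).card : ℝ) *
      (1 - t) ^ r ≤ ((g : ℝ) - t) ^ N := by
  classical
  have h1 : ∑ f : Fin N → Fin g, ∏ i, (if f i = c then 1 - t else 1) = ((g : ℝ) - t) ^ N := by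
    have := Finset.prod_univ_sum (fun _ : Fin N => (univ : Finset (Fin g)))
      (fun _ s => if s = c then 1 - t else (1 : ℝ))
    rw [Fintype.piFinset_univ] at this
    rw [← this]
    have h2 : (∑ s : Fin g, if s = c then 1 - t else (1 : ℝ)) = g - t := by
      have : ∀ s : Fin g, (if s = c then 1 - t else (1 : ℝ)) = 1 - (if s = c then t else 0) := by
        intro s; split_ifs <;> ring
      simp only [this]
      rw [Finset.sum_sub_distrib, Finset.sum_ite_eq']
      simp
    rw [h2, Finset.prod_const, Finset.card_univ, Fintype.card_fin]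
  rw [← h1, ← nsmul_eq_mul, ← Finset.sum_const]
  refine (Finset.sum_le_sum (fun f hf => ?_)).trans (Finset.sum_le_univ_sum_of_nonneg (fun f => ?_))
  · have hf' := (Finset.mem_filter.1 hf).2
    rw [Finset.prod_ite, Finset.prod_const, Finset.prod_const, one_pow, mul_one]
    exact pow_le_pow_of_le_one (by linarith) (by linarith) hf'.le
  · refine Finset.prod_nonneg fun i _ => ?_
    split_ifs <;> linarith

theorem exists_code (m g N r k : ℕ) (hm : 1 ≤ m) (hg : 1 ≤ g) (hkN : k ≤ N) (t : ℝ) (ht0 : 0 < t)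
    (ht1 : t < 1)
    (hcond : (N : ℝ) ^ k * (1 - (1 - 1 / (g : ℝ)) ^ k) ^ (g * m) +
      (m * g : ℝ) * ((1 - t / g) ^ N / (1 - t) ^ r) < 1) :
    ∃ W : Fin N → Fin m → Fin g,
      (∀ (j : Fin m) (c : Fin g), r ≤ (univ.filter (fun i => W i j = c)).card) ∧
      ∀ S : Finset (Fin N), S.card ≤ k → ∃ (j : Fin m) (c : Fin g), ∀ i ∈ S, W i j ≠ c := by
  classical
  have hg0 : (0 : ℝ) < g := by exact_mod_cast (by omega : 0 < g)
  have hg1 : (1 : ℝ) ≤ g := by exact_mod_cast hg
  have hw0 : 0 ≤ 1 - 1 / (g : ℝ) := by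
    rw [sub_nonneg, div_le_one hg0]; exact hg1
  -- the bad sets
  let P : Finset (Fin N) → Finset (Fin N → Fin g) := fun S =>
    univ.filter (fun f : Fin N → Fin g => ∀ c ∈ (univ : Finset (Fin g)), ∃ i ∈ S, f i = c)
  let Q : Fin g → Finset (Fin N → Fin g) := fun c =>
    univ.filter (fun f : Fin N → Fin g => (univ.filter (fun i => f i = c)).card < r)
  let B1 : Finset (Fin N) → Finset (Fin m → Fin N → Fin g) := fun S =>
    Fintype.piFinset (fun _ => P S)
  let B2 : Fin m × Fin g → Finset (Fin m → Fin N → Fin g) := fun jc =>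
    Fintype.piFinset (fun j' => if j' = jc.1 then Q jc.2 else univ)
  have hB1 : ∀ S, S.card = k → ((B1 S).card : ℝ) ≤
      ((g : ℝ) ^ N) ^ m * (1 - (1 - 1 / (g : ℝ)) ^ k) ^ (g * m) := by
    intro S hS
    simp only [B1, Fintype.card_piFinset, Finset.prod_const, Finset.card_univ, Fintype.card_fin]
    push_cast
    have h1 := surj_count N g hg S univ
    rw [hS, Finset.card_univ, Fintype.card_fin] at h1
    calc ((P S).card : ℝ) ^ m ≤ ((g : ℝ) ^ N * (1 - (1 - 1 / (g : ℝ)) ^ k) ^ g) ^ m :=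
          pow_le_pow_left₀ (Nat.cast_nonneg _) h1 m
      _ = _ := by rw [mul_pow, ← pow_mul (1 - (1 - 1 / (g : ℝ)) ^ k)]
  have hB2 : ∀ jc, ((B2 jc).card : ℝ) ≤
      ((g : ℝ) ^ N) ^ m * ((1 - t / g) ^ N / (1 - t) ^ r) := by
    intro jc
    simp only [B2, Fintype.card_piFinset]
    have h1 : ∏ j', (if j' = jc.1 then Q jc.2 else univ).card =
        (Q jc.2).card * (g ^ N) ^ (m - 1) := by
      rw [← Finset.mul_prod_erase univ _ (Finset.mem_univ jc.1), if_pos rfl]
      congr 1
      rw [Finset.prod_congr rfl (g := fun _ => g ^ N)]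
      · rw [Finset.prod_const, Finset.card_erase_of_mem (Finset.mem_univ _), Finset.card_univ,
          Fintype.card_fin]
      · intro j' hj'
        rw [if_neg (Finset.ne_of_mem_erase hj'), Finset.card_univ, Fintype.card_fun,
          Fintype.card_fin, Fintype.card_fin]
    rw [h1]
    push_cast
    have h2 := few_count N g r t ht0 ht1 jc.2
    have hpos : 0 < (1 - t) ^ r := pow_pos (by linarith) r
    have h3 : ((Q jc.2).card : ℝ) ≤ (g : ℝ) ^ N * ((1 - t / g) ^ N / (1 - t) ^ r) := by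
      rw [← mul_div_assoc, le_div_iff₀ hpos]
      refine h2.trans_eq ?_
      rw [← mul_pow]; congr 1; field_simp
    calc ((Q jc.2).card : ℝ) * ((g : ℝ) ^ N) ^ (m - 1) ≤
          ((g : ℝ) ^ N * ((1 - t / g) ^ N / (1 - t) ^ r)) * ((g : ℝ) ^ N) ^ (m - 1) :=
          mul_le_mul_of_nonneg_right h3 (by positivity)
      _ = ((g : ℝ) ^ N) ^ (m - 1 + 1) * ((1 - t / g) ^ N / (1 - t) ^ r) := by ring
      _ = _ := by rw [Nat.sub_add_cancel hm]
  -- union bound
  obtain ⟨F, hF⟩ : ∃ F : Fin m → Fin N → Fin g,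
      F ∉ ((powersetCard k univ).biUnion B1) ∪ (univ.biUnion B2) := by
    by_contra hcon
    push Not at hcon
    have h1 : (univ : Finset (Fin m → Fin N → Fin g)) ⊆
        ((powersetCard k univ).biUnion B1) ∪ (univ.biUnion B2) := fun F _ => hcon F
    have h2 := (Finset.card_le_card h1).trans (Finset.card_union_le _ _)
    have h3 : ((((powersetCard k univ).biUnion B1).card : ℕ) : ℝ) ≤ (N : ℝ) ^ k *
        (((g : ℝ) ^ N) ^ m * (1 - (1 - 1 / (g : ℝ)) ^ k) ^ (g * m)) := by
      calc ((((powersetCard k univ).biUnion B1).card : ℕ) : ℝ) ≤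
            ((∑ S ∈ powersetCard k univ, (B1 S).card : ℕ) : ℝ) := by
            exact_mod_cast Finset.card_biUnion_le
        _ = ∑ S ∈ powersetCard k univ, ((B1 S).card : ℝ) := by push_cast; rfl
        _ ≤ ∑ S ∈ powersetCard k (univ : Finset (Fin N)),
              (((g : ℝ) ^ N) ^ m * (1 - (1 - 1 / (g : ℝ)) ^ k) ^ (g * m)) :=
            Finset.sum_le_sum fun S hS => hB1 S (Finset.mem_powersetCard.1 hS).2
        _ = (N.choose k : ℝ) * (((g : ℝ) ^ N) ^ m * (1 - (1 - 1 / (g : ℝ)) ^ k) ^ (g * m)) := by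
            rw [Finset.sum_const, Finset.card_powersetCard, Finset.card_univ, Fintype.card_fin,
              nsmul_eq_mul]
        _ ≤ _ := by
            apply mul_le_mul_of_nonneg_right
            · exact_mod_cast Nat.choose_le_pow N k
            · have : 0 ≤ 1 - (1 - 1 / (g : ℝ)) ^ k := by
                rw [sub_nonneg]
                exact pow_le_one₀ hw0 (by have : 0 ≤ 1 / (g : ℝ) := by positivity
                                          linarith)
              positivity
    have h4 : ((((univ : Finset (Fin m × Fin g)).biUnion B2).card : ℕ) : ℝ) ≤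
        (m * g : ℝ) * (((g : ℝ) ^ N) ^ m * ((1 - t / g) ^ N / (1 - t) ^ r)) := by
      calc ((((univ : Finset (Fin m × Fin g)).biUnion B2).card : ℕ) : ℝ) ≤
            ((∑ jc : Fin m × Fin g, (B2 jc).card : ℕ) : ℝ) := by
            exact_mod_cast Finset.card_biUnion_le
        _ = ∑ jc : Fin m × Fin g, ((B2 jc).card : ℝ) := by push_cast; rfl
        _ ≤ ∑ jc : Fin m × Fin g, (((g : ℝ) ^ N) ^ m * ((1 - t / g) ^ N / (1 - t) ^ r)) :=
            Finset.sum_le_sum fun jc _ => hB2 jc
        _ = _ := by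
            rw [Finset.sum_const, Finset.card_univ, Fintype.card_prod, Fintype.card_fin,
              Fintype.card_fin, nsmul_eq_mul]
            push_cast; ring
    have h5 : (((univ : Finset (Fin m → Fin N → Fin g)).card : ℕ) : ℝ) = ((g : ℝ) ^ N) ^ m := by
      rw [Finset.card_univ, Fintype.card_fun, Fintype.card_fun, Fintype.card_fin, Fintype.card_fin,
        Fintype.card_fin]
      push_cast; rfl
    have h6 : ((g : ℝ) ^ N) ^ m ≤ (N : ℝ) ^ k *
        (((g : ℝ) ^ N) ^ m * (1 - (1 - 1 / (g : ℝ)) ^ k) ^ (g * m)) +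
        (m * g : ℝ) * (((g : ℝ) ^ N) ^ m * ((1 - t / g) ^ N / (1 - t) ^ r)) := by
      rw [← h5]
      have : (((univ : Finset (Fin m → Fin N → Fin g)).card : ℕ) : ℝ) ≤
          ((((powersetCard k univ).biUnion B1).card : ℕ) : ℝ) +
          ((((univ : Finset (Fin m × Fin g)).biUnion B2).card : ℕ) : ℝ) := by exact_mod_cast h2
      rw [h5]
      rw [h5] at this
      linarith
    have hpos : (0 : ℝ) < ((g : ℝ) ^ N) ^ m := by positivity
    have h7 : (N : ℝ) ^ k *
        (((g : ℝ) ^ N) ^ m * (1 - (1 - 1 / (g : ℝ)) ^ k) ^ (g * m)) +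
        (m * g : ℝ) * (((g : ℝ) ^ N) ^ m * ((1 - t / g) ^ N / (1 - t) ^ r)) =
        ((g : ℝ) ^ N) ^ m * ((N : ℝ) ^ k * (1 - (1 - 1 / (g : ℝ)) ^ k) ^ (g * m) +
      (m * g : ℝ) * ((1 - t / g) ^ N / (1 - t) ^ r)) := by ring
    rw [h7] at h6
    have h8 : ((g : ℝ) ^ N) ^ m * ((N : ℝ) ^ k * (1 - (1 - 1 / (g : ℝ)) ^ k) ^ (g * m) +
      (m * g : ℝ) * ((1 - t / g) ^ N / (1 - t) ^ r)) < ((g : ℝ) ^ N) ^ m * 1 :=
      mul_lt_mul_of_pos_left hcond hpos
    linarith
  rw [Finset.mem_union, not_or] at hF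
  obtain ⟨hF1, hF2⟩ := hF
  refine ⟨fun i j => F j i, ?_, ?_⟩
  · intro j c
    by_contra hlt
    push Not at hlt
    apply hF2
    rw [Finset.mem_biUnion]
    refine ⟨(j, c), Finset.mem_univ _, ?_⟩
    simp only [B2, Fintype.mem_piFinset]
    intro j'
    split_ifs with h
    · subst h
      simp only [Q, Finset.mem_filter, Finset.mem_univ, true_and]
      exact hlt
    · exact Finset.mem_univ _
  · intro S hS
    obtain ⟨S', hSS', _, hS'⟩ := Finset.exists_subsuperset_card_eq (Finset.subset_univ S) hS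
      (by simpa using hkN)
    by_contra hcon
    push Not at hcon
    apply hF1
    rw [Finset.mem_biUnion]
    refine ⟨S', Finset.mem_powersetCard.2 ⟨Finset.subset_univ _, hS'⟩, ?_⟩
    simp only [B1, Fintype.mem_piFinset, P, Finset.mem_filter, Finset.mem_univ, true_and]
    intro j c _
    obtain ⟨i, hi, hi2⟩ := hcon j c
    exact ⟨i, hSS' hi, hi2⟩

end Pool.Agent.Lib_helper99.Transversal
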