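import Mathlib

set_option autoImplicit false

namespace Pool.Agent.Lib_helper99.Transversal

open Finset

/-- Resampling one coordinate. -/
theorem resample {α β : Type*} [Fintype α] [DecidableEq α] [Fintype β] (x0 : α)
    (H : (α → β) → ℝ) :
    ∑ X : α → β, ∑ y : β, H (Function.update X x0 y) = (Fintype.card β : ℝ) * ∑ X, H X := by
  classical
  have key : ∀ Φ : (α → β) → ℝ, ∑ X, Φ X =
      ∑ R : {j // j ≠ x0} → β, ∑ z : β, Φ ((Equiv.funSplitAt x0 β).symm (z, R)) := by
    intro Φ
    rw [← Equiv.sum_comp (Equiv.funSplitAt x0 β).symm Φ, Fintype.sum_prod_type,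
      Finset.sum_comm]
  rw [key, key H]
  have h1 : ∀ (z y : β) (R : {j // j ≠ x0} → β),
      Function.update ((Equiv.funSplitAt x0 β).symm (z, R)) x0 y =
        (Equiv.funSplitAt x0 β).symm (y, R) := by
    intro z y R
    funext j
    by_cases hj : j = x0
    · subst hj; simp [Equiv.funSplitAt, Equiv.piSplitAt]
    · simp [Equiv.funSplitAt, Equiv.piSplitAt, hj, Function.update]
  simp only [h1]
  rw [Finset.mul_sum]
  refine Finset.sum_congr rfl fun R _ => ?_
  rw [Finset.sum_const, Finset.card_univ, nsmul_eq_mul]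

variable {ι : Type*} [Fintype ι] [DecidableEq ι]

theorem count_bound [Nonempty ι] (H : ι → ι → Finset ι) (q : ℝ) (hq : 0 ≤ q)
    (hH : ∀ i j, ((H i j).card : ℝ) ≤ q * Fintype.card ι) (s : ℕ) (u v : Fin s)
    (W : Finset (Fin s)) (hu : u ∉ W) (hv : v ∉ W) :
    ((univ.filter (fun X : Fin s → ι => ∀ w ∈ W, X w ∈ H (X u) (X v))).card : ℝ) ≤
      q ^ W.card * (Fintype.card ι : ℝ) ^ s := by
  classical
  have hn : (0 : ℝ) < Fintype.card ι := by exact_mod_cast Fintype.card_pos
  induction W using Finset.induction_on with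
  | empty => simp
  | insert w0 W hw0 ih =>
    have hu' : u ∉ W := fun h => hu (Finset.mem_insert_of_mem h)
    have hv' : v ∉ W := fun h => hv (Finset.mem_insert_of_mem h)
    have hu0 : u ≠ w0 := fun h => hu (h ▸ Finset.mem_insert_self _ _)
    have hv0 : v ≠ w0 := fun h => hv (h ▸ Finset.mem_insert_self _ _)
    have ih := ih hu' hv'
    rw [Finset.card_insert_of_notMem hw0, pow_succ]
    have hrep : ∀ W' : Finset (Fin s),
        ((univ.filter (fun X : Fin s → ι => ∀ w ∈ W', X w ∈ H (X u) (X v))).card : ℝ) =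
        ∑ X : Fin s → ι, if (∀ w ∈ W', X w ∈ H (X u) (X v)) then (1 : ℝ) else 0 := by
      intro W'
      rw [Finset.card_filter]; push_cast; rfl
    rw [hrep] at ih ⊢
    have h1 := resample (β := ι) w0 (fun X : Fin s → ι =>
      if (∀ w ∈ insert w0 W, X w ∈ H (X u) (X v)) then (1 : ℝ) else 0)
    have h2 : ∀ (X : Fin s → ι), (∑ y : ι,
        (if (∀ w ∈ insert w0 W, Function.update X w0 y w ∈
          H (Function.update X w0 y u) (Function.update X w0 y v)) then (1 : ℝ) else 0)) ≤
        q * Fintype.card ι * (if (∀ w ∈ W, X w ∈ H (X u) (X v)) then (1 : ℝ) else 0) := by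
      intro X
      have h3 : ∀ y : ι, (∀ w ∈ insert w0 W, Function.update X w0 y w ∈
          H (Function.update X w0 y u) (Function.update X w0 y v)) ↔
          (y ∈ H (X u) (X v) ∧ ∀ w ∈ W, X w ∈ H (X u) (X v)) := by
        intro y
        rw [Finset.forall_mem_insert]
        rw [Function.update_self, Function.update_of_ne hu0, Function.update_of_ne hv0]
        constructor
        · rintro ⟨h4, h5⟩
          refine ⟨h4, fun w hw => ?_⟩
          have := h5 w hw
          rwa [Function.update_of_ne (ne_of_mem_of_not_mem hw hw0)] at this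
        · rintro ⟨h4, h5⟩
          refine ⟨h4, fun w hw => ?_⟩
          rw [Function.update_of_ne (ne_of_mem_of_not_mem hw hw0)]
          exact h5 w hw
      have h3' : (∑ y : ι, (if (∀ w ∈ insert w0 W, Function.update X w0 y w ∈
          H (Function.update X w0 y u) (Function.update X w0 y v)) then (1 : ℝ) else 0)) =
          ∑ y : ι, (if (y ∈ H (X u) (X v) ∧ ∀ w ∈ W, X w ∈ H (X u) (X v)) then (1 : ℝ) else 0) :=
        Finset.sum_congr rfl fun y _ => if_congr (h3 y) rfl rfl
      rw [h3']
      by_cases h4 : ∀ w ∈ W, X w ∈ H (X u) (X v)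
      · rw [if_pos h4, mul_one]
        have : (∑ y : ι, (if (y ∈ H (X u) (X v) ∧ ∀ w ∈ W, X w ∈ H (X u) (X v)) then (1 : ℝ)
            else 0)) = (H (X u) (X v)).card := by
          have h5 : (∑ y : ι, (if (y ∈ H (X u) (X v) ∧ ∀ w ∈ W, X w ∈ H (X u) (X v)) then (1 : ℝ)
            else 0)) = ∑ y : ι, (if (y ∈ H (X u) (X v)) then (1 : ℝ) else 0) :=
            Finset.sum_congr rfl fun y _ => if_congr ⟨And.left, fun h => ⟨h, h4⟩⟩ rfl rfl
          rw [h5, Finset.sum_ite_mem]; simp
        rw [this]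
        exact hH _ _
      · simp [h4]
    have h4 : (Fintype.card ι : ℝ) * ∑ X : Fin s → ι,
        (if (∀ w ∈ insert w0 W, X w ∈ H (X u) (X v)) then (1 : ℝ) else 0) ≤
        q * Fintype.card ι * ∑ X : Fin s → ι,
          (if (∀ w ∈ W, X w ∈ H (X u) (X v)) then (1 : ℝ) else 0) := by
      rw [← h1, Finset.mul_sum]
      exact Finset.sum_le_sum fun X _ => h2 X
    have h5 : ∑ X : Fin s → ι,
        (if (∀ w ∈ insert w0 W, X w ∈ H (X u) (X v)) then (1 : ℝ) else 0) ≤
        q * ∑ X : Fin s → ι,
          (if (∀ w ∈ W, X w ∈ H (X u) (X v)) then (1 : ℝ) else 0) := by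
      have : (Fintype.card ι : ℝ) * ∑ X : Fin s → ι,
        (if (∀ w ∈ insert w0 W, X w ∈ H (X u) (X v)) then (1 : ℝ) else 0) ≤
        (Fintype.card ι : ℝ) * (q * ∑ X : Fin s → ι,
          (if (∀ w ∈ W, X w ∈ H (X u) (X v)) then (1 : ℝ) else 0)) := by
        calc _ ≤ _ := h4
          _ = _ := by ring
      exact le_of_mul_le_mul_left this hn
    calc _ ≤ _ := h5
      _ ≤ q * (q ^ W.card * (Fintype.card ι : ℝ) ^ s) := mul_le_mul_of_nonneg_left ih hq
      _ = _ := by ring

/-- The number of index pairs `(u, v)` such that `H (X u) (X v)` contains all `X w`, `w < a`,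
`w ≠ u, v`. -/
def badPairs (H : ι → ι → Finset ι) (s a : ℕ) (X : Fin s → ι) : Finset (Fin s × Fin s) :=
  univ.filter (fun p => ∀ w : Fin s, w.val < a → w ≠ p.1 → w ≠ p.2 → X w ∈ H (X p.1) (X p.2))

theorem sum_badPairs [Nonempty ι] (H : ι → ι → Finset ι) (q : ℝ) (hq : 0 ≤ q) (hq1 : q ≤ 1)
    (hH : ∀ i j, ((H i j).card : ℝ) ≤ q * Fintype.card ι) (s a : ℕ) (has : a ≤ s) :
    (∑ X : Fin s → ι, ((badPairs H s a X).card : ℝ)) ≤
      (s : ℝ) ^ 2 * q ^ (a - 2) * (Fintype.card ι : ℝ) ^ s := by
  classical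
  have hn : (0 : ℝ) < Fintype.card ι := by exact_mod_cast Fintype.card_pos
  have h1 : ∀ X : Fin s → ι, ((badPairs H s a X).card : ℝ) =
      ∑ p : Fin s × Fin s, if (∀ w : Fin s, w.val < a → w ≠ p.1 → w ≠ p.2 →
        X w ∈ H (X p.1) (X p.2)) then (1 : ℝ) else 0 := by
    intro X
    rw [badPairs, Finset.card_filter]; push_cast; rfl
  simp only [h1]
  rw [Finset.sum_comm]
  have h2 : ∀ p : Fin s × Fin s, (∑ X : Fin s → ι, if (∀ w : Fin s, w.val < a → w ≠ p.1 →
      w ≠ p.2 → X w ∈ H (X p.1) (X p.2)) then (1 : ℝ) else 0) ≤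
      q ^ (a - 2) * (Fintype.card ι : ℝ) ^ s := by
    intro p
    set W : Finset (Fin s) := ((univ.filter (fun w : Fin s => w.val < a)).erase p.1).erase p.2
      with hW
    have hW1 : p.1 ∉ W := by simp [hW]
    have hW2 : p.2 ∉ W := by simp [hW]
    have hcard : a - 2 ≤ W.card := by
      have e1 : (univ.filter (fun w : Fin s => w.val < a)).card = a := by
        simp [Fin.card_filter_val_lt, has]
      have e2 := Finset.pred_card_le_card_erase (s := univ.filter (fun w : Fin s => w.val < a))
        (a := p.1)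
      have e3 := Finset.pred_card_le_card_erase
        (s := (univ.filter (fun w : Fin s => w.val < a)).erase p.1) (a := p.2)
      rw [← hW] at e3
      omega
    have h3 := count_bound H q hq hH s p.1 p.2 W hW1 hW2
    have h4 : (∑ X : Fin s → ι, if (∀ w : Fin s, w.val < a → w ≠ p.1 →
      w ≠ p.2 → X w ∈ H (X p.1) (X p.2)) then (1 : ℝ) else 0) =
      ((univ.filter (fun X : Fin s → ι => ∀ w ∈ W, X w ∈ H (X p.1) (X p.2))).card : ℝ) := by
      rw [Finset.card_filter]; push_cast
      refine Finset.sum_congr rfl fun X _ => ?_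
      have : (∀ w : Fin s, w.val < a → w ≠ p.1 → w ≠ p.2 → X w ∈ H (X p.1) (X p.2)) ↔
          ∀ w ∈ W, X w ∈ H (X p.1) (X p.2) := by
        simp only [hW, Finset.mem_erase, Finset.mem_filter, Finset.mem_univ, true_and]
        constructor
        · intro h w hw; exact h w hw.2.2 hw.2.1 hw.1
        · intro h w h1 h2 h3; exact h w ⟨h3, h2, h1⟩
      simp only [this]
    rw [h4]
    refine h3.trans ?_
    refine mul_le_mul_of_nonneg_right ?_ (by positivity)
    exact pow_le_pow_of_le_one hq hq1 hcard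
  calc _ ≤ ∑ p : Fin s × Fin s, q ^ (a - 2) * (Fintype.card ι : ℝ) ^ s :=
        Finset.sum_le_sum fun p _ => h2 p
    _ = _ := by
      rw [Finset.sum_const, Finset.card_univ, Fintype.card_prod, Fintype.card_fin, nsmul_eq_mul]
      push_cast; ring

/-- Sampling with alteration. -/
theorem exists_small [Nonempty ι] (H : ι → ι → Finset ι) (q : ℝ) (hq : 0 < q) (hq1 : q ≤ 1)
    (hH : ∀ i j, ((H i j).card : ℝ) ≤ q * Fintype.card ι) (s a : ℕ) (has : a ≤ s) (ha0 : 0 < a)
    (hbig : (s : ℝ) ^ 2 * q ^ (s - 2) < 1 / 2) :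
    ∃ S : Finset ι, S.Nonempty ∧ (S.card : ℝ) ≤ a + 2 * ((s : ℝ) ^ 2 * q ^ (a - 2)) ∧
      ∀ i ∈ S, ∀ j ∈ S, ∃ l ∈ S, l ∉ H i j := by
  classical
  have hs : 0 < s := lt_of_lt_of_le ha0 has
  have hn : (0 : ℝ) < Fintype.card ι := by exact_mod_cast Fintype.card_pos
  set B : ℝ := (s : ℝ) ^ 2 * q ^ (a - 2) with hB
  have hBpos : 0 < B := by
    have : (0 : ℝ) < s := by exact_mod_cast hs
    positivity
  have hS := sum_badPairs H q hq.le hq1 hH s s le_rfl
  have hA := sum_badPairs H q hq.le hq1 hH s a has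
  obtain ⟨X, hX1, hX2⟩ : ∃ X : Fin s → ι, (badPairs H s s X).card = 0 ∧
      ((badPairs H s a X).card : ℝ) ≤ 2 * B := by
    by_contra hcon
    push Not at hcon
    have h1 : ∀ X : Fin s → ι, (1 : ℝ) ≤ ((badPairs H s s X).card : ℝ) +
        ((badPairs H s a X).card : ℝ) / (2 * B) := by
      intro X
      by_cases h : (badPairs H s s X).card = 0
      · have := hcon X h
        have h2 : 1 ≤ ((badPairs H s a X).card : ℝ) / (2 * B) := by
          rw [le_div_iff₀ (by positivity)]; linarith
        rw [h]; push_cast; linarith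
      · have h2 : (1 : ℝ) ≤ ((badPairs H s s X).card : ℝ) := by
          exact_mod_cast Nat.one_le_iff_ne_zero.2 h
        have h3 : 0 ≤ ((badPairs H s a X).card : ℝ) / (2 * B) := by positivity
        linarith
    have h2 : ((Fintype.card ι : ℝ)) ^ s ≤ ∑ X : Fin s → ι, (((badPairs H s s X).card : ℝ) +
        ((badPairs H s a X).card : ℝ) / (2 * B)) := by
      calc ((Fintype.card ι : ℝ)) ^ s = ∑ X : Fin s → ι, (1 : ℝ) := by
            rw [Finset.sum_const, Finset.card_univ, Fintype.card_fun, Fintype.card_fin]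
            simp
        _ ≤ _ := Finset.sum_le_sum fun X _ => h1 X
    rw [Finset.sum_add_distrib, ← Finset.sum_div] at h2
    have h3 : (∑ X : Fin s → ι, ((badPairs H s a X).card : ℝ)) / (2 * B) ≤
        (Fintype.card ι : ℝ) ^ s / 2 := by
      rw [div_le_iff₀ (by positivity)]
      calc _ ≤ _ := hA
        _ = _ := by rw [← hB]; ring
    have hpos : (0 : ℝ) < (Fintype.card ι : ℝ) ^ s := by positivity
    have h4 : (s : ℝ) ^ 2 * q ^ (s - 2) * (Fintype.card ι : ℝ) ^ s <
        1 / 2 * (Fintype.card ι : ℝ) ^ s := mul_lt_mul_of_pos_right hbig hpos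
    linarith
  -- every pair is missed by some sample
  have hmiss : ∀ p : Fin s × Fin s, ∃ w : Fin s, X w ∉ H (X p.1) (X p.2) := by
    intro p
    by_contra hcon
    push Not at hcon
    have : p ∈ badPairs H s s X := by
      simp only [badPairs, Finset.mem_filter, Finset.mem_univ, true_and]
      intro w _ _ _; exact hcon w
    rw [Finset.card_eq_zero.1 hX1] at this
    simp at this
  choose w hw using hmiss
  refine ⟨(univ.filter (fun i : Fin s => i.val < a)).image X ∪
    (badPairs H s a X).image (fun p => X (w p)), ?_, ?_, ?_⟩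
  · exact ⟨X ⟨0, hs⟩, Finset.mem_union_left _ (Finset.mem_image_of_mem X (by simp [ha0]))⟩
  · have e1 : (univ.filter (fun w : Fin s => w.val < a)).card = a := by
      simp [Fin.card_filter_val_lt, has]
    have h1 := Finset.card_union_le ((univ.filter (fun i : Fin s => i.val < a)).image X)
      ((badPairs H s a X).image (fun p => X (w p)))
    have h2 : ((univ.filter (fun i : Fin s => i.val < a)).image X).card ≤ a :=
      Finset.card_image_le.trans e1.le
    have h3 : ((badPairs H s a X).image (fun p => X (w p))).card ≤ (badPairs H s a X).card :=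
      Finset.card_image_le
    have h4 : (((univ.filter (fun i : Fin s => i.val < a)).image X ∪
    (badPairs H s a X).image (fun p => X (w p))).card : ℝ) ≤ a + (badPairs H s a X).card := by
      exact_mod_cast h1.trans (Nat.add_le_add h2 h3)
    linarith
  · -- any pair from the image of `X`
    have hrange : ∀ i ∈ (univ.filter (fun i : Fin s => i.val < a)).image X ∪
        (badPairs H s a X).image (fun p => X (w p)), ∃ u : Fin s, X u = i := by
      intro i hi
      rw [Finset.mem_union, Finset.mem_image, Finset.mem_image] at hi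
      rcases hi with ⟨u, _, h⟩ | ⟨p, _, h⟩
      · exact ⟨u, h⟩
      · exact ⟨w p, h⟩
    intro i hi j hj
    obtain ⟨u, rfl⟩ := hrange i hi
    obtain ⟨v, rfl⟩ := hrange j hj
    by_cases hbad : (u, v) ∈ badPairs H s a X
    · refine ⟨X (w (u, v)), ?_, hw (u, v)⟩
      exact Finset.mem_union_right _ (Finset.mem_image_of_mem (fun p => X (w p)) hbad)
    · simp only [badPairs, Finset.mem_filter, Finset.mem_univ, true_and] at hbad
      push Not at hbad
      obtain ⟨w', h1, _, _, h4⟩ := hbad
      refine ⟨X w', ?_, h4⟩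
      apply Finset.mem_union_left
      exact Finset.mem_image_of_mem X (by simp [h1])

end Pool.Agent.Lib_helper99.Transversal
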