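import Pool.Agent.Lib_helper99.Transversal.Canon
import Pool.Agent.Lib_helper99.Transversal.Sample

set_option autoImplicit false

namespace Pool.Agent.Lib_helper99.Transversal

open Finset

theorem lower_main (F : Finset (Set Pt)) (hF : ∀ A ∈ F, IsCompact A ∧ Convex ℝ A) (hne : F.Nonempty)
    (k : ℕ) (hk : 1 ≤ k) (hT : ∀ G ⊆ F, G.card ≤ k → Trans G)
    (q : ℝ) (hq : 0 < q) (hq1 : q ≤ 1) (s a : ℕ) (has : a ≤ s) (ha0 : 0 < a)
    (hbig : (s : ℝ) ^ 2 * q ^ (s - 2) < 1 / 2)
    (hka : (a : ℝ) + 2 * ((s : ℝ) ^ 2 * q ^ (a - 2)) ≤ k) :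
    ∃ G ⊆ F, q * F.card ≤ G.card ∧ Trans G := by
  classical
  by_contra hcon
  push Not at hcon
  -- members are nonempty
  have hmem : ∀ A ∈ F, A.Nonempty := by
    intro A hA
    obtain ⟨ℓ, hℓ⟩ := (trans_iff {A}).1 (hT {A} (by simpa using hA) (by simpa using hk))
    obtain ⟨x, hx, _⟩ := hℓ A (by simp)
    exact ⟨x, hx⟩
  let ι := {A // A ∈ F}
  haveI : Nonempty ι := by obtain ⟨A, hA⟩ := hne; exact ⟨⟨A, hA⟩⟩
  have hcard : Fintype.card ι = F.card := Fintype.card_coe F
  let H : ι → ι → Finset ι := fun A B => univ.filter (fun C => Hit (canon A.1 B.1) C.1)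
  have hH : ∀ i j, ((H i j).card : ℝ) ≤ q * Fintype.card ι := by
    intro A B
    rw [hcard]
    set G := (H A B).map (Function.Embedding.subtype _) with hG
    have hGF : G ⊆ F := by
      intro C hC
      rw [hG, Finset.mem_map] at hC
      obtain ⟨C', _, rfl⟩ := hC
      exact C'.2
    have hGc : G.card = (H A B).card := Finset.card_map _
    have hGT : Trans G := by
      rw [trans_iff]
      refine ⟨canon A.1 B.1, fun C hC => ?_⟩
      rw [hG, Finset.mem_map] at hC
      obtain ⟨C', hC', rfl⟩ := hC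
      exact (Finset.mem_filter.1 hC').2
    by_contra hlt
    push Not at hlt
    exact hcon G hGF (by rw [hGc]; exact hlt.le) hGT
  obtain ⟨S, hSne, hS1, hS2⟩ := exists_small H q hq hq1 hH s a has ha0 hbig
  set K := S.map (Function.Embedding.subtype _) with hK
  have hKF : K ⊆ F := by
    intro C hC
    rw [hK, Finset.mem_map] at hC
    obtain ⟨C', _, rfl⟩ := hC
    exact C'.2
  have hKc : K.card = S.card := Finset.card_map _
  have hKk : K.card ≤ k := by
    rw [hKc]
    exact_mod_cast hS1.trans hka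
  have hKne : K.Nonempty := by rw [hK]; exact hSne.map
  obtain ⟨A, hA, B, hB, hAB⟩ := canon_hit K
    (fun A hA => ⟨(hF A (hKF hA)).1, (hF A (hKF hA)).2, hmem A (hKF hA)⟩) hKne
    ((trans_iff K).1 (hT K hKF hKk))
  rw [hK, Finset.mem_map] at hA hB
  obtain ⟨A', hA', rfl⟩ := hA
  obtain ⟨B', hB', rfl⟩ := hB
  obtain ⟨C, hC, hC2⟩ := hS2 A' hA' B' hB'
  apply hC2
  refine Finset.mem_filter.2 ⟨Finset.mem_univ _, ?_⟩
  exact hAB C.1 (by rw [hK]; exact Finset.mem_map_of_mem _ hC)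

end Pool.Agent.Lib_helper99.Transversal
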