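import Pool.Agent.Lib_helper99.Transversal.Build
import Pool.Agent.Lib_helper99.Transversal.Code
import Pool.Agent.Lib_helper99.Transversal.Lower

set_option autoImplicit false

namespace Pool.Agent.Lib_helper99.Transversal

open Filter Topology Finset

theorem ev_log_pow (n : ℕ) (c a : ℝ) (hc : 0 < c) (ha : 0 < a) :
    ∀ᶠ k : ℕ in atTop, (Real.log k) ^ n ≤ c * (k : ℝ) ^ a := by
  have h1 := (isLittleO_log_rpow_rpow_atTop (s := a) (n : ℝ) ha).bound hc
  have h2 := tendsto_natCast_atTop_atTop (R := ℝ) |>.eventually h1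
  filter_upwards [h2, eventually_ge_atTop 2] with k hk hk2
  have hk1 : (1 : ℝ) ≤ k := by exact_mod_cast (by omega : 1 ≤ k)
  have hlog : 0 ≤ Real.log k := Real.log_nonneg hk1
  rw [Real.norm_of_nonneg (by positivity), Real.norm_of_nonneg (by positivity),
    Real.rpow_natCast] at hk
  exact hk

theorem ev_log_ge (c : ℝ) : ∀ᶠ k : ℕ in atTop, c ≤ Real.log k :=
  (Real.tendsto_log_atTop.comp (tendsto_natCast_atTop_atTop (R := ℝ))).eventually_ge_atTop c

theorem ev_cast_ge (c : ℝ) : ∀ᶠ k : ℕ in atTop, c ≤ (k : ℝ) :=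
  (tendsto_natCast_atTop_atTop (R := ℝ)).eventually_ge_atTop c

theorem ev_log_le (c : ℝ) (hc : 0 < c) : ∀ᶠ k : ℕ in atTop, Real.log k ≤ c * k := by
  filter_upwards [ev_log_pow 1 c 1 hc one_pos] with k hk
  simpa using hk

/-- `(1 - 1/g)^k ≥ exp(-k/(g-1))`. -/
theorem pow_ge_exp (g k : ℕ) (hg : 2 ≤ g) :
    Real.exp (-((k : ℝ) / ((g : ℝ) - 1))) ≤ (1 - 1 / (g : ℝ)) ^ k := by
  have hg2 : (2 : ℝ) ≤ g := by exact_mod_cast hg
  have hg1 : 0 < (g : ℝ) - 1 := by linarith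
  have h1 : Real.exp (-(1 / ((g : ℝ) - 1))) ≤ 1 - 1 / (g : ℝ) := by
    have h2 : 1 / ((g : ℝ) - 1) + 1 ≤ Real.exp (1 / ((g : ℝ) - 1)) := Real.add_one_le_exp _
    rw [Real.exp_neg]
    have h3 : 1 - 1 / (g : ℝ) = (1 / ((g : ℝ) - 1) + 1)⁻¹ := by field_simp; ring
    rw [h3]
    apply inv_anti₀ _ h2
    positivity
  calc Real.exp (-((k : ℝ) / ((g : ℝ) - 1))) = (Real.exp (-(1 / ((g : ℝ) - 1)))) ^ k := by
        rw [← Real.exp_nat_mul]; congr 1; ring
    _ ≤ _ := pow_le_pow_left₀ (Real.exp_pos _).le h1 k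

theorem one_sub_ge_exp (t : ℝ) (h0 : 0 ≤ t) (h1 : t ≤ 1 / 2) : Real.exp (-(t + t ^ 2)) ≤ 1 - t := by
  have h2 : 1 + (t + t ^ 2) + (t + t ^ 2) ^ 2 / 2 ≤ Real.exp (t + t ^ 2) :=
    Real.quadratic_le_exp_of_nonneg (by positivity)
  have h3 : 1 ≤ (1 - t) * Real.exp (t + t ^ 2) := by
    have h4 : 1 ≤ (1 - t) * (1 + (t + t ^ 2) + (t + t ^ 2) ^ 2 / 2) := by
      have : (1 - t) * (1 + (t + t ^ 2) + (t + t ^ 2) ^ 2 / 2) - 1 =
          t ^ 2 * (1 - t - t ^ 2 - t ^ 3) / 2 := by ring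
      have h5 : 0 ≤ 1 - t - t ^ 2 - t ^ 3 := by nlinarith [sq_nonneg t]
      have h6 : 0 ≤ t ^ 2 * (1 - t - t ^ 2 - t ^ 3) / 2 := by positivity
      linarith
    exact h4.trans (mul_le_mul_of_nonneg_left h2 (by linarith))
  rw [Real.exp_neg, inv_le_iff_one_le_mul₀ (Real.exp_pos _)]
  linarith

/-- The code condition holds for our choice of parameters. -/
theorem params (δ : ℝ) (hδ : 0 < δ) (hδ1 : δ ≤ 1 / 10) : ∀ᶠ k : ℕ in atTop,
    ∃ m g r N : ℕ, 2 ≤ m ∧ 1 ≤ g ∧ k ≤ N ∧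
      ((N : ℝ) ^ k * (1 - (1 - 1 / (g : ℝ)) ^ k) ^ (g * m) +
        (m * g : ℝ) * ((1 - (δ / 2) / g) ^ N / (1 - δ / 2) ^ r) < 1) ∧
      (1 - 10 * δ) * (Real.log k / k) * ((N : ℝ) + 2 * m * r) ≤ r := by
  filter_upwards [ev_log_ge 4, ev_log_pow 3 (δ / 5) (δ / 4) (by positivity) (by positivity),
    ev_log_pow 2 1 1 one_pos one_pos, ev_log_le (δ ^ 2 / 16) (by positivity),
    eventually_ge_atTop 2] with k hL4 hd hL2 hLk hk2
  obtain ⟨L, hL⟩ : ∃ L : ℝ, L = Real.log k := ⟨_, rfl⟩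
  rw [← hL] at hL4 hd hL2 hLk ⊢
  have hk1 : (1 : ℝ) < k := by exact_mod_cast (by omega : 1 < k)
  have hk0 : (0 : ℝ) < k := by linarith
  have hL0 : 0 < L := by linarith
  rw [Real.rpow_one, one_mul] at hL2
  -- `K = k / L`
  obtain ⟨K, hK⟩ : ∃ K : ℝ, K = k / L := ⟨_, rfl⟩
  have hKL : K * L = k := by rw [hK]; field_simp
  have hK0 : 0 < K := by rw [hK]; positivity
  have hKbig : 16 / δ ^ 2 ≤ K := by
    rw [hK, div_le_div_iff₀ (by positivity) hL0]
    nlinarith [sq_nonneg δ, mul_pos hδ hδ]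
  have hδK : 16 ≤ δ ^ 2 * K := by
    rw [div_le_iff₀ (by positivity)] at hKbig; linarith
  have hδK1 : 160 ≤ δ * K := by
    have : δ ^ 2 * K = δ * (δ * K) := by ring
    rw [this] at hδK
    have h0 : 0 ≤ δ * K := by positivity
    nlinarith
  have hKge : 1600 ≤ K := by nlinarith
  -- the parameter `g`
  obtain ⟨g, hg⟩ : ∃ g : ℕ, g = ⌈(1 + δ) * K⌉₊ := ⟨_, rfl⟩
  have hg_lo : (1 + δ) * K ≤ g := by rw [hg]; exact Nat.le_ceil _
  have hg_hi : (g : ℝ) < (1 + δ) * K + 1 := by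
    rw [hg]; exact Nat.ceil_lt_add_one (by positivity)
  have hg_hi2 : (g : ℝ) ≤ (1 + 2 * δ) * K := by nlinarith
  have hgK : K ≤ g := by nlinarith
  have hg0 : (0 : ℝ) < g := by linarith
  have hg2 : 2 ≤ g := by
    have : (2 : ℝ) ≤ g := by linarith
    exact_mod_cast this
  have hgk : (g : ℝ) ≤ k := by
    have : (1 + 2 * δ) * K ≤ K * L := by nlinarith
    linarith
  -- the parameter `m`
  obtain ⟨m, hm⟩ : ∃ m : ℕ, m = ⌈δ * g⌉₊ := ⟨_, rfl⟩
  have hm_lo : δ * g ≤ m := by rw [hm]; exact Nat.le_ceil _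
  have hm_hi : (m : ℝ) < δ * g + 1 := by
    rw [hm]; exact Nat.ceil_lt_add_one (by positivity)
  have hδg : 160 ≤ δ * g := by nlinarith
  have hm_hi2 : (m : ℝ) ≤ 2 * δ * g := by nlinarith
  have hm2 : 2 ≤ m := by
    have : (2 : ℝ) ≤ m := by linarith
    exact_mod_cast this
  have hmg : (m : ℝ) ≤ g := by nlinarith
  -- the parameter `r`
  obtain ⟨r, hr⟩ : ∃ r : ℕ, r = ⌊(1 - δ) * (g : ℝ) ^ 3⌋₊ := ⟨_, rfl⟩
  have hpos1 : 0 ≤ (1 - δ) * (g : ℝ) ^ 3 := by
    have : 0 ≤ 1 - δ := by linarith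
    positivity
  have hr_hi : (r : ℝ) ≤ (1 - δ) * (g : ℝ) ^ 3 := by rw [hr]; exact Nat.floor_le hpos1
  have hr_lo : (1 - δ) * (g : ℝ) ^ 3 < r + 1 := by rw [hr]; exact Nat.lt_floor_add_one _
  have hg1 : (1 : ℝ) ≤ g := by linarith
  have hg3 : (g : ℝ) ≤ (g : ℝ) ^ 3 := by
    calc (g : ℝ) = g ^ 1 := (pow_one _).symm
      _ ≤ (g : ℝ) ^ 3 := pow_le_pow_right₀ hg1 (by norm_num)
  have hr_lo2 : (1 - 2 * δ) * (g : ℝ) ^ 3 ≤ r := by nlinarith
  refine ⟨m, g, r, g ^ 4, hm2, by omega, ?_, ?_, ?_⟩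
  · -- `k ≤ g ^ 4`
    have h1 : L ≤ K := by
      by_contra hcon
      push Not at hcon
      have : K * L < L * L := mul_lt_mul_of_pos_right hcon hL0
      nlinarith
    have h2 : (k : ℝ) ≤ (g : ℝ) ^ 4 := by
      calc (k : ℝ) = K * L := hKL.symm
        _ ≤ K * K := mul_le_mul_of_nonneg_left h1 hK0.le
        _ ≤ (g : ℝ) * g := mul_le_mul hgK hgK hK0.le hg0.le
        _ = (g : ℝ) ^ 2 := by ring
        _ ≤ _ := pow_le_pow_right₀ hg1 (by norm_num)
    exact_mod_cast h2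
  · -- the probability condition
    have hA : ((g ^ 4 : ℕ) : ℝ) ^ k * (1 - (1 - 1 / (g : ℝ)) ^ k) ^ (g * m) < 1 / 2 := by
      have hlogg : Real.log g ≤ L := by rw [hL]; exact Real.log_le_log hg0 hgk
      have h1 : ((g ^ 4 : ℕ) : ℝ) ^ k ≤ Real.exp (4 * k * L) := by
        have : ((g ^ 4 : ℕ) : ℝ) ^ k = Real.exp (4 * k * Real.log g) := by
          push_cast
          rw [← pow_mul, ← Real.exp_log hg0, ← Real.exp_nat_mul, Real.exp_log hg0]
          congr 1; push_cast; ring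
        rw [this]
        apply Real.exp_le_exp.2
        exact mul_le_mul_of_nonneg_left hlogg (by positivity)
      have h2 : (1 - (1 - 1 / (g : ℝ)) ^ k) ^ (g * m) ≤
          Real.exp (-((g * m : ℕ) : ℝ) * (1 - 1 / (g : ℝ)) ^ k) := by
        have h3 : 1 - (1 - 1 / (g : ℝ)) ^ k ≤ Real.exp (-(1 - 1 / (g : ℝ)) ^ k) := by
          have := Real.add_one_le_exp (-(1 - 1 / (g : ℝ)) ^ k)
          linarith
        have h4 : 0 ≤ 1 - (1 - 1 / (g : ℝ)) ^ k := by
          rw [sub_nonneg]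
          apply pow_le_one₀
          · rw [sub_nonneg, div_le_one hg0]; exact hg1
          · have : 0 ≤ 1 / (g : ℝ) := by positivity
            linarith
        calc _ ≤ (Real.exp (-(1 - 1 / (g : ℝ)) ^ k)) ^ (g * m) := pow_le_pow_left₀ h4 h3 _
          _ = _ := by rw [← Real.exp_nat_mul]; congr 1; ring
      have h3 : δ * (k : ℝ) ^ (1 + δ / 4) / L ^ 2 ≤ ((g * m : ℕ) : ℝ) * (1 - 1 / (g : ℝ)) ^ k := by
        have h4 := pow_ge_exp g k hg2
        have h5 : (k : ℝ) / ((g : ℝ) - 1) ≤ (1 - δ / 4) * L := by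
          have h6 : (1 + δ / 2) * K ≤ (g : ℝ) - 1 := by nlinarith
          have h7 : (0 : ℝ) < (g : ℝ) - 1 := by linarith
          rw [div_le_iff₀ h7]
          have h8 : (k : ℝ) ≤ (1 - δ / 4) * L * ((1 + δ / 2) * K) := by
            have : (1 - δ / 4) * L * ((1 + δ / 2) * K) = (1 - δ / 4) * (1 + δ / 2) * (K * L) := by
              ring
            rw [this, hKL]
            have : 1 ≤ (1 - δ / 4) * (1 + δ / 2) := by nlinarith
            nlinarith
          refine h8.trans (mul_le_mul_of_nonneg_left h6 ?_)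
          have : 0 ≤ 1 - δ / 4 := by linarith
          positivity
        have h6 : (k : ℝ) ^ (-(1 - δ / 4)) ≤ (1 - 1 / (g : ℝ)) ^ k := by
          refine le_trans ?_ h4
          rw [Real.rpow_def_of_pos hk0, ← hL]
          apply Real.exp_le_exp.2
          linarith
        have h7 : δ * K ^ 2 ≤ ((g * m : ℕ) : ℝ) := by
          push_cast
          calc δ * K ^ 2 ≤ δ * (g : ℝ) ^ 2 :=
                mul_le_mul_of_nonneg_left (pow_le_pow_left₀ hK0.le hgK 2) hδ.le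
            _ = g * (δ * g) := by ring
            _ ≤ g * m := mul_le_mul_of_nonneg_left hm_lo hg0.le
        have h8 : δ * (k : ℝ) ^ (1 + δ / 4) / L ^ 2 = δ * K ^ 2 * (k : ℝ) ^ (-(1 - δ / 4)) := by
          have h9 : (k : ℝ) ^ (1 + δ / 4) = (k : ℝ) ^ 2 * (k : ℝ) ^ (-(1 - δ / 4)) := by
            rw [← Real.rpow_natCast, ← Real.rpow_add hk0]
            congr 1; push_cast; ring
          rw [h9, hK]; field_simp
        rw [h8]
        apply mul_le_mul h7 h6 (by positivity) (by positivity)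
      have h4 : 5 * (k : ℝ) * L ≤ δ * (k : ℝ) ^ (1 + δ / 4) / L ^ 2 := by
        rw [le_div_iff₀ (by positivity)]
        have h5 : (k : ℝ) ^ (1 + δ / 4) = (k : ℝ) * (k : ℝ) ^ (δ / 4) := by
          rw [Real.rpow_add hk0, Real.rpow_one]
        rw [h5]
        have h6 : 5 * L ^ 3 ≤ δ * (k : ℝ) ^ (δ / 4) := by linarith
        calc 5 * (k : ℝ) * L * L ^ 2 = k * (5 * L ^ 3) := by ring
          _ ≤ k * (δ * (k : ℝ) ^ (δ / 4)) := mul_le_mul_of_nonneg_left h6 hk0.le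
          _ = _ := by ring
      have h5 : ((g ^ 4 : ℕ) : ℝ) ^ k * (1 - (1 - 1 / (g : ℝ)) ^ k) ^ (g * m) ≤
          Real.exp (4 * k * L) * Real.exp (-((g * m : ℕ) : ℝ) * (1 - 1 / (g : ℝ)) ^ k) :=
        mul_le_mul h1 h2 (by
          apply pow_nonneg
          rw [sub_nonneg]
          apply pow_le_one₀
          · rw [sub_nonneg, div_le_one hg0]; exact hg1
          · have : 0 ≤ 1 / (g : ℝ) := by positivity
            linarith) (Real.exp_pos _).le
      rw [← Real.exp_add] at h5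
      refine h5.trans_lt ?_
      have h6 : 4 * k * L + -((g * m : ℕ) : ℝ) * (1 - 1 / (g : ℝ)) ^ k ≤ -1 := by
        have : (1 : ℝ) ≤ k * L := by nlinarith
        nlinarith
      calc _ ≤ Real.exp (-1) := Real.exp_le_exp.2 h6
        _ < 1 / 2 := by
          rw [Real.exp_neg, inv_lt_comm₀ (Real.exp_pos _) (by norm_num)]
          have := Real.add_one_lt_exp (x := 1) one_ne_zero
          linarith
    have hB : (m * g : ℝ) * ((1 - (δ / 2) / g) ^ (g ^ 4) / (1 - δ / 2) ^ r) < 1 / 2 := by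
      have h1 : (1 - (δ / 2) / (g : ℝ)) ^ (g ^ 4) ≤ Real.exp (-(δ / 2) * (g : ℝ) ^ 3) := by
        have h2 : 1 - (δ / 2) / (g : ℝ) ≤ Real.exp (-((δ / 2) / (g : ℝ))) := by
          have := Real.add_one_le_exp (-((δ / 2) / (g : ℝ)))
          linarith
        have h3 : 0 ≤ 1 - (δ / 2) / (g : ℝ) := by
          rw [sub_nonneg, div_le_one hg0]; linarith
        calc _ ≤ (Real.exp (-((δ / 2) / (g : ℝ)))) ^ (g ^ 4) := pow_le_pow_left₀ h3 h2 _
          _ = _ := by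
            rw [← Real.exp_nat_mul]; congr 1; push_cast; field_simp
      have h2 : Real.exp (-((δ / 2 + (δ / 2) ^ 2) * ((1 - δ) * (g : ℝ) ^ 3))) ≤
          (1 - δ / 2) ^ r := by
        have h3 := one_sub_ge_exp (δ / 2) (by positivity) (by linarith)
        calc Real.exp (-((δ / 2 + (δ / 2) ^ 2) * ((1 - δ) * (g : ℝ) ^ 3)))
            ≤ Real.exp (-((δ / 2 + (δ / 2) ^ 2) * r)) := by
              apply Real.exp_le_exp.2
              have : (δ / 2 + (δ / 2) ^ 2) * (r : ℝ) ≤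
                (δ / 2 + (δ / 2) ^ 2) * ((1 - δ) * (g : ℝ) ^ 3) :=
                mul_le_mul_of_nonneg_left hr_hi (by positivity)
              linarith
          _ = (Real.exp (-(δ / 2 + (δ / 2) ^ 2))) ^ r := by
              rw [← Real.exp_nat_mul]; congr 1; ring
          _ ≤ _ := pow_le_pow_left₀ (Real.exp_pos _).le h3 r
      have h3 : (1 - (δ / 2) / (g : ℝ)) ^ (g ^ 4) / (1 - δ / 2) ^ r ≤
          Real.exp (-(δ ^ 2 / 4 * (g : ℝ) ^ 3)) := by
        rw [div_le_iff₀ (pow_pos (by linarith) r)]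
        calc _ ≤ _ := h1
          _ ≤ Real.exp (-(δ ^ 2 / 4 * (g : ℝ) ^ 3)) *
              Real.exp (-((δ / 2 + (δ / 2) ^ 2) * ((1 - δ) * (g : ℝ) ^ 3))) := by
            rw [← Real.exp_add]
            apply Real.exp_le_exp.2
            have hg3' : 0 ≤ (g : ℝ) ^ 3 := by positivity
            have : 0 ≤ δ ^ 3 / 4 * (g : ℝ) ^ 3 := by positivity
            nlinarith
          _ ≤ _ := mul_le_mul_of_nonneg_left h2 (Real.exp_pos _).le
      have h4 : Real.exp (-(δ ^ 2 / 4 * (g : ℝ) ^ 3)) ≤ 4 / (δ ^ 2 * (g : ℝ) ^ 3) := by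
        rw [Real.exp_neg]
        have h5 : δ ^ 2 / 4 * (g : ℝ) ^ 3 ≤ Real.exp (δ ^ 2 / 4 * (g : ℝ) ^ 3) := by
          have := Real.add_one_le_exp (δ ^ 2 / 4 * (g : ℝ) ^ 3)
          linarith
        have h6 : 4 / (δ ^ 2 * (g : ℝ) ^ 3) = (δ ^ 2 / 4 * (g : ℝ) ^ 3)⁻¹ := by
          field_simp
        rw [h6]
        exact inv_anti₀ (by positivity) h5
      have h5 : (0 : ℝ) ≤ (1 - (δ / 2) / (g : ℝ)) ^ (g ^ 4) / (1 - δ / 2) ^ r := by
        apply div_nonneg
        · apply pow_nonneg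
          rw [sub_nonneg, div_le_one hg0]; linarith
        · apply pow_nonneg; linarith
      calc (m * g : ℝ) * ((1 - (δ / 2) / g) ^ (g ^ 4) / (1 - δ / 2) ^ r)
          ≤ (g * g : ℝ) * (4 / (δ ^ 2 * (g : ℝ) ^ 3)) := by
            apply mul_le_mul _ (h3.trans h4) h5 (by positivity)
            exact mul_le_mul_of_nonneg_right hmg hg0.le
        _ = 4 / (δ ^ 2 * g) := by field_simp
        _ < 1 / 2 := by
            rw [div_lt_div_iff₀ (by positivity) (by norm_num)]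
            have : 16 ≤ δ ^ 2 * g := by nlinarith [sq_nonneg δ]
            linarith
    have := add_lt_add hA hB
    push_cast at this ⊢
    linarith
  · -- the ratio
    push_cast
    have hLk' : L / k = 1 / K := by rw [hK]; field_simp
    rw [hLk']
    have hr0 : (0 : ℝ) ≤ r := Nat.cast_nonneg r
    have h1 : (g : ℝ) ^ 4 + 2 * m * r ≤ (1 + 7 * δ) * g * r := by
      have h2 : (g : ℝ) ^ 4 ≤ (1 + 3 * δ) * g * r := by
        have h3 : (g : ℝ) ^ 3 ≤ (1 + 3 * δ) * r := by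
          have h4 : 1 ≤ (1 + 3 * δ) * (1 - 2 * δ) := by nlinarith
          have h5 : (1 + 3 * δ) * ((1 - 2 * δ) * (g : ℝ) ^ 3) ≤ (1 + 3 * δ) * r :=
            mul_le_mul_of_nonneg_left hr_lo2 (by positivity)
          have h6 : 0 ≤ (g : ℝ) ^ 3 := by positivity
          nlinarith
        calc (g : ℝ) ^ 4 = g * g ^ 3 := by ring
          _ ≤ g * ((1 + 3 * δ) * r) := mul_le_mul_of_nonneg_left h3 hg0.le
          _ = _ := by ring
      have h3 : 2 * (m : ℝ) * r ≤ 4 * δ * g * r := by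
        have := mul_le_mul_of_nonneg_right hm_hi2 hr0
        linarith
      linarith
    have hc : 0 ≤ 1 - 10 * δ := by linarith
    calc (1 - 10 * δ) * (1 / K) * ((g : ℝ) ^ 4 + 2 * m * r)
        ≤ (1 - 10 * δ) * (1 / K) * ((1 + 7 * δ) * g * r) :=
          mul_le_mul_of_nonneg_left h1 (by positivity)
      _ ≤ (1 - 10 * δ) * (1 / K) * ((1 + 7 * δ) * ((1 + 2 * δ) * K) * r) := by
          apply mul_le_mul_of_nonneg_left _ (by positivity)
          apply mul_le_mul_of_nonneg_right _ hr0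
          exact mul_le_mul_of_nonneg_left hg_hi2 (by positivity)
      _ = (1 - 10 * δ) * (1 + 7 * δ) * (1 + 2 * δ) * r := by field_simp
      _ ≤ 1 * r := by
          apply mul_le_mul_of_nonneg_right _ hr0
          nlinarith [sq_nonneg δ, mul_pos hδ hδ]
      _ = r := one_mul _

end Pool.Agent.Lib_helper99.Transversal
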