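import Mathlib

set_option autoImplicit false

namespace Pool.Agent.Lib_helper99.Transversal

/-- Points of the plane. -/
abbrev Pt := ℝ × ℝ

/-- The family `G` has a line transversal. -/
def Trans (G : Finset (Set Pt)) : Prop :=
  ∃ p v : Pt, v ≠ 0 ∧ ∀ A ∈ G, ∃ t : ℝ, p + t • v ∈ A

/-- The linear functional whose level sets are the lines of slope `τ` (for `some τ`) or the
vertical lines (for `none`). -/
def fn : Option ℝ → Pt → ℝ
  | none => fun x => x.1
  | some τ => fun x => x.2 - τ * x.1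

/-- The line `ℓ` meets `A`. -/
def Hit (ℓ : Option ℝ × ℝ) (A : Set Pt) : Prop := ∃ x ∈ A, fn ℓ.1 x = ℓ.2

theorem trans_iff (G : Finset (Set Pt)) : Trans G ↔ ∃ ℓ : Option ℝ × ℝ, ∀ A ∈ G, Hit ℓ A := by
  constructor
  · rintro ⟨p, v, hv, h⟩
    by_cases h1 : v.1 = 0
    · refine ⟨(none, p.1), fun A hA => ?_⟩
      obtain ⟨t, ht⟩ := h A hA
      exact ⟨_, ht, by simp [fn, h1]⟩
    · refine ⟨(some (v.2 / v.1), p.2 - v.2 / v.1 * p.1), fun A hA => ?_⟩
      obtain ⟨t, ht⟩ := h A hA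
      refine ⟨_, ht, ?_⟩
      simp only [fn, Prod.fst_add, Prod.snd_add, Prod.smul_fst, Prod.smul_snd, smul_eq_mul]
      field_simp
      ring
  · rintro ⟨⟨d, γ⟩, h⟩
    cases d with
    | none =>
      refine ⟨(γ, 0), (0, 1), by simp, fun A hA => ?_⟩
      obtain ⟨x, hx, hx2⟩ := h A hA
      refine ⟨x.2, ?_⟩
      have : ((γ, 0) : Pt) + x.2 • ((0, 1) : Pt) = x := by
        simp only [fn] at hx2
        ext <;> simp [hx2]
      rw [this]; exact hx
    | some τ =>
      refine ⟨(0, γ), (1, τ), by simp, fun A hA => ?_⟩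
      obtain ⟨x, hx, hx2⟩ := h A hA
      refine ⟨x.1, ?_⟩
      have : ((0, γ) : Pt) + x.1 • ((1, τ) : Pt) = x := by
        simp only [fn] at hx2
        ext
        · simp
        · simp; linarith
      rw [this]; exact hx

theorem fn_continuous (d : Option ℝ) : Continuous (fn d) := by
  cases d with
  | none => exact continuous_fst
  | some τ => exact continuous_snd.sub (continuous_const.mul continuous_fst)

/-- `fn d` as a linear map. -/
theorem fn_add (d : Option ℝ) (x y : Pt) : fn d (x + y) = fn d x + fn d y := by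
  cases d with
  | none => rfl
  | some τ => simp only [fn, Prod.fst_add, Prod.snd_add]; ring

theorem fn_smul (d : Option ℝ) (c : ℝ) (x : Pt) : fn d (c • x) = c * fn d x := by
  cases d with
  | none => rfl
  | some τ => simp only [fn, Prod.smul_fst, Prod.smul_snd, smul_eq_mul]; ring

theorem fn_isLinearMap (d : Option ℝ) : IsLinearMap ℝ (fn d) :=
  ⟨fn_add d, fn_smul d⟩

/-- A convex set with points on both sides of a line is hit by it. -/
theorem hit_of_le {A : Set Pt} (hA : Convex ℝ A) {ℓ : Option ℝ × ℝ}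
    (h1 : ∃ x ∈ A, fn ℓ.1 x ≤ ℓ.2) (h2 : ∃ x ∈ A, ℓ.2 ≤ fn ℓ.1 x) : Hit ℓ A := by
  obtain ⟨x, hx, hx2⟩ := h1
  obtain ⟨y, hy, hy2⟩ := h2
  obtain ⟨z, hz, hz2⟩ :=
    hA.isPreconnected.intermediate_value hx hy (fn_continuous ℓ.1).continuousOn ⟨hx2, hy2⟩
  exact ⟨z, hz, hz2⟩

end Pool.Agent.Lib_helper99.Transversal
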