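import Pool.Agent.Lib_helper99.Transversal.Miss

set_option autoImplicit false

namespace Pool.Agent.Lib_helper99.Transversal

open Finset

/-- The construction: a code without small coordinatewise surjective subsets gives a family of
compact convex sets with small partial transversals. -/
theorem geom (m g r N k : ℕ) (hm : 2 ≤ m) (hg : 1 ≤ g) (W : Fin N → Fin m → Fin g)
    (hr : ∀ (j : Fin m) (c : Fin g), r ≤ (univ.filter (fun i => W i j = c)).card)
    (hk : ∀ S : Finset (Fin N), S.card ≤ k → ∃ (j : Fin m) (c : Fin g), ∀ i ∈ S, W i j ≠ c) :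
    ∃ F : Finset (Set Pt), (∀ A ∈ F, IsCompact A ∧ Convex ℝ A) ∧
      F.card = N + (m * r + (m - 1) * r) ∧ (∀ G ⊆ F, G.card ≤ k → Trans G) ∧
      ∀ G ⊆ F, Trans G → G.card + r ≤ F.card := by
  classical
  have hg0 : (0 : ℝ) < g := by exact_mod_cast (by omega : 0 < g)
  have hg1 : (1 : ℝ) ≤ g := by exact_mod_cast hg
  obtain ⟨T, hT⟩ : ∃ T : ℝ, T = (m : ℝ) ^ 2 + 3 * m + Fintype.card (Idx m r N) + 4 := ⟨_, rfl⟩
  have hm' : (2 : ℝ) ≤ m := by exact_mod_cast hm
  have hcard0 : (0 : ℝ) ≤ Fintype.card (Idx m r N) := Nat.cast_nonneg _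
  have hTpos : 4 ≤ T := by rw [hT]; nlinarith
  have hT' : 2 * (m : ℝ) + 4 ≤ T := by rw [hT]; nlinarith
  obtain ⟨ζ, hζd⟩ : ∃ ζ : ℝ, ζ = 1 / (4 * g) := ⟨_, rfl⟩
  have hζ : 0 < ζ := by rw [hζd]; positivity
  have hζ1 : ζ ≤ 1 / 4 := by
    rw [hζd, div_le_div_iff₀ (by positivity) (by norm_num)]; linarith
  obtain ⟨η, hηd⟩ : ∃ η : ℝ, η = ζ / (4 * T) := ⟨_, rfl⟩
  have hη : 0 < η := by rw [hηd]; positivity
  have hηT : η * (2 * T) < ζ := by
    have : η * (2 * T) = ζ / 2 := by rw [hηd]; field_simp; norm_num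
    rw [this]; linarith
  have hηT1 : η * T ≤ 1 := by nlinarith
  have hinj : Function.Injective (fam m g r N W T ζ η) :=
    fam_inj hη.le hηT1 hζ.le (by linarith) hT'
  have hmiss := fam_miss m g r N hm hg W hr T ζ η hζ hζ1 hη hηT hT.ge
  refine ⟨univ.image (fam m g r N W T ζ η), ?_, ?_, ?_, ?_⟩
  · intro A hA
    obtain ⟨x, _, rfl⟩ := Finset.mem_image.1 hA
    exact fam_compact_convex x
  · rw [Finset.card_image_of_injective _ hinj, Finset.card_univ]
    simp [Idx, Fintype.card_sum, Fintype.card_prod]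
  · intro G hG hGk
    -- words in `G`
    set S : Finset (Fin N) := univ.filter (fun i => fam m g r N W T ζ η (Sum.inl i) ∈ G) with hS
    have hSc : S.card ≤ k := by
      refine (Finset.card_le_card_of_injOn (fun i => fam m g r N W T ζ η (Sum.inl i)) ?_ ?_).trans
        hGk
      · intro i hi
        have := (Finset.mem_filter.1 hi).2
        exact this
      · intro a _ b _ hab
        have := hinj hab
        simpa using this
    obtain ⟨j, c, hjc⟩ := hk S hSc
    rw [trans_iff]
    refine ⟨(some (cen g j c), phi (cen g j c) j), fun A hA => ?_⟩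
    obtain ⟨x, _, rfl⟩ := Finset.mem_image.1 (hG hA)
    rw [hζd]
    refine fam_hit hη.le j c x fun i hi => ?_
    subst hi
    apply hjc
    rw [hS, Finset.mem_filter]
    exact ⟨Finset.mem_univ _, hA⟩
  · intro G hG hGT
    rw [trans_iff] at hGT
    obtain ⟨ℓ, hℓ⟩ := hGT
    have h1 := hmiss ℓ
    rw [Finset.card_image_of_injective _ hinj]
    have h2 : G ⊆ (univ.filter (fun x : Idx m r N => Hit ℓ (fam m g r N W T ζ η x))).image
        (fam m g r N W T ζ η) := by
      intro A hA
      obtain ⟨x, _, rfl⟩ := Finset.mem_image.1 (hG hA)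
      exact Finset.mem_image_of_mem _ (Finset.mem_filter.2 ⟨Finset.mem_univ _, hℓ _ hA⟩)
    have h3 := (Finset.card_le_card h2).trans Finset.card_image_le
    have h4 := Finset.card_filter_add_card_filter_not (s := (univ : Finset (Idx m r N)))
      (fun x : Idx m r N => Hit ℓ (fam m g r N W T ζ η x))
    omega

end Pool.Agent.Lib_helper99.Transversal
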