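import Pool.Agent.Lib_helper99.Transversal.Basic

set_option autoImplicit false

namespace Pool.Agent.Lib_helper99.Transversal

open Filter Topology

/-- Largest value of the functional on `A`. -/
noncomputable def up (d : Option ℝ) (A : Set Pt) : ℝ := sSup (fn d '' A)

/-- Smallest value of the functional on `A`. -/
noncomputable def lo (d : Option ℝ) (A : Set Pt) : ℝ := sInf (fn d '' A)

section
variable {A : Set Pt}

theorem exists_up (hA : IsCompact A) (hn : A.Nonempty) (d : Option ℝ) :
    ∃ x ∈ A, fn d x = up d A := by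
  have := (hA.image (fn_continuous d)).sSup_mem (hn.image _)
  obtain ⟨x, hx, h⟩ := this
  exact ⟨x, hx, h⟩

theorem exists_lo (hA : IsCompact A) (hn : A.Nonempty) (d : Option ℝ) :
    ∃ x ∈ A, fn d x = lo d A := by
  have := (hA.image (fn_continuous d)).sInf_mem (hn.image _)
  obtain ⟨x, hx, h⟩ := this
  exact ⟨x, hx, h⟩

theorem le_up (hA : IsCompact A) (d : Option ℝ) {x : Pt} (hx : x ∈ A) : fn d x ≤ up d A :=
  le_csSup (hA.image (fn_continuous d)).bddAbove (Set.mem_image_of_mem _ hx)

theorem lo_le (hA : IsCompact A) (d : Option ℝ) {x : Pt} (hx : x ∈ A) : lo d A ≤ fn d x :=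
  csInf_le (hA.image (fn_continuous d)).bddBelow (Set.mem_image_of_mem _ hx)

theorem lo_le_up (hA : IsCompact A) (hn : A.Nonempty) (d : Option ℝ) : lo d A ≤ up d A := by
  obtain ⟨x, hx⟩ := hn
  exact (lo_le hA d hx).trans (le_up hA d hx)

theorem hit_iff (hA : IsCompact A) (hc : Convex ℝ A) (hn : A.Nonempty) (ℓ : Option ℝ × ℝ) :
    Hit ℓ A ↔ lo ℓ.1 A ≤ ℓ.2 ∧ ℓ.2 ≤ up ℓ.1 A := by
  constructor
  · rintro ⟨x, hx, h⟩
    rw [← h]
    exact ⟨lo_le hA _ hx, le_up hA _ hx⟩
  · rintro ⟨h1, h2⟩
    obtain ⟨x, hx, hx2⟩ := exists_lo hA hn ℓ.1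
    obtain ⟨y, hy, hy2⟩ := exists_up hA hn ℓ.1
    exact hit_of_le hc ⟨x, hx, by rw [hx2]; exact h1⟩ ⟨y, hy, by rw [hy2]; exact h2⟩

theorem up_continuous (hA : IsCompact A) : Continuous fun τ : ℝ => up (some τ) A := by
  have : Continuous (Function.uncurry fun (τ : ℝ) (x : Pt) => fn (some τ) x) := by
    simp only [fn, Function.uncurry]
    fun_prop
  exact hA.continuous_sSup this

theorem lo_continuous (hA : IsCompact A) : Continuous fun τ : ℝ => lo (some τ) A := by
  have : Continuous (Function.uncurry fun (τ : ℝ) (x : Pt) => fn (some τ) x) := by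
    simp only [fn, Function.uncurry]
    fun_prop
  exact hA.continuous_sInf this

end

/-- The set of slopes for which `A` is strictly below `B`. -/
def neg (A B : Set Pt) : Set ℝ := {τ : ℝ | up (some τ) A < lo (some τ) B}

open scoped Classical in
/-- The canonical line attached to the ordered pair `(A, B)`. -/
noncomputable def canon (A B : Set Pt) : Option ℝ × ℝ :=
  if A = B then (none, lo none A)
  else (some (sSup (neg A B)), up (some (sSup (neg A B))) A)

theorem canon_hit (K : Finset (Set Pt)) (hK : ∀ A ∈ K, IsCompact A ∧ Convex ℝ A ∧ A.Nonempty)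
    (hne : K.Nonempty) (ht : ∃ ℓ : Option ℝ × ℝ, ∀ A ∈ K, Hit ℓ A) :
    ∃ A ∈ K, ∃ B ∈ K, ∀ C ∈ K, Hit (canon A B) C := by
  by_cases hv : ∃ γ : ℝ, ∀ A ∈ K, Hit (none, γ) A
  · -- vertical transversal
    obtain ⟨γ, hγ⟩ := hv
    obtain ⟨A, hA, hmax⟩ := K.exists_max_image (fun A => lo none A) hne
    refine ⟨A, hA, A, hA, fun C hC => ?_⟩
    obtain ⟨hc1, hc2, hc3⟩ := hK C hC
    obtain ⟨ha1, ha2, ha3⟩ := hK A hA
    rw [hit_iff hc1 hc2 hc3]
    have h1 := (hit_iff ha1 ha2 ha3 _).1 (hγ A hA)
    have h2 := (hit_iff hc1 hc2 hc3 _).1 (hγ C hC)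
    simp only [canon, if_true]
    exact ⟨hmax C hC, h1.1.trans h2.2⟩
  · -- no vertical transversal
    push Not at hv
    obtain ⟨⟨d, γ⟩, hℓ⟩ := ht
    cases d with
    | none => exact absurd hℓ (by obtain ⟨A, hA, h⟩ := hv γ; intro h'; exact h (h' A hA))
    | some τ0 =>
      -- pairwise description of the admissible slopes
      set D : Set ℝ := {τ | ∀ A ∈ K, ∀ B ∈ K, lo (some τ) B ≤ up (some τ) A} with hD
      have hDne : τ0 ∈ D := by
        intro A hA B hB
        obtain ⟨ha1, ha2, ha3⟩ := hK A hA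
        obtain ⟨hb1, hb2, hb3⟩ := hK B hB
        have h1 := (hit_iff ha1 ha2 ha3 _).1 (hℓ A hA)
        have h2 := (hit_iff hb1 hb2 hb3 _).1 (hℓ B hB)
        exact h2.1.trans h1.2
      have hDcl : IsClosed D := by
        have : D = ⋂ A ∈ K, ⋂ B ∈ K, {τ : ℝ | lo (some τ) B ≤ up (some τ) A} := by
          ext τ; simp [hD]
        rw [this]
        refine isClosed_biInter fun A hA => isClosed_biInter fun B hB => ?_
        exact isClosed_le (lo_continuous (hK B hB).1) (up_continuous (hK A hA).1)
      -- two sets with disjoint vertical projections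
      obtain ⟨A0, hA0, B0, hB0, hAB⟩ : ∃ A ∈ K, ∃ B ∈ K, up none A < lo none B := by
        by_contra hcon
        push Not at hcon
        obtain ⟨A, hA, hmax⟩ := K.exists_max_image (fun A => lo none A) hne
        obtain ⟨C, hC, hCn⟩ := hv (lo none A)
        apply hCn
        obtain ⟨hc1, hc2, hc3⟩ := hK C hC
        rw [hit_iff hc1 hc2 hc3]
        exact ⟨hmax C hC, hcon C hC A hA⟩
      have hDbdd : BddBelow D := by
        obtain ⟨ha1, ha2, ha3⟩ := hK A0 hA0
        obtain ⟨hb1, hb2, hb3⟩ := hK B0 hB0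
        obtain ⟨Ma, hMa⟩ := (ha1.image continuous_snd).isBounded.exists_norm_le
        obtain ⟨Mb, hMb⟩ := (hb1.image continuous_snd).isBounded.exists_norm_le
        refine ⟨-((Ma + Mb) / (lo none B0 - up none A0)), ?_⟩
        intro τ hτ
        by_contra hlt
        push Not at hlt
        -- the slope is very negative; then `B0` lies strictly above `A0`
        have h1 := hτ A0 hA0 B0 hB0
        obtain ⟨x, hx, hx2⟩ := exists_up ha1 ha3 (some τ)
        obtain ⟨y, hy, hy2⟩ := exists_lo hb1 hb3 (some τ)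
        rw [← hx2, ← hy2] at h1
        simp only [fn] at h1
        have e1 : |x.2| ≤ Ma := by
          have := hMa x.2 (Set.mem_image_of_mem _ hx); simpa using this
        have e2 : |y.2| ≤ Mb := by
          have := hMb y.2 (Set.mem_image_of_mem _ hy); simpa using this
        have e3 : x.1 ≤ up none A0 := le_up ha1 none hx
        have e4 : lo none B0 ≤ y.1 := lo_le hb1 none hy
        have hg : 0 < lo none B0 - up none A0 := by linarith
        have hM : 0 ≤ Ma + Mb := by
          have := abs_nonneg x.2; have := abs_nonneg y.2; linarith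
        have h2 : Ma + Mb < (-τ) * (lo none B0 - up none A0) := by
          have : (Ma + Mb) / (lo none B0 - up none A0) < -τ := by linarith
          rwa [div_lt_iff₀ hg] at this
        have hτneg : 0 ≤ -τ := by
          have : 0 ≤ (Ma + Mb) / (lo none B0 - up none A0) := by positivity
          linarith
        have h3 : (-τ) * (lo none B0 - up none A0) ≤ (-τ) * (y.1 - x.1) :=
          mul_le_mul_of_nonneg_left (by linarith) hτneg
        have h4 := abs_le.1 e1
        have h5 := abs_le.1 e2
        nlinarith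
      set τ1 := sInf D with hτ1
      have hmem : τ1 ∈ D := hDcl.csInf_mem ⟨τ0, hDne⟩ hDbdd
      have hnot : ∀ τ < τ1, τ ∉ D := fun τ h hτ => absurd (csInf_le hDbdd hτ) (not_le.2 h)
      -- a pair that is separated frequently below `τ1`
      obtain ⟨A, hA, B, hB, hfreq⟩ : ∃ A ∈ K, ∃ B ∈ K, ∃ᶠ τ in 𝓝[<] τ1,
          up (some τ) A < lo (some τ) B := by
        by_contra hcon
        push Not at hcon
        have h1 : ∀ᶠ τ in 𝓝[<] τ1, ∀ A ∈ K, ∀ B ∈ K, lo (some τ) B ≤ up (some τ) A := by
          rw [Filter.eventually_all_finset]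
          intro A hA
          rw [Filter.eventually_all_finset]
          intro B hB
          have := hcon A hA B hB
          exact this
        have h2 : ∀ᶠ τ in 𝓝[<] τ1, τ < τ1 := eventually_mem_nhdsWithin
        obtain ⟨τ, hτ, hτ2⟩ := (h1.and h2).exists
        exact hnot τ hτ2 hτ
      obtain ⟨ha1, ha2, ha3⟩ := hK A hA
      obtain ⟨hb1, hb2, hb3⟩ := hK B hB
      have heq : up (some τ1) A = lo (some τ1) B := by
        apply le_antisymm
        · by_contra hlt
          push Not at hlt
          have h1 : ∀ᶠ τ in 𝓝 τ1, lo (some τ) B < up (some τ) A :=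
            (lo_continuous hb1).continuousAt.eventually_lt
              (up_continuous ha1).continuousAt hlt
          have h2 : ∀ᶠ τ in 𝓝[<] τ1, lo (some τ) B < up (some τ) A := nhdsWithin_le_nhds h1
          obtain ⟨τ, h3, h4⟩ := (hfreq.and_eventually h2).exists
          exact lt_asymm h3 h4
        · exact hmem A hA B hB
      have hlub : IsLUB (neg A B) τ1 := by
        constructor
        · intro τ hτ
          by_contra hlt
          push Not at hlt
          have h2 : ∀ᶠ τ in 𝓝[<] τ1, τ < τ1 := eventually_mem_nhdsWithin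
          obtain ⟨τ', h3, h4⟩ := (hfreq.and_eventually h2).exists
          -- convexity
          obtain ⟨x, hx, hx2⟩ := exists_up ha1 ha3 (some τ1)
          obtain ⟨y, hy, hy2⟩ := exists_lo hb1 hb3 (some τ1)
          have k1 : fn (some τ') x < fn (some τ') y :=
            (le_up ha1 _ hx).trans_lt (h3.trans_le (lo_le hb1 _ hy))
          have k2 : fn (some τ) x < fn (some τ) y :=
            (le_up ha1 _ hx).trans_lt (lt_of_lt_of_le hτ (lo_le hb1 _ hy))
          have k3 : fn (some τ1) x = fn (some τ1) y := by rw [hx2, hy2, heq]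
          simp only [fn] at k1 k2 k3
          nlinarith
        · intro u hu
          by_contra hlt
          push Not at hlt
          have h2 : ∀ᶠ τ in 𝓝[<] τ1, u < τ :=
            nhdsWithin_le_nhds (lt_mem_nhds hlt)
          obtain ⟨τ', h3, h4⟩ := (hfreq.and_eventually h2).exists
          exact absurd (hu h3) (not_le.2 h4)
      have hnonempty : (neg A B).Nonempty := by
        obtain ⟨τ', h3⟩ := hfreq.exists
        exact ⟨τ', h3⟩
      have hsup : sSup (neg A B) = τ1 := hlub.csSup_eq hnonempty
      have hABne : A ≠ B := by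
        rintro rfl
        obtain ⟨τ', h3⟩ := hnonempty
        exact absurd (lo_le_up ha1 ha3 (some τ')) (not_le.2 h3)
      refine ⟨A, hA, B, hB, fun C hC => ?_⟩
      obtain ⟨hc1, hc2, hc3⟩ := hK C hC
      rw [hit_iff hc1 hc2 hc3]
      simp only [canon, if_neg hABne, hsup]
      exact ⟨hmem A hA C hC, by rw [heq]; exact hmem C hC B hB⟩

end Pool.Agent.Lib_helper99.Transversal
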