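import Pool.Agent.Lib_helper99.Transversal.Indexed

set_option autoImplicit false

namespace Pool.Agent.Lib_helper99.Transversal

/-! # Finite certificates for upper bounds on `ρ(k)` -/

/-- The lattice point `p` as a point of the plane. -/
def ptR (p : ℤ × ℤ) : Pt := ((p.1 : ℝ), (p.2 : ℝ))

/-- The convex hull of a list of lattice points. -/
def hull (l : List (ℤ × ℤ)) : Set Pt := convexHull ℝ {x | ∃ p ∈ l, ptR p = x}

/-- `⟨u, x⟩` for lattice points. -/
def dotZ (u p : ℤ × ℤ) : ℤ := u.1 * p.1 + u.2 * p.2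

/-- `⟨u, x⟩`. -/
def dotR (u x : Pt) : ℝ := u.1 * x.1 + u.2 * x.2

theorem dotR_pt (u p : ℤ × ℤ) : dotR (ptR u) (ptR p) = (dotZ u p : ℝ) := by
  simp [dotR, dotZ, ptR]

theorem dotR_isLinear (u : Pt) : IsLinearMap ℝ (dotR u) where
  map_add x y := by simp only [dotR, Prod.fst_add, Prod.snd_add]; ring
  map_smul c x := by simp only [dotR, Prod.smul_fst, Prod.smul_snd, smul_eq_mul]; ring

theorem dotR_continuous (u : Pt) : Continuous (dotR u) := by unfold dotR; fun_prop

theorem pts_finite (l : List (ℤ × ℤ)) : {x : Pt | ∃ p ∈ l, ptR p = x}.Finite := by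
  have : {x : Pt | ∃ p ∈ l, ptR p = x} = ptR '' {p | p ∈ l} := rfl
  rw [this]
  exact (List.finite_toSet l).image _

theorem hull_compact (l : List (ℤ × ℤ)) : IsCompact (hull l) := by
  unfold hull
  exact (pts_finite l).isCompact_convexHull (𝕜 := ℝ)

theorem hull_convex (l : List (ℤ × ℤ)) : Convex ℝ (hull l) := convex_convexHull ℝ _

theorem mem_hull {l : List (ℤ × ℤ)} {p : ℤ × ℤ} (h : p ∈ l) : ptR p ∈ hull l :=
  subset_convexHull ℝ _ ⟨p, h, rfl⟩

theorem hull_lt {l : List (ℤ × ℤ)} {u : Pt} {c : ℝ} (h : ∀ p ∈ l, dotR u (ptR p) < c) :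
    ∀ x ∈ hull l, dotR u x < c := by
  intro x hx
  have h1 : {x : Pt | ∃ p ∈ l, ptR p = x} ⊆ {x | dotR u x < c} := by
    rintro _ ⟨p, hp, rfl⟩; exact h p hp
  exact convexHull_min h1 (convex_halfSpace_lt (dotR_isLinear u) c) hx

theorem hull_gt {l : List (ℤ × ℤ)} {u : Pt} {c : ℝ} (h : ∀ p ∈ l, c < dotR u (ptR p)) :
    ∀ x ∈ hull l, c < dotR u x := by
  intro x hx
  have h1 : {x : Pt | ∃ p ∈ l, ptR p = x} ⊆ {x | c < dotR u x} := by
    rintro _ ⟨p, hp, rfl⟩; exact h p hp
  exact convexHull_min h1 (convex_halfSpace_gt (dotR_isLinear u) c) hx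

/-- `A` lies strictly below `B` in direction `r`. -/
def sepDir (r : ℤ × ℤ) (A B : List (ℤ × ℤ)) : Bool :=
  A.all fun p => B.all fun q => decide (dotZ r p < dotZ r q)

theorem sepDir_spec {r : ℤ × ℤ} {A B : List (ℤ × ℤ)} (h : sepDir r A B = true) :
    ∀ x ∈ hull A, ∀ y ∈ hull B, dotR (ptR r) x < dotR (ptR r) y := by
  simp only [sepDir, List.all_eq_true, decide_eq_true_eq] at h
  intro x hx y hy
  refine hull_gt (fun q hq => ?_) y hy
  refine hull_lt (fun p hp => ?_) x hx
  rw [dotR_pt, dotR_pt]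
  exact_mod_cast h p hp q hq

/-- The polygon number `i`. -/
def pol (P : List (List (ℤ × ℤ))) (i : ℕ) : List (ℤ × ℤ) := P.getD i []

/-- In the cone spanned by `r` and `s`, polygons with the same colour are separated. -/
def secOK (P : List (List (ℤ × ℤ))) (t : ℕ) (r s : ℤ × ℤ) (col : List ℕ) : Bool :=
  decide (0 < r.1 * s.2 - r.2 * s.1) &&
  (List.range P.length).all fun i =>
    decide (col.getD i 0 < t) &&
    (List.range i).all fun j =>
      (!(col.getD i 0 == col.getD j 0)) ||
      ((sepDir r (pol P j) (pol P i) && sepDir s (pol P j) (pol P i)) ||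
       (sepDir r (pol P i) (pol P j) && sepDir s (pol P i) (pol P j)))

/-- The cones `(r, s₁), (s₁, s₂), …` all pass the test, and the last ray is `e`. -/
def chk (P : List (List (ℤ × ℤ))) (t : ℕ) (e : ℤ × ℤ) :
    ℤ × ℤ → List (List ℕ × (ℤ × ℤ)) → Bool
  | r, [] => r == e
  | r, (col, s) :: tl => secOK P t r s col && chk P t e s tl

def crossR (r : ℤ × ℤ) (u : Pt) : ℝ := r.1 * u.2 - r.2 * u.1

theorem chk_find {P : List (List (ℤ × ℤ))} {t : ℕ} {e : ℤ × ℤ} {u : Pt}
    (he : crossR e u ≤ 0) :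
    ∀ (l : List (List ℕ × (ℤ × ℤ))) (r : ℤ × ℤ), chk P t e r l = true → 0 < crossR r u →
      ∃ r' s' col, secOK P t r' s' col = true ∧ 0 ≤ crossR r' u ∧ crossR s' u ≤ 0 := by
  intro l
  induction l with
  | nil =>
    intro r h hr
    simp only [chk, beq_iff_eq] at h
    rw [h] at hr
    exact absurd hr (not_lt.2 he)
  | cons a tl ih =>
    intro r h hr
    obtain ⟨col, s⟩ := a
    simp only [chk, Bool.and_eq_true] at h
    rcases le_or_gt (crossR s u) 0 with hs | hs
    · exact ⟨r, s, col, h.1, hr.le, hs⟩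
    · exact ih s h.2 hs

theorem cone_decomp {r s : ℤ × ℤ} {u : Pt} (hD : 0 < r.1 * s.2 - r.2 * s.1) (hu : u ≠ 0)
    (h1 : 0 ≤ crossR r u) (h2 : crossR s u ≤ 0) :
    ∃ α β : ℝ, 0 ≤ α ∧ 0 ≤ β ∧ (0 < α ∨ 0 < β) ∧
      ∀ x : Pt, dotR u x = α * dotR (ptR r) x + β * dotR (ptR s) x := by
  have hD' : (0 : ℝ) < r.1 * s.2 - r.2 * s.1 := by exact_mod_cast hD
  set D : ℝ := r.1 * s.2 - r.2 * s.1 with hDdef
  have e1 : u.1 = (-crossR s u / D) * r.1 + (crossR r u / D) * s.1 := by
    simp only [crossR]; field_simp; rw [hDdef]; ring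
  have e2 : u.2 = (-crossR s u / D) * r.2 + (crossR r u / D) * s.2 := by
    simp only [crossR]; field_simp; rw [hDdef]; ring
  refine ⟨-crossR s u / D, crossR r u / D, div_nonneg (by linarith) hD'.le,
    div_nonneg h1 hD'.le, ?_, ?_⟩
  · by_contra hcon
    push Not at hcon
    have a0 : -crossR s u / D = 0 := le_antisymm hcon.1 (div_nonneg (by linarith) hD'.le)
    have b0 : crossR r u / D = 0 := le_antisymm hcon.2 (div_nonneg h1 hD'.le)
    rw [a0, b0] at e1 e2
    apply hu
    ext
    · simpa using e1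
    · simpa using e2
  · intro x
    simp only [dotR, ptR]
    rw [e1, e2]
    ring

theorem sec_card {P : List (List (ℤ × ℤ))} {t : ℕ} {r s : ℤ × ℤ} {col : List ℕ}
    (h : secOK P t r s col = true) {u : Pt} (hu : u ≠ 0) (h1 : 0 ≤ crossR r u)
    (h2 : crossR s u ≤ 0) (c : ℝ) (I : Finset ℕ) (hI : ∀ i ∈ I, i < P.length)
    (hit : ∀ i ∈ I, ∃ z ∈ hull (pol P i), dotR u z = c) : I.card ≤ t := by
  simp only [secOK, Bool.and_eq_true, decide_eq_true_eq, List.all_eq_true, List.mem_range,
    Bool.or_eq_true, Bool.not_eq_true', beq_eq_false_iff_ne] at h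
  obtain ⟨hD, hc⟩ := h
  obtain ⟨α, β, hα, hβ, hαβ, hdec⟩ := cone_decomp hD hu h1 h2
  -- two separated polygons are not both hit
  have key : ∀ i ∈ I, ∀ j ∈ I, sepDir r (pol P i) (pol P j) = true →
      sepDir s (pol P i) (pol P j) = true → False := by
    intro i hi j hj hr hs
    obtain ⟨x, hx, hxc⟩ := hit i hi
    obtain ⟨y, hy, hyc⟩ := hit j hj
    have a1 := sepDir_spec hr x hx y hy
    have a2 := sepDir_spec hs x hx y hy
    rw [hdec] at hxc hyc
    rcases hαβ with h0 | h0 <;> nlinarith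
  have hinj : Set.InjOn (fun i => col.getD i 0) (I : Set ℕ) := by
    intro i hi j hj hij
    by_contra hne
    have hi' : i ∈ I := hi
    have hj' : j ∈ I := hj
    rcases lt_or_gt_of_ne hne with hlt | hlt
    · rcases (hc j (hI j hj')).2 i hlt with h3 | h3
      · exact h3 hij.symm
      · rcases h3 with h3 | h3
        · exact key i hi' j hj' h3.1 h3.2
        · exact key j hj' i hi' h3.1 h3.2
    · rcases (hc i (hI i hi')).2 j hlt with h3 | h3
      · exact h3 hij
      · rcases h3 with h3 | h3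
        · exact key j hj' i hi' h3.1 h3.2
        · exact key i hi' j hj' h3.1 h3.2
  have hmaps : ∀ i ∈ I, (fun i => col.getD i 0) i ∈ Finset.range t := fun i hi =>
    Finset.mem_range.2 (hc i (hI i hi)).1
  calc I.card ≤ (Finset.range t).card := Finset.card_le_card_of_injOn _ hmaps hinj
    _ = t := Finset.card_range t

/-- The certificate that no line meets more than `t` of the polygons. -/
def capOK (P : List (List (ℤ × ℤ))) (t : ℕ) (r : ℤ × ℤ) (l : List (List ℕ × (ℤ × ℤ))) : Bool :=
  match l with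
  | [] => false
  | (col, s) :: tl => secOK P t r s col && chk P t (-r.1, -r.2) s tl

theorem cap_spec {P : List (List (ℤ × ℤ))} {t : ℕ} {r : ℤ × ℤ}
    {l : List (List ℕ × (ℤ × ℤ))} (h : capOK P t r l = true) {u : Pt} (hu : u ≠ 0) (c : ℝ)
    (I : Finset ℕ) (hI : ∀ i ∈ I, i < P.length)
    (hit : ∀ i ∈ I, ∃ z ∈ hull (pol P i), dotR u z = c) : I.card ≤ t := by
  -- we may replace `u` by `-u`
  have main : ∀ (u : Pt) (c : ℝ), u ≠ 0 → 0 ≤ crossR r u →
      (∀ i ∈ I, ∃ z ∈ hull (pol P i), dotR u z = c) → I.card ≤ t := by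
    intro u c hu hru hit
    cases l with
    | nil => simp [capOK] at h
    | cons a tl =>
      obtain ⟨col, s⟩ := a
      simp only [capOK, Bool.and_eq_true] at h
      rcases le_or_gt (crossR s u) 0 with hs | hs
      · exact sec_card h.1 hu hru hs c I hI hit
      · have he : crossR (-r.1, -r.2) u ≤ 0 := by
          simp only [crossR] at hru ⊢
          push_cast
          linarith
        obtain ⟨r', s', col', h3, h4, h5⟩ := chk_find he tl s h.2 hs
        exact sec_card h3 hu h4 h5 c I hI hit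
  rcases le_or_gt 0 (crossR r u) with h0 | h0
  · exact main u c hu h0 hit
  · refine main (-u) (-c) (neg_ne_zero.2 hu) ?_ ?_
    · simp only [crossR, Prod.snd_neg, Prod.fst_neg] at h0 ⊢
      linarith
    · intro i hi
      obtain ⟨z, hz, hzc⟩ := hit i hi
      refine ⟨z, hz, ?_⟩
      simp only [dotR, Prod.snd_neg, Prod.fst_neg] at hzc ⊢
      linarith

/-! ## Common transversals of the small subfamilies -/

/-- The line `{z : ⟨u, z⟩ = c}` meets the polygon. -/
def hitOK (u : ℤ × ℤ) (c : ℤ) (A : List (ℤ × ℤ)) : Bool :=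
  (A.any fun p => decide (dotZ u p ≤ c)) && (A.any fun p => decide (c ≤ dotZ u p))

theorem hitOK_spec {u : ℤ × ℤ} {c : ℤ} {A : List (ℤ × ℤ)} (h : hitOK u c A = true) :
    ∃ z ∈ hull A, dotR (ptR u) z = (c : ℝ) := by
  simp only [hitOK, Bool.and_eq_true, List.any_eq_true, decide_eq_true_eq] at h
  obtain ⟨⟨p, hp, hpc⟩, ⟨q, hq, hqc⟩⟩ := h
  have h1 : dotR (ptR u) (ptR p) ≤ (c : ℝ) := by rw [dotR_pt]; exact_mod_cast hpc
  have h2 : (c : ℝ) ≤ dotR (ptR u) (ptR q) := by rw [dotR_pt]; exact_mod_cast hqc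
  obtain ⟨z, hz, hz2⟩ := (hull_convex A).isPreconnected.intermediate_value (mem_hull hp)
    (mem_hull hq) (dotR_continuous (ptR u)).continuousOn ⟨h1, h2⟩
  exact ⟨z, hz, hz2⟩

/-- A line `(u, c)` with the bit mask of polygons it meets. -/
def lineOK (P : List (List (ℤ × ℤ))) (L : (ℤ × ℤ) × ℤ × ℕ) : Bool :=
  (!(L.1.1 == 0 && L.1.2 == 0)) &&
  (List.range P.length).all fun i => (!(L.2.2.testBit i)) || hitOK L.1 L.2.1 (pol P i)

/-- Every `k`-element subset of `{i, …, n-1}` is contained in one of the masks. -/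
def cov (n : ℕ) : ℕ → List ℕ → ℕ → Bool
  | 0, M, _ => !M.isEmpty
  | k + 1, M, i => (List.range n).all fun j =>
      decide (j < i) || cov n k (M.filter fun m => m.testBit j) (j + 1)

theorem cov_spec (n : ℕ) : ∀ (k : ℕ) (M : List ℕ) (i : ℕ), cov n k M i = true →
    ∀ s : Finset ℕ, (∀ j ∈ s, i ≤ j ∧ j < n) → s.card = k → ∃ m ∈ M, ∀ j ∈ s, m.testBit j := by
  intro k
  induction k with
  | zero =>
    intro M i h s hs hcard
    simp only [cov, Bool.not_eq_true', List.isEmpty_eq_false_iff] at h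
    obtain ⟨m, hm⟩ := List.exists_mem_of_ne_nil M h
    rw [Finset.card_eq_zero] at hcard
    subst hcard
    exact ⟨m, hm, by simp⟩
  | succ k ih =>
    intro M i h s hs hcard
    have hne : s.Nonempty := by
      rw [← Finset.card_pos, hcard]; omega
    obtain ⟨hmin1, hmin2⟩ := hs _ (s.min'_mem hne)
    simp only [cov, List.all_eq_true, List.mem_range, Bool.or_eq_true, decide_eq_true_eq] at h
    rcases h _ hmin2 with h1 | h1
    · omega
    · have := ih _ _ h1 (s.erase (s.min' hne)) ?_ ?_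
      · obtain ⟨m, hm, hm2⟩ := this
        rw [List.mem_filter] at hm
        refine ⟨m, hm.1, fun j hj => ?_⟩
        by_cases hj2 : j = s.min' hne
        · rw [hj2]; exact hm.2
        · exact hm2 j (Finset.mem_erase.2 ⟨hj2, hj⟩)
      · intro j hj
        rw [Finset.mem_erase] at hj
        refine ⟨?_, (hs j hj.2).2⟩
        have := s.min'_le j hj.2
        have h3 := hj.1
        omega
      · rw [Finset.card_erase_of_mem (s.min'_mem hne), hcard]; rfl

/-- The certificate that every `k` of the polygons have a common line transversal. -/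
def tOK (P : List (List (ℤ × ℤ))) (k : ℕ) (L : List ((ℤ × ℤ) × ℤ × ℕ)) : Bool :=
  decide (k ≤ P.length) && (L.all fun x => lineOK P x) &&
    cov P.length k (L.map fun x => x.2.2) 0

theorem tOK_spec {P : List (List (ℤ × ℤ))} {k : ℕ} {L : List ((ℤ × ℤ) × ℤ × ℕ)}
    (h : tOK P k L = true) (I : Finset ℕ) (hI : ∀ i ∈ I, i < P.length) (hk : I.card ≤ k) :
    ∃ (u : ℤ × ℤ) (c : ℤ), ptR u ≠ 0 ∧ ∀ i ∈ I, ∃ z ∈ hull (pol P i), dotR (ptR u) z = (c : ℝ) := by
  simp only [tOK, Bool.and_eq_true, decide_eq_true_eq, List.all_eq_true] at h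
  obtain ⟨⟨hkn, hL⟩, hcov⟩ := h
  obtain ⟨J, hIJ, hJ, hJc⟩ : ∃ J : Finset ℕ, I ⊆ J ∧ J ⊆ Finset.range P.length ∧ J.card = k := by
    refine Finset.exists_subsuperset_card_eq (fun i hi => Finset.mem_range.2 (hI i hi)) hk ?_
    rw [Finset.card_range]; exact hkn
  obtain ⟨m, hm, hm2⟩ := cov_spec P.length k _ 0 hcov J
    (fun j hj => ⟨Nat.zero_le _, Finset.mem_range.1 (hJ hj)⟩) hJc
  rw [List.mem_map] at hm
  obtain ⟨⟨u, c, m'⟩, hx, rfl⟩ := hm
  have h1 := hL _ hx
  simp only [lineOK, Bool.and_eq_true, Bool.not_eq_true', List.all_eq_true, List.mem_range,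
    Bool.or_eq_true, Bool.and_eq_false_iff, beq_eq_false_iff_ne] at h1
  refine ⟨u, c, ?_, fun i hi => ?_⟩
  · intro h0
    have h01 : ((u.1 : ℝ)) = 0 := congrArg Prod.fst h0
    have h02 : ((u.2 : ℝ)) = 0 := congrArg Prod.snd h0
    have h01' : u.1 = 0 := by exact_mod_cast h01
    have h02' : u.2 = 0 := by exact_mod_cast h02
    rcases h1.1 with h2 | h2
    · exact h2 h01'
    · exact h2 h02'
  · have hb := hm2 i (hIJ hi)
    rcases h1.2 i (hI i hi) with h3 | h3
    · simp only at hb
      rw [h3] at hb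
      exact absurd hb (by simp)
    · exact hitOK_spec h3

/-! ## A faster check of common transversals, with masks of lines -/

/-- Every `k`-element subset of the list of masks has a common bit with `acc`. -/
def covR : List ℕ → ℕ → ℕ → Bool
  | _, 0, acc => !(Nat.beq acc 0)
  | [], _ + 1, _ => true
  | h :: tl, k + 1, acc => covR tl k (Nat.land acc h) && covR tl (k + 1) acc

theorem covR_spec : ∀ (H : List ℕ) (k acc : ℕ), covR H k acc = true →
    ∀ s : Finset ℕ, (∀ j ∈ s, j < H.length) → s.card = k →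
      ∃ b, acc.testBit b = true ∧ ∀ j ∈ s, (H.getD j 0).testBit b = true := by
  intro H
  induction H with
  | nil =>
    intro k acc h s hs hk
    have hs0 : s = ∅ := by
      rw [Finset.eq_empty_iff_forall_notMem]
      intro j hj
      exact absurd (hs j hj) (by simp)
    subst hs0
    rw [Finset.card_empty] at hk
    subst hk
    have hacc : acc ≠ 0 := by
      intro h0
      subst h0
      simp [covR] at h
    obtain ⟨b, hb⟩ := Nat.exists_testBit_of_ne_zero hacc
    exact ⟨b, hb, by simp⟩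
  | cons a tl ih =>
    intro k acc h s hs hk
    cases k with
    | zero =>
      rw [Finset.card_eq_zero] at hk
      subst hk
      have hacc : acc ≠ 0 := by
        intro h0
        subst h0
        simp [covR] at h
      obtain ⟨b, hb⟩ := Nat.exists_testBit_of_ne_zero hacc
      exact ⟨b, hb, by simp⟩
    | succ k =>
      simp only [covR, Bool.and_eq_true] at h
      by_cases h0 : 0 ∈ s
      · -- shift the rest
        let s' : Finset ℕ := (s.erase 0).image fun j => j - 1
        have hinj : Set.InjOn (fun j : ℕ => j - 1) (s.erase 0 : Set ℕ) := by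
          intro i hi j hj hij
          have hi' : i ≠ 0 := (Finset.mem_erase.1 (Finset.mem_coe.1 hi)).1
          have hj' : j ≠ 0 := (Finset.mem_erase.1 (Finset.mem_coe.1 hj)).1
          simp only at hij
          omega
        obtain ⟨b, hb, hb2⟩ := ih k (Nat.land acc a) h.1 s' (by
          intro j hj
          obtain ⟨i, hi, rfl⟩ := Finset.mem_image.1 hj
          rw [Finset.mem_erase] at hi
          have := hs i hi.2
          simp only [List.length_cons] at this
          omega) (by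
          rw [Finset.card_image_of_injOn hinj, Finset.card_erase_of_mem h0, hk]; rfl)
        have hb' : (acc &&& a).testBit b = true := hb
        rw [Nat.testBit_land, Bool.and_eq_true] at hb'
        refine ⟨b, hb'.1, fun j hj => ?_⟩
        rcases Nat.eq_zero_or_pos j with rfl | hj0
        · simpa using hb'.2
        · have := hb2 (j - 1) (Finset.mem_image.2 ⟨j, Finset.mem_erase.2 ⟨by omega, hj⟩, rfl⟩)
          obtain ⟨i, rfl⟩ : ∃ i, j = i + 1 := ⟨j - 1, by omega⟩
          simpa using this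
      · let s' : Finset ℕ := s.image fun j => j - 1
        have hne : ∀ j ∈ s, j ≠ 0 := fun j hj hj0 => h0 (hj0 ▸ hj)
        have hinj : Set.InjOn (fun j : ℕ => j - 1) (s : Set ℕ) := by
          intro i hi j hj hij
          have hi' := hne i (Finset.mem_coe.1 hi)
          have hj' := hne j (Finset.mem_coe.1 hj)
          simp only at hij
          omega
        obtain ⟨b, hb, hb2⟩ := ih (k + 1) acc h.2 s' (by
          intro j hj
          obtain ⟨i, hi, rfl⟩ := Finset.mem_image.1 hj
          have := hs i hi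
          have := hne i hi
          simp only [List.length_cons] at *
          omega) (by
          rw [Finset.card_image_of_injOn hinj, hk])
        refine ⟨b, hb, fun j hj => ?_⟩
        have := hb2 (j - 1) (Finset.mem_image.2 ⟨j, hj, rfl⟩)
        have hj0 := hne j hj
        obtain ⟨i, rfl⟩ : ∃ i, j = i + 1 := ⟨j - 1, by omega⟩
        simpa using this

/-- The set bits of `h` belong to lines of `L` that meet the polygon `A`. -/
def maskOK (A : List (ℤ × ℤ)) (h : ℕ) : ℕ → List ((ℤ × ℤ) × ℤ) → Bool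
  | _, [] => true
  | b, l :: tl => ((!(Nat.testBit h b)) || hitOK l.1 l.2 A) && maskOK A h (b + 1) tl

theorem maskOK_spec {A : List (ℤ × ℤ)} {h : ℕ} : ∀ (L : List ((ℤ × ℤ) × ℤ)) (b : ℕ),
    maskOK A h b L = true → ∀ i < L.length, Nat.testBit h (b + i) = true →
      hitOK (L.getD i ((0, 0), 0)).1 (L.getD i ((0, 0), 0)).2 A = true := by
  intro L
  induction L with
  | nil => intro b _ i hi; simp at hi
  | cons l tl ih =>
    intro b hm i hi hb
    simp only [maskOK, Bool.and_eq_true, Bool.or_eq_true, Bool.not_eq_true'] at hm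
    cases i with
    | zero =>
      rcases hm.1 with h1 | h1
      · rw [Nat.add_zero] at hb
        rw [h1] at hb; exact absurd hb (by simp)
      · simpa using h1
    | succ i =>
      have := ih (b + 1) hm.2 i (by simpa using hi) (by
        rw [show b + 1 + i = b + (i + 1) by ring]; exact hb)
      simpa using this

/-- All masks are right. -/
def masksOK (L : List ((ℤ × ℤ) × ℤ)) : List (List (ℤ × ℤ)) → List ℕ → Bool
  | [], [] => true
  | A :: P, h :: H => maskOK A h 0 L && masksOK L P H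
  | _, _ => false

theorem masksOK_spec {L : List ((ℤ × ℤ) × ℤ)} : ∀ (P : List (List (ℤ × ℤ))) (H : List ℕ),
    masksOK L P H = true → P.length = H.length ∧
      ∀ j < P.length, maskOK (pol P j) (H.getD j 0) 0 L = true := by
  intro P
  induction P with
  | nil =>
    intro H h
    cases H with
    | nil => exact ⟨rfl, by simp⟩
    | cons => simp [masksOK] at h
  | cons A P ih =>
    intro H h
    cases H with
    | nil => simp [masksOK] at h
    | cons a H =>
      simp only [masksOK, Bool.and_eq_true] at h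
      obtain ⟨h1, h2⟩ := ih H h.2
      refine ⟨by simp [h1], fun j hj => ?_⟩
      cases j with
      | zero => simpa [pol] using h.1
      | succ j =>
        have := h2 j (by simpa using hj)
        simpa [pol] using this

/-- The second form of the certificate that every `k` of the polygons have a common line
transversal: `H` has a mask of lines for each polygon. -/
def tOK' (P : List (List (ℤ × ℤ))) (k : ℕ) (L : List ((ℤ × ℤ) × ℤ)) (H : List ℕ) : Bool :=
  decide (k ≤ P.length) && (L.all fun x => !(x.1.1 == 0 && x.1.2 == 0)) &&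
    masksOK L P H && covR H k (2 ^ L.length - 1)

theorem tOK'_spec {P : List (List (ℤ × ℤ))} {k : ℕ} {L : List ((ℤ × ℤ) × ℤ)} {H : List ℕ}
    (h : tOK' P k L H = true) (I : Finset ℕ) (hI : ∀ i ∈ I, i < P.length) (hk : I.card ≤ k) :
    ∃ (u : ℤ × ℤ) (c : ℤ), ptR u ≠ 0 ∧ ∀ i ∈ I, ∃ z ∈ hull (pol P i), dotR (ptR u) z = (c : ℝ) := by
  simp only [tOK', Bool.and_eq_true, decide_eq_true_eq, List.all_eq_true] at h
  obtain ⟨⟨⟨hkn, hL⟩, hM⟩, hcov⟩ := h
  obtain ⟨hlen, hmask⟩ := masksOK_spec P H hM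
  obtain ⟨J, hIJ, hJ, hJc⟩ : ∃ J : Finset ℕ, I ⊆ J ∧ J ⊆ Finset.range P.length ∧ J.card = k := by
    refine Finset.exists_subsuperset_card_eq (fun i hi => Finset.mem_range.2 (hI i hi)) hk ?_
    rw [Finset.card_range]; exact hkn
  obtain ⟨b, hb, hb2⟩ := covR_spec H k _ hcov J
    (fun j hj => by rw [← hlen]; exact Finset.mem_range.1 (hJ hj)) hJc
  have hbL : b < L.length := by
    rw [Nat.testBit_two_pow_sub_one, decide_eq_true_eq] at hb
    exact hb
  have hmem : L.getD b ((0, 0), 0) ∈ L := by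
    rw [List.getD_eq_getElem _ _ hbL]
    exact List.getElem_mem hbL
  have h1 := hL _ hmem
  simp only [Bool.not_eq_true', Bool.and_eq_false_iff, beq_eq_false_iff_ne] at h1
  set x := L.getD b ((0, 0), 0) with hx
  refine ⟨x.1, x.2, ?_, fun i hi => ?_⟩
  · intro h0
    have h01 : ((x.1.1 : ℝ)) = 0 := congrArg Prod.fst h0
    have h02 : ((x.1.2 : ℝ)) = 0 := congrArg Prod.snd h0
    have h01' : x.1.1 = 0 := by exact_mod_cast h01
    have h02' : x.1.2 = 0 := by exact_mod_cast h02
    rcases h1 with h2 | h2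
    · exact h2 h01'
    · exact h2 h02'
  · have hb3 := hb2 i (hIJ hi)
    have h3 := maskOK_spec L 0 (hmask i (hI i hi)) b hbL (by rw [Nat.zero_add]; exact hb3)
    exact hitOK_spec h3

/-- The polygons are pairwise different: their support values in direction `u` are. -/
def distOK (P : List (List (ℤ × ℤ))) (u : ℤ × ℤ) : Bool :=
  (List.range P.length).all fun i => (List.range i).all fun j =>
    ((pol P i).any fun p => (pol P j).all fun q => decide (dotZ u q < dotZ u p)) ||
    ((pol P j).any fun p => (pol P i).all fun q => decide (dotZ u q < dotZ u p))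

theorem hull_ne {A B : List (ℤ × ℤ)} {u : ℤ × ℤ}
    (h : (A.any fun p => B.all fun q => decide (dotZ u q < dotZ u p)) = true) :
    hull A ≠ hull B := by
  simp only [List.any_eq_true, List.all_eq_true, decide_eq_true_eq] at h
  obtain ⟨p, hp, hq⟩ := h
  intro he
  have h1 : ptR p ∈ hull B := he ▸ mem_hull hp
  have h2 := hull_lt (l := B) (u := ptR u) (c := (dotZ u p : ℝ)) (fun q hqB => by
    rw [dotR_pt]; exact_mod_cast hq q hqB) _ h1
  rw [dotR_pt] at h2
  exact lt_irrefl _ h2

theorem distOK_spec {P : List (List (ℤ × ℤ))} {u : ℤ × ℤ} (h : distOK P u = true) :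
    ∀ i < P.length, ∀ j < P.length, hull (pol P i) = hull (pol P j) → i = j := by
  simp only [distOK, List.all_eq_true, List.mem_range, Bool.or_eq_true] at h
  intro i hi j hj he
  by_contra hne
  rcases lt_or_gt_of_ne hne with hlt | hlt
  · rcases h j hj i hlt with h1 | h1
    · exact hull_ne h1 he.symm
    · exact hull_ne h1 he
  · rcases h i hi j hlt with h1 | h1
    · exact hull_ne h1 he
    · exact hull_ne h1 he.symm

theorem trans_of_dot {G : Finset (Set Pt)} {u : Pt} {c : ℝ} (hu : u ≠ 0)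
    (h : ∀ A ∈ G, ∃ z ∈ A, dotR u z = c) : Trans G := by
  have hN : 0 < u.1 * u.1 + u.2 * u.2 := by
    rcases (add_nonneg (mul_self_nonneg u.1) (mul_self_nonneg u.2)).lt_or_eq with h1 | h1
    · exact h1
    · exfalso; apply hu
      have a1 : u.1 * u.1 = 0 := by nlinarith [mul_self_nonneg u.1, mul_self_nonneg u.2]
      have a2 : u.2 * u.2 = 0 := by nlinarith [mul_self_nonneg u.1, mul_self_nonneg u.2]
      ext
      · simpa using mul_self_eq_zero.1 a1
      · simpa using mul_self_eq_zero.1 a2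
  set N := u.1 * u.1 + u.2 * u.2 with hNdef
  refine ⟨(c / N * u.1, c / N * u.2), (-u.2, u.1), ?_, fun A hA => ?_⟩
  · intro h0
    apply hu
    have h1 := congrArg Prod.fst h0
    have h2 := congrArg Prod.snd h0
    simp only [Prod.fst_zero, neg_eq_zero, Prod.snd_zero] at h1 h2
    ext
    · exact h2
    · exact h1
  · obtain ⟨z, hz, hzc⟩ := h A hA
    refine ⟨(-u.2 * z.1 + u.1 * z.2) / N, ?_⟩
    have : (((c / N * u.1, c / N * u.2) : Pt) + ((-u.2 * z.1 + u.1 * z.2) / N) •
        ((-u.2, u.1) : Pt)) = z := by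
      simp only [dotR] at hzc
      ext
      · simp only [Prod.fst_add, Prod.smul_fst, smul_eq_mul]
        field_simp
        rw [← hzc, hNdef]; ring
      · simp only [Prod.snd_add, Prod.smul_snd, smul_eq_mul]
        field_simp
        rw [← hzc, hNdef]; ring
    rw [this]; exact hz

theorem dot_of_trans {G : Finset (Set Pt)} (h : Trans G) :
    ∃ (u : Pt) (c : ℝ), u ≠ 0 ∧ ∀ A ∈ G, ∃ z ∈ A, dotR u z = c := by
  obtain ⟨p, v, hv, h⟩ := h
  refine ⟨(-v.2, v.1), -v.2 * p.1 + v.1 * p.2, ?_, fun A hA => ?_⟩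
  · intro h0
    apply hv
    have h1 := congrArg Prod.fst h0
    have h2 := congrArg Prod.snd h0
    simp only [Prod.fst_zero, neg_eq_zero, Prod.snd_zero] at h1 h2
    ext
    · exact h2
    · exact h1
  · obtain ⟨t, ht⟩ := h A hA
    refine ⟨_, ht, ?_⟩
    simp only [dotR, Prod.fst_add, Prod.snd_add, Prod.smul_fst, Prod.smul_snd, smul_eq_mul]
    ring

/-- **Certificate theorem.** -/
theorem adm_le_of_cert_aux {P : List (List (ℤ × ℤ))} {k t : ℕ}
    {r u₀ : ℤ × ℤ} {S : List (List ℕ × (ℤ × ℤ))}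
    (hT : ∀ I : Finset ℕ, (∀ i ∈ I, i < P.length) → I.card ≤ k →
      ∃ (u : ℤ × ℤ) (c : ℤ), ptR u ≠ 0 ∧
        ∀ i ∈ I, ∃ z ∈ hull (pol P i), dotR (ptR u) z = (c : ℝ))
    (hC : capOK P t r S = true) (hD : distOK P u₀ = true) {ρ : ℝ} (h : Adm k ρ) :
    ρ * P.length ≤ t := by
  classical
  let K : ℕ → Set Pt := fun i => hull (pol P i)
  let F : Finset (Set Pt) := (Finset.range P.length).image K
  have hinj : Set.InjOn K (Finset.range P.length : Set ℕ) := by
    intro i hi j hj he
    exact distOK_spec hD i (Finset.mem_range.1 hi) j (Finset.mem_range.1 hj) he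
  have hcard : F.card = P.length := by
    rw [Finset.card_image_of_injOn hinj, Finset.card_range]
  have hidx : ∀ G ⊆ F, ∃ I : Finset ℕ, I ⊆ Finset.range P.length ∧ I.image K = G ∧
      I.card = G.card := by
    intro G hG
    refine ⟨(Finset.range P.length).filter fun i => K i ∈ G, Finset.filter_subset _ _, ?_, ?_⟩
    · ext A
      simp only [Finset.mem_image, Finset.mem_filter]
      constructor
      · rintro ⟨i, ⟨_, hi⟩, rfl⟩; exact hi
      · intro hA
        obtain ⟨i, hi, rfl⟩ := Finset.mem_image.1 (hG hA)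
        exact ⟨i, ⟨hi, hA⟩, rfl⟩
    · rw [← Finset.card_image_of_injOn (f := K) (hinj.mono (by
        intro i hi; exact Finset.mem_coe.2 (Finset.filter_subset _ _ hi)))]
      congr 1
      ext A
      simp only [Finset.mem_image, Finset.mem_filter]
      constructor
      · rintro ⟨i, ⟨_, hi⟩, rfl⟩; exact hi
      · intro hA
        obtain ⟨i, hi, rfl⟩ := Finset.mem_image.1 (hG hA)
        exact ⟨i, ⟨hi, hA⟩, rfl⟩
  have hF1 : ∀ A ∈ F, IsCompact A ∧ Convex ℝ A := by
    intro A hA
    obtain ⟨i, _, rfl⟩ := Finset.mem_image.1 hA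
    exact ⟨hull_compact _, hull_convex _⟩
  have hF2 : ∀ G ⊆ F, G.card ≤ k → Trans G := by
    intro G hG hGk
    obtain ⟨I, hI, hIG, hIc⟩ := hidx G hG
    obtain ⟨u, c, hu, hz⟩ := hT I (fun i hi => Finset.mem_range.1 (hI hi))
      (by rw [hIc]; exact hGk)
    refine trans_of_dot hu (c := (c : ℝ)) (fun A hA => ?_)
    rw [← hIG] at hA
    obtain ⟨i, hi, rfl⟩ := Finset.mem_image.1 hA
    exact hz i hi
  obtain ⟨G, hG, hGρ, hGT⟩ := h F hF1 hF2
  obtain ⟨I, hI, hIG, hIc⟩ := hidx G hG
  obtain ⟨u, c, hu, hz⟩ := dot_of_trans hGT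
  have hIt : I.card ≤ t := by
    refine cap_spec hC hu c I (fun i hi => Finset.mem_range.1 (hI hi)) (fun i hi => ?_)
    exact hz _ (hIG ▸ Finset.mem_image_of_mem K hi)
  rw [hcard] at hGρ
  rw [hIc] at hIt
  exact hGρ.trans (by exact_mod_cast hIt)

theorem adm_le_of_cert {P : List (List (ℤ × ℤ))} {k t : ℕ} {L : List ((ℤ × ℤ) × ℤ × ℕ)}
    {r u₀ : ℤ × ℤ} {S : List (List ℕ × (ℤ × ℤ))} (hT : tOK P k L = true)
    (hC : capOK P t r S = true) (hD : distOK P u₀ = true) {ρ : ℝ} (h : Adm k ρ) :
    ρ * P.length ≤ t :=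
  adm_le_of_cert_aux (tOK_spec hT) hC hD h

theorem adm_le_of_cert' {P : List (List (ℤ × ℤ))} {k t : ℕ} {L : List ((ℤ × ℤ) × ℤ)}
    {H : List ℕ} {r u₀ : ℤ × ℤ} {S : List (List ℕ × (ℤ × ℤ))} (hT : tOK' P k L H = true)
    (hC : capOK P t r S = true) (hD : distOK P u₀ = true) {ρ : ℝ} (h : Adm k ρ) :
    ρ * P.length ≤ t :=
  adm_le_of_cert_aux (tOK'_spec hT) hC hD h

end Pool.Agent.Lib_helper99.Transversal
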