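import Pool.Agent.Lib_helper99.Transversal.Cert

set_option autoImplicit false

namespace Pool.Agent.Lib_helper99.Transversal

/-! # A faster form of the certificate that no line meets many polygons -/

/-- Consecutive members of the list `i :: l` are separated in the directions `r` and `s`. -/
def chainFrom (P : List (List (ℤ × ℤ))) (r s : ℤ × ℤ) : ℕ → List ℕ → Bool
  | _, [] => true
  | i, j :: tl => sepDir r (pol P i) (pol P j) && sepDir s (pol P i) (pol P j) &&
      chainFrom P r s j tl

def chainOK (P : List (List (ℤ × ℤ))) (r s : ℤ × ℤ) : List ℕ → Bool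
  | [] => true
  | i :: tl => chainFrom P r s i tl

/-- The set of members of a list, as a bit mask. -/
def bits : List ℕ → ℕ
  | [] => 0
  | i :: tl => Nat.lor (2 ^ i) (bits tl)

theorem bits_spec : ∀ (l : List ℕ) (i : ℕ), (bits l).testBit i = true → i ∈ l := by
  intro l
  induction l with
  | nil => intro i h; simp [bits] at h
  | cons a tl ih =>
    intro i h
    have h' : ((2 ^ a) ||| (bits tl)).testBit i = true := h
    rw [Nat.testBit_lor, Bool.or_eq_true, Nat.testBit_two_pow, decide_eq_true_eq] at h'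
    rcases h' with h1 | h1
    · rw [h1]; exact List.mem_cons_self
    · exact List.mem_cons_of_mem _ (ih i h1)

/-- In the cone spanned by `r` and `s`, the polygons are covered by `t` chains of separated
polygons. -/
def secOK' (P : List (List (ℤ × ℤ))) (t : ℕ) (r s : ℤ × ℤ) (cs : List (List ℕ)) : Bool :=
  decide (0 < r.1 * s.2 - r.2 * s.1) && decide (cs.length ≤ t) &&
    Nat.beq (bits cs.flatten) (2 ^ P.length - 1) && cs.all (chainOK P r s)

def chk' (P : List (List (ℤ × ℤ))) (t : ℕ) (e : ℤ × ℤ) :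
    ℤ × ℤ → List (List (List ℕ) × (ℤ × ℤ)) → Bool
  | r, [] => r == e
  | r, (cs, s) :: tl => secOK' P t r s cs && chk' P t e s tl

theorem chk'_find {P : List (List (ℤ × ℤ))} {t : ℕ} {e : ℤ × ℤ} {u : Pt}
    (he : crossR e u ≤ 0) :
    ∀ (l : List (List (List ℕ) × (ℤ × ℤ))) (r : ℤ × ℤ), chk' P t e r l = true → 0 < crossR r u →
      ∃ r' s' cs, secOK' P t r' s' cs = true ∧ 0 ≤ crossR r' u ∧ crossR s' u ≤ 0 := by
  intro l
  induction l with
  | nil =>
    intro r h hr
    simp only [chk', beq_iff_eq] at h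
    rw [h] at hr
    exact absurd hr (not_lt.2 he)
  | cons a tl ih =>
    intro r h hr
    obtain ⟨cs, s⟩ := a
    simp only [chk', Bool.and_eq_true] at h
    rcases le_or_gt (crossR s u) 0 with hs | hs
    · exact ⟨r, s, cs, h.1, hr.le, hs⟩
    · exact ih s h.2 hs

theorem chain_lt {P : List (List (ℤ × ℤ))} (hne : ∀ i < P.length, (hull (pol P i)).Nonempty)
    {r s : ℤ × ℤ} {u : Pt} {α β : ℝ} (hα : 0 ≤ α) (hβ : 0 ≤ β) (hαβ : 0 < α ∨ 0 < β)
    (hdec : ∀ x : Pt, dotR u x = α * dotR (ptR r) x + β * dotR (ptR s) x) :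
    ∀ (l : List ℕ) (i : ℕ), (∀ j ∈ l, j < P.length) → chainFrom P r s i l = true →
      ∀ j ∈ l, ∀ x ∈ hull (pol P i), ∀ y ∈ hull (pol P j), dotR u x < dotR u y := by
  intro l
  induction l with
  | nil => intro i _ _ j hj; simp at hj
  | cons a tl ih =>
    intro i hlen h j hj x hx y hy
    simp only [chainFrom, Bool.and_eq_true] at h
    have hstep : ∀ x ∈ hull (pol P i), ∀ y ∈ hull (pol P a), dotR u x < dotR u y := by
      intro x hx y hy
      have a1 := sepDir_spec h.1.1 x hx y hy
      have a2 := sepDir_spec h.1.2 x hx y hy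
      rw [hdec, hdec]
      rcases hαβ with h0 | h0 <;> nlinarith
    rcases List.mem_cons.1 hj with rfl | hj'
    · exact hstep x hx y hy
    · obtain ⟨z, hz⟩ := hne a (hlen a List.mem_cons_self)
      exact (hstep x hx z hz).trans
        (ih a (fun m hm => hlen m (List.mem_cons_of_mem _ hm)) h.2 j hj' z hz y hy)

theorem chain_card {P : List (List (ℤ × ℤ))} (hne : ∀ i < P.length, (hull (pol P i)).Nonempty)
    {r s : ℤ × ℤ} {u : Pt} {α β : ℝ} (hα : 0 ≤ α) (hβ : 0 ≤ β) (hαβ : 0 < α ∨ 0 < β)
    (hdec : ∀ x : Pt, dotR u x = α * dotR (ptR r) x + β * dotR (ptR s) x) (c : ℝ)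
    (I : Finset ℕ) (hit : ∀ i ∈ I, ∃ z ∈ hull (pol P i), dotR u z = c) :
    ∀ (l : List ℕ), (∀ j ∈ l, j < P.length) → chainOK P r s l = true →
      (I.filter fun i => i ∈ l).card ≤ 1 := by
  intro l
  induction l with
  | nil => intro _ _; simp
  | cons a tl ih =>
    intro hlen h
    simp only [chainOK] at h
    by_cases ha : a ∈ I
    · rw [Finset.card_le_one]
      have key : ∀ j ∈ I, j ∈ tl → False := by
        intro j hj hjt
        obtain ⟨z, hz, hzc⟩ := hit a ha
        obtain ⟨w, hw, hwc⟩ := hit j hj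
        have := chain_lt hne hα hβ hαβ hdec tl a
          (fun m hm => hlen m (List.mem_cons_of_mem _ hm)) h j hjt z hz w hw
        rw [hzc, hwc] at this
        exact lt_irrefl _ this
      intro i hi j hj
      rw [Finset.mem_filter, List.mem_cons] at hi hj
      rcases hi.2 with h1 | h1
      · rcases hj.2 with h2 | h2
        · rw [h1, h2]
        · exact (key j hj.1 h2).elim
      · exact (key i hi.1 h1).elim
    · have h2 : chainOK P r s tl = true := by
        cases tl with
        | nil => rfl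
        | cons b tl' =>
          simp only [chainFrom, Bool.and_eq_true] at h
          exact h.2
      refine le_trans (Finset.card_le_card ?_)
        (ih (fun m hm => hlen m (List.mem_cons_of_mem _ hm)) h2)
      intro i hi
      rw [Finset.mem_filter, List.mem_cons] at hi
      rw [Finset.mem_filter]
      rcases hi.2 with h1 | h1
      · exact absurd (h1 ▸ hi.1) ha
      · exact ⟨hi.1, h1⟩

theorem cover_card (I : Finset ℕ) : ∀ (cs : List (List ℕ)),
    (∀ c ∈ cs, (I.filter fun i => i ∈ c).card ≤ 1) →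
    (I.filter fun i => i ∈ cs.flatten).card ≤ cs.length := by
  intro cs
  induction cs with
  | nil => intro _; simp
  | cons a tl ih =>
    intro h
    have h1 := h a List.mem_cons_self
    have h2 := ih fun c hc => h c (List.mem_cons_of_mem _ hc)
    calc (I.filter fun i => i ∈ (a :: tl).flatten).card
        ≤ ((I.filter fun i => i ∈ a) ∪ (I.filter fun i => i ∈ tl.flatten)).card := by
          refine Finset.card_le_card ?_
          intro i hi
          rw [Finset.mem_filter, List.flatten_cons, List.mem_append] at hi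
          rw [Finset.mem_union, Finset.mem_filter, Finset.mem_filter]
          tauto
      _ ≤ (I.filter fun i => i ∈ a).card + (I.filter fun i => i ∈ tl.flatten).card :=
          Finset.card_union_le _ _
      _ ≤ (a :: tl).length := by simp only [List.length_cons]; omega

theorem sec_card' {P : List (List (ℤ × ℤ))} (hne : ∀ i < P.length, (hull (pol P i)).Nonempty)
    {t : ℕ} {r s : ℤ × ℤ} {cs : List (List ℕ)}
    (h : secOK' P t r s cs = true) (hb : ∀ i ∈ cs.flatten, i < P.length) {u : Pt} (hu : u ≠ 0)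
    (h1 : 0 ≤ crossR r u) (h2 : crossR s u ≤ 0) (c : ℝ) (I : Finset ℕ)
    (hI : ∀ i ∈ I, i < P.length)
    (hit : ∀ i ∈ I, ∃ z ∈ hull (pol P i), dotR u z = c) : I.card ≤ t := by
  simp only [secOK', Bool.and_eq_true, decide_eq_true_eq, List.all_eq_true] at h
  obtain ⟨⟨⟨hD, hlen⟩, hcov⟩, hc⟩ := h
  obtain ⟨α, β, hα, hβ, hαβ, hdec⟩ := cone_decomp hD hu h1 h2
  have hcov' : bits cs.flatten = 2 ^ P.length - 1 := Nat.eq_of_beq_eq_true hcov
  have hall : I.filter (fun i => i ∈ cs.flatten) = I := by
    refine Finset.filter_true_of_mem fun i hi => bits_spec _ _ ?_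
    rw [hcov', Nat.testBit_two_pow_sub_one, decide_eq_true_eq]
    exact hI i hi
  have := cover_card I cs fun ch hch => chain_card hne hα hβ hαβ hdec c I hit ch
    (fun j hj => hb j (List.mem_flatten.2 ⟨ch, hch, hj⟩)) (hc ch hch)
  rw [hall] at this
  omega

/-- All indices that occur are below the number of polygons. -/
def idxOK (n : ℕ) (l : List (List (List ℕ) × (ℤ × ℤ))) : Bool :=
  l.all fun x => x.1.all fun c => c.all fun i => Nat.blt i n

/-- The certificate that no line meets more than `t` of the polygons. -/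
def capOK' (P : List (List (ℤ × ℤ))) (t : ℕ) (r : ℤ × ℤ)
    (l : List (List (List ℕ) × (ℤ × ℤ))) : Bool :=
  (P.all fun A => !A.isEmpty) && idxOK P.length l &&
  match l with
  | [] => false
  | (cs, s) :: tl => secOK' P t r s cs && chk' P t (-r.1, -r.2) s tl

theorem chk'_find' {P : List (List (ℤ × ℤ))} {t : ℕ} {e : ℤ × ℤ} {u : Pt}
    (he : crossR e u ≤ 0) :
    ∀ (l : List (List (List ℕ) × (ℤ × ℤ))) (r : ℤ × ℤ), chk' P t e r l = true → 0 < crossR r u →
      idxOK P.length l = true →
      ∃ r' s' cs, secOK' P t r' s' cs = true ∧ (∀ i ∈ cs.flatten, i < P.length) ∧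
        0 ≤ crossR r' u ∧ crossR s' u ≤ 0 := by
  intro l
  induction l with
  | nil =>
    intro r h hr _
    simp only [chk', beq_iff_eq] at h
    rw [h] at hr
    exact absurd hr (not_lt.2 he)
  | cons a tl ih =>
    intro r h hr hidx
    obtain ⟨cs, s⟩ := a
    simp only [chk', Bool.and_eq_true] at h
    simp only [idxOK, List.all_cons, Bool.and_eq_true] at hidx
    rcases le_or_gt (crossR s u) 0 with hs | hs
    · refine ⟨r, s, cs, h.1, ?_, hr.le, hs⟩
      intro i hi
      obtain ⟨c, hc, hic⟩ := List.mem_flatten.1 hi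
      have := List.all_eq_true.1 (List.all_eq_true.1 hidx.1 c hc) i hic
      simpa using this
    · exact ih s h.2 hs hidx.2

theorem cap_spec' {P : List (List (ℤ × ℤ))} {t : ℕ} {r : ℤ × ℤ}
    {l : List (List (List ℕ) × (ℤ × ℤ))} (h : capOK' P t r l = true) {u : Pt} (hu : u ≠ 0)
    (c : ℝ) (I : Finset ℕ) (hI : ∀ i ∈ I, i < P.length)
    (hit : ∀ i ∈ I, ∃ z ∈ hull (pol P i), dotR u z = c) : I.card ≤ t := by
  simp only [capOK', Bool.and_eq_true] at h
  obtain ⟨⟨hP, hidx⟩, h⟩ := h
  have hne : ∀ i < P.length, (hull (pol P i)).Nonempty := by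
    intro i hi
    have hmem : pol P i ∈ P := by
      unfold pol
      rw [List.getD_eq_getElem _ _ hi]
      exact List.getElem_mem hi
    have h1 := List.all_eq_true.1 hP _ hmem
    simp only [Bool.not_eq_true', List.isEmpty_eq_false_iff] at h1
    obtain ⟨p, hp⟩ := List.exists_mem_of_ne_nil _ h1
    exact ⟨_, mem_hull hp⟩
  have main : ∀ (u : Pt) (c : ℝ), u ≠ 0 → 0 ≤ crossR r u →
      (∀ i ∈ I, ∃ z ∈ hull (pol P i), dotR u z = c) → I.card ≤ t := by
    intro u c hu hru hit
    cases l with
    | nil => simp at h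
    | cons a tl =>
      obtain ⟨cs, s⟩ := a
      simp only [Bool.and_eq_true] at h
      simp only [idxOK, List.all_cons, Bool.and_eq_true] at hidx
      rcases le_or_gt (crossR s u) 0 with hs | hs
      · refine sec_card' hne h.1 ?_ hu hru hs c I hI hit
        intro i hi
        obtain ⟨c, hc, hic⟩ := List.mem_flatten.1 hi
        have := List.all_eq_true.1 (List.all_eq_true.1 hidx.1 c hc) i hic
        simpa using this
      · have he : crossR (-r.1, -r.2) u ≤ 0 := by
          simp only [crossR] at hru ⊢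
          push_cast
          linarith
        obtain ⟨r', s', cs', h3, h3', h4, h5⟩ := chk'_find' he tl s h.2 hs hidx.2
        exact sec_card' hne h3 h3' hu h4 h5 c I hI hit
  rcases le_or_gt 0 (crossR r u) with h0 | h0
  · exact main u c hu h0 hit
  · refine main (-u) (-c) (neg_ne_zero.2 hu) ?_ ?_
    · simp only [crossR, Prod.snd_neg, Prod.fst_neg] at h0 ⊢
      linarith
    · intro i hi
      obtain ⟨z, hz, hzc⟩ := hit i hi
      refine ⟨z, hz, ?_⟩
      simp only [dotR, Prod.snd_neg, Prod.fst_neg] at hzc ⊢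
      linarith

/-- The list has no repetitions. -/
def allNe : List ℤ → Bool
  | [] => true
  | a :: tl => (tl.all fun b => !(decide (a = b))) && allNe tl

/-- `V` lists the maxima of `⟨u, ·⟩` over the polygons. -/
def maxOK (u : ℤ × ℤ) : List (List (ℤ × ℤ)) → List ℤ → Bool
  | [], [] => true
  | A :: P, v :: V => (A.all fun p => decide (dotZ u p ≤ v)) &&
      (A.any fun p => decide (dotZ u p = v)) && maxOK u P V
  | _, _ => false

theorem allNe_spec : ∀ (V : List ℤ), allNe V = true → ∀ i < V.length, ∀ j < V.length,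
    V.getD i 0 = V.getD j 0 → i = j := by
  intro V
  induction V with
  | nil => intro _ i hi; simp at hi
  | cons a tl ih =>
    intro h i hi j hj hij
    simp only [allNe, Bool.and_eq_true, List.all_eq_true, Bool.not_eq_true',
      decide_eq_false_iff_not] at h
    have hmem : ∀ m, m < tl.length → tl.getD m 0 ∈ tl := by
      intro m hm
      rw [List.getD_eq_getElem _ _ hm]
      exact List.getElem_mem hm
    cases i with
    | zero =>
      cases j with
      | zero => rfl
      | succ j =>
        exact absurd (by simpa using hij) (h.1 _ (hmem j (by simpa using hj)))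
    | succ i =>
      cases j with
      | zero =>
        exact absurd (by simpa using hij.symm) (h.1 _ (hmem i (by simpa using hi)))
      | succ j =>
        rw [ih h.2 i (by simpa using hi) j (by simpa using hj) (by simpa using hij)]

theorem maxOK_spec {u : ℤ × ℤ} : ∀ (P : List (List (ℤ × ℤ))) (V : List ℤ), maxOK u P V = true →
    P.length = V.length ∧ ∀ i < P.length, (∀ p ∈ pol P i, dotZ u p ≤ V.getD i 0) ∧
      ∃ p ∈ pol P i, dotZ u p = V.getD i 0 := by
  intro P
  induction P with
  | nil =>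
    intro V h
    cases V with
    | nil => exact ⟨rfl, by simp⟩
    | cons => simp [maxOK] at h
  | cons A P ih =>
    intro V h
    cases V with
    | nil => simp [maxOK] at h
    | cons v V =>
      simp only [maxOK, Bool.and_eq_true, List.all_eq_true, List.any_eq_true,
        decide_eq_true_eq] at h
      obtain ⟨h1, h2⟩ := ih V h.2
      refine ⟨by simp [h1], fun i hi => ?_⟩
      cases i with
      | zero => exact ⟨by simpa [pol] using h.1.1, by simpa [pol] using h.1.2⟩
      | succ i =>
        have := h2 i (by simpa using hi)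
        simpa [pol] using this

/-- The polygons are pairwise different. -/
def distOK' (P : List (List (ℤ × ℤ))) (u : ℤ × ℤ) (V : List ℤ) : Bool := maxOK u P V && allNe V

theorem hull_le {l : List (ℤ × ℤ)} {u : Pt} {c : ℝ} (h : ∀ p ∈ l, dotR u (ptR p) ≤ c) :
    ∀ x ∈ hull l, dotR u x ≤ c := by
  intro x hx
  have h1 : {x : Pt | ∃ p ∈ l, ptR p = x} ⊆ {x | dotR u x ≤ c} := by
    rintro _ ⟨p, hp, rfl⟩; exact h p hp
  exact convexHull_min h1 (convex_halfSpace_le (dotR_isLinear u) c) hx

theorem distOK'_spec {P : List (List (ℤ × ℤ))} {u : ℤ × ℤ} {V : List ℤ}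
    (h : distOK' P u V = true) :
    ∀ i < P.length, ∀ j < P.length, hull (pol P i) = hull (pol P j) → i = j := by
  simp only [distOK', Bool.and_eq_true] at h
  obtain ⟨hlen, hmax⟩ := maxOK_spec P V h.1
  have key : ∀ i < P.length, ∀ j < P.length, hull (pol P i) = hull (pol P j) →
      V.getD i 0 ≤ V.getD j 0 := by
    intro i hi j hj he
    obtain ⟨p, hp, hpv⟩ := (hmax i hi).2
    have h1 : ptR p ∈ hull (pol P j) := he ▸ mem_hull hp
    have h2 := hull_le (l := pol P j) (u := ptR u) (c := ((V.getD j 0 : ℤ) : ℝ)) (fun q hq => by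
      rw [dotR_pt]; exact_mod_cast (hmax j hj).1 q hq) _ h1
    rw [dotR_pt, hpv] at h2
    exact_mod_cast h2
  intro i hi j hj he
  exact allNe_spec V h.2 i (by rw [← hlen]; exact hi) j (by rw [← hlen]; exact hj)
    (le_antisymm (key i hi j hj he) (key j hj i hi he.symm))

/-- **Certificate theorem**, general form. -/
theorem adm_le_of_data {P : List (List (ℤ × ℤ))} {k t : ℕ}
    (hT : ∀ I : Finset ℕ, (∀ i ∈ I, i < P.length) → I.card ≤ k →
      ∃ (u : ℤ × ℤ) (c : ℤ), ptR u ≠ 0 ∧
        ∀ i ∈ I, ∃ z ∈ hull (pol P i), dotR (ptR u) z = (c : ℝ))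
    (hC : ∀ (u : Pt), u ≠ 0 → ∀ (c : ℝ) (I : Finset ℕ), (∀ i ∈ I, i < P.length) →
      (∀ i ∈ I, ∃ z ∈ hull (pol P i), dotR u z = c) → I.card ≤ t)
    (hD : ∀ i < P.length, ∀ j < P.length, hull (pol P i) = hull (pol P j) → i = j)
    {ρ : ℝ} (h : Adm k ρ) : ρ * P.length ≤ t := by
  classical
  let K : ℕ → Set Pt := fun i => hull (pol P i)
  let F : Finset (Set Pt) := (Finset.range P.length).image K
  have hinj : Set.InjOn K (Finset.range P.length : Set ℕ) := by
    intro i hi j hj he
    exact hD i (Finset.mem_range.1 hi) j (Finset.mem_range.1 hj) he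
  have hcard : F.card = P.length := by
    rw [Finset.card_image_of_injOn hinj, Finset.card_range]
  have hidx : ∀ G ⊆ F, ∃ I : Finset ℕ, I ⊆ Finset.range P.length ∧ I.image K = G ∧
      I.card = G.card := by
    intro G hG
    have himg : ((Finset.range P.length).filter fun i => K i ∈ G).image K = G := by
      ext A
      simp only [Finset.mem_image, Finset.mem_filter]
      constructor
      · rintro ⟨i, ⟨_, hi⟩, rfl⟩; exact hi
      · intro hA
        obtain ⟨i, hi, rfl⟩ := Finset.mem_image.1 (hG hA)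
        exact ⟨i, ⟨hi, hA⟩, rfl⟩
    refine ⟨(Finset.range P.length).filter fun i => K i ∈ G, Finset.filter_subset _ _, himg, ?_⟩
    rw [← Finset.card_image_of_injOn (f := K) (hinj.mono (by
      intro i hi; exact Finset.mem_coe.2 (Finset.filter_subset _ _ hi))), himg]
  have hF1 : ∀ A ∈ F, IsCompact A ∧ Convex ℝ A := by
    intro A hA
    obtain ⟨i, _, rfl⟩ := Finset.mem_image.1 hA
    exact ⟨hull_compact _, hull_convex _⟩
  have hF2 : ∀ G ⊆ F, G.card ≤ k → Trans G := by
    intro G hG hGk
    obtain ⟨I, hI, hIG, hIc⟩ := hidx G hG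
    obtain ⟨u, c, hu, hz⟩ := hT I (fun i hi => Finset.mem_range.1 (hI hi))
      (by rw [hIc]; exact hGk)
    refine trans_of_dot hu (c := (c : ℝ)) (fun A hA => ?_)
    rw [← hIG] at hA
    obtain ⟨i, hi, rfl⟩ := Finset.mem_image.1 hA
    exact hz i hi
  obtain ⟨G, hG, hGρ, hGT⟩ := h F hF1 hF2
  obtain ⟨I, hI, hIG, hIc⟩ := hidx G hG
  obtain ⟨u, c, hu, hz⟩ := dot_of_trans hGT
  have hIt : I.card ≤ t := by
    refine hC u hu c I (fun i hi => Finset.mem_range.1 (hI hi)) (fun i hi => ?_)
    exact hz _ (hIG ▸ Finset.mem_image_of_mem K hi)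
  rw [hcard] at hGρ
  rw [hIc] at hIt
  exact hGρ.trans (by exact_mod_cast hIt)

theorem adm_le_of_certB {P : List (List (ℤ × ℤ))} {k t : ℕ} {L : List ((ℤ × ℤ) × ℤ)}
    {H : List ℕ} {r u₀ : ℤ × ℤ} {V : List ℤ} {S : List (List (List ℕ) × (ℤ × ℤ))}
    (hT : tOK' P k L H = true) (hC : capOK' P t r S = true) (hD : distOK' P u₀ V = true)
    {ρ : ℝ} (h : Adm k ρ) : ρ * P.length ≤ t :=
  adm_le_of_data (tOK'_spec hT) (fun _ hu c I hI hit => cap_spec' hC hu c I hI hit)
    (distOK'_spec hD) h

end Pool.Agent.Lib_helper99.Transversal
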