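import Pool.Agent.Lib_helper99.Transversal.Decode

set_option autoImplicit false

namespace Pool.Agent.Lib_helper99.Transversal

/-! # A faster check that all small subfamilies have common transversals

The masks `H a &&& H b` of all pairs are packed into one number, and they are tested at once
against the mask of a `(k - 2)`-element subset. -/

/-- Blocks of `w` bits. -/
def pack (w : ℕ) : List ℕ → ℕ
  | [] => 0
  | b :: tl => b + 2 ^ w * pack w tl

/-- `1` in every block. -/
def onesB (w : ℕ) : List ℕ → ℕ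
  | [] => 0
  | _ :: tl => 1 + 2 ^ w * onesB w tl

/-- All blocks of `X` (blocks of `m + 1` bits, the top bits are zero) have a common bit with
`acc`. -/
def testB (m X O acc : ℕ) : Bool :=
  Nat.beq (Nat.land (Nat.land X (acc * O) + (2 ^ m - 1) * O) (2 ^ m * O)) (2 ^ m * O)

theorem land_split {w a b x y : ℕ} (ha : a < 2 ^ w) (hb : b < 2 ^ w) :
    Nat.land (a + 2 ^ w * x) (b + 2 ^ w * y) = Nat.land a b + 2 ^ w * Nat.land x y := by
  change (a + 2 ^ w * x) &&& (b + 2 ^ w * y) = (a &&& b) + 2 ^ w * (x &&& y)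
  have h1 : ((a + 2 ^ w * x) &&& (b + 2 ^ w * y)) % 2 ^ w = a &&& b := by
    rw [Nat.and_mod_two_pow, Nat.add_mul_mod_self_left, Nat.add_mul_mod_self_left,
      Nat.mod_eq_of_lt ha, Nat.mod_eq_of_lt hb]
  have h2 : ((a + 2 ^ w * x) &&& (b + 2 ^ w * y)) / 2 ^ w = x &&& y := by
    rw [Nat.and_div_two_pow, Nat.add_mul_div_left _ _ (by positivity),
      Nat.add_mul_div_left _ _ (by positivity), Nat.div_eq_of_lt ha, Nat.div_eq_of_lt hb,
      Nat.zero_add, Nat.zero_add]
  rw [← h1, ← h2]
  exact (Nat.mod_add_div _ _).symm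

theorem testB_spec (m : ℕ) : ∀ (B : List ℕ) (acc : ℕ), (∀ b ∈ B, b < 2 ^ m) →
    acc < 2 ^ m → testB m (pack (m + 1) B) (onesB (m + 1) B) acc = true →
    ∀ b ∈ B, Nat.land b acc ≠ 0 := by
  intro B
  induction B with
  | nil => intro acc _ _ _ b hb; simp at hb
  | cons a tl ih =>
    intro acc hB hacc h
    have h' := Nat.eq_of_beq_eq_true h
    have hp : (0 : ℕ) < 2 ^ m := by positivity
    have hw : 2 ^ (m + 1) = 2 * 2 ^ m := by rw [pow_succ]; ring
    have ha : a < 2 ^ m := hB a List.mem_cons_self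
    have hland : Nat.land a acc < 2 ^ m := lt_of_le_of_lt (Nat.and_le_left (n := a) (m := acc)) ha
    simp only [pack, onesB] at h'
    rw [show acc * (1 + 2 ^ (m + 1) * onesB (m + 1) tl) =
        acc + 2 ^ (m + 1) * (acc * onesB (m + 1) tl) by ring,
      land_split (by omega) (by omega),
      show Nat.land a acc + 2 ^ (m + 1) * Nat.land (pack (m + 1) tl) (acc * onesB (m + 1) tl) +
          (2 ^ m - 1) * (1 + 2 ^ (m + 1) * onesB (m + 1) tl) =
        (Nat.land a acc + (2 ^ m - 1)) + 2 ^ (m + 1) *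
          (Nat.land (pack (m + 1) tl) (acc * onesB (m + 1) tl) +
            (2 ^ m - 1) * onesB (m + 1) tl) by ring,
      show 2 ^ m * (1 + 2 ^ (m + 1) * onesB (m + 1) tl) =
        2 ^ m + 2 ^ (m + 1) * (2 ^ m * onesB (m + 1) tl) by ring,
      land_split (by omega) (by omega)] at h'
    -- compare low and high parts
    have hlow : Nat.land (Nat.land a acc + (2 ^ m - 1)) (2 ^ m) = 2 ^ m := by
      have h1 := congrArg (· % 2 ^ (m + 1)) h'
      simp only [Nat.add_mul_mod_self_left] at h1
      rw [Nat.mod_eq_of_lt, Nat.mod_eq_of_lt] at h1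
      · exact h1
      · omega
      · refine lt_of_le_of_lt (Nat.and_le_right (n := Nat.land a acc + (2 ^ m - 1))
          (m := 2 ^ m)) (by omega)
    have hhigh : Nat.land (Nat.land (pack (m + 1) tl) (acc * onesB (m + 1) tl) +
        (2 ^ m - 1) * onesB (m + 1) tl) (2 ^ m * onesB (m + 1) tl) =
        2 ^ m * onesB (m + 1) tl := by
      rw [hlow] at h'
      have h2 := Nat.add_left_cancel h'
      exact Nat.eq_of_mul_eq_mul_left (by positivity) h2
    intro b hb
    rcases List.mem_cons.1 hb with rfl | hb'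
    · intro h0
      rw [h0, Nat.zero_add] at hlow
      have h3 : (2 ^ m - 1) &&& 2 ^ m = 2 ^ m := hlow
      have h4 : (2 ^ m - 1) &&& 2 ^ m ≤ 2 ^ m - 1 := Nat.and_le_left
      omega
    · refine ih acc (fun c hc => hB c (List.mem_cons_of_mem _ hc)) hacc ?_ b hb'
      unfold testB
      rw [hhigh]
      exact Nat.beq_refl _

/-- The masks of all pairs. -/
def prsL : List ℕ → List ℕ
  | [] => []
  | h :: tl => tl.map (fun b => Nat.land h b) ++ prsL tl

theorem mem_prsL : ∀ (H : List ℕ) (i j : ℕ), i < j → j < H.length →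
    Nat.land (H.getD i 0) (H.getD j 0) ∈ prsL H := by
  intro H
  induction H with
  | nil => intro i j _ hj; simp at hj
  | cons a tl ih =>
    intro i j hij hj
    obtain ⟨j, rfl⟩ : ∃ j', j = j' + 1 := ⟨j - 1, by omega⟩
    have hj' : j < tl.length := by simpa using hj
    cases i with
    | zero =>
      simp only [prsL, List.getD_cons_zero, List.getD_cons_succ]
      refine List.mem_append_left _ (List.mem_map.2 ⟨tl.getD j 0, ?_, rfl⟩)
      rw [List.getD_eq_getElem _ _ hj']
      exact List.getElem_mem hj'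
    | succ i =>
      simp only [prsL, List.getD_cons_succ]
      exact List.mem_append_right _ (ih i j (by omega) hj')

theorem prsL_lt {m : ℕ} : ∀ (H : List ℕ), (∀ h ∈ H, h < 2 ^ m) → ∀ b ∈ prsL H, b < 2 ^ m := by
  intro H
  induction H with
  | nil => intro _ b hb; simp [prsL] at hb
  | cons a tl ih =>
    intro h b hb
    simp only [prsL, List.mem_append, List.mem_map] at hb
    rcases hb with ⟨c, _, rfl⟩ | hb
    · exact lt_of_le_of_lt (Nat.and_le_left (n := a) (m := c)) (h a List.mem_cons_self)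
    · exact ih (fun c hc => h c (List.mem_cons_of_mem _ hc)) b hb

def covP (m X O : ℕ) : List ℕ → ℕ → ℕ → Bool
  | _, 0, acc => testB m X O acc
  | [], _ + 1, _ => true
  | h :: tl, k + 1, acc => covP m X O tl k (Nat.land acc h) && covP m X O tl (k + 1) acc

theorem covP_spec (m X O : ℕ) : ∀ (H : List ℕ) (k acc : ℕ), covP m X O H k acc = true →
    ∀ s : Finset ℕ, (∀ j ∈ s, j < H.length) → s.card = k →
      ∃ acc', testB m X O acc' = true ∧ acc' ≤ acc ∧
        ∀ b, acc'.testBit b = true → acc.testBit b = true ∧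
          ∀ j ∈ s, (H.getD j 0).testBit b = true := by
  intro H
  induction H with
  | nil =>
    intro k acc h s hs hk
    have hs0 : s = ∅ := by
      rw [Finset.eq_empty_iff_forall_notMem]
      intro j hj
      exact absurd (hs j hj) (by simp)
    subst hs0
    rw [Finset.card_empty] at hk
    subst hk
    exact ⟨acc, h, le_rfl, fun b hb => ⟨hb, by simp⟩⟩
  | cons a tl ih =>
    intro k acc h s hs hk
    cases k with
    | zero =>
      rw [Finset.card_eq_zero] at hk
      subst hk
      exact ⟨acc, h, le_rfl, fun b hb => ⟨hb, by simp⟩⟩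
    | succ k =>
      simp only [covP, Bool.and_eq_true] at h
      by_cases h0 : 0 ∈ s
      · let s' : Finset ℕ := (s.erase 0).image fun j => j - 1
        have hinj : Set.InjOn (fun j : ℕ => j - 1) (s.erase 0 : Set ℕ) := by
          intro i hi j hj hij
          have hi' : i ≠ 0 := (Finset.mem_erase.1 (Finset.mem_coe.1 hi)).1
          have hj' : j ≠ 0 := (Finset.mem_erase.1 (Finset.mem_coe.1 hj)).1
          simp only at hij
          omega
        obtain ⟨acc', h1, h2, h3⟩ := ih k (Nat.land acc a) h.1 s' (by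
          intro j hj
          obtain ⟨i, hi, rfl⟩ := Finset.mem_image.1 hj
          rw [Finset.mem_erase] at hi
          have := hs i hi.2
          simp only [List.length_cons] at this
          omega) (by
          rw [Finset.card_image_of_injOn hinj, Finset.card_erase_of_mem h0, hk]; rfl)
        refine ⟨acc', h1, h2.trans (Nat.and_le_left (n := acc) (m := a)), fun b hb => ?_⟩
        obtain ⟨hb1, hb2⟩ := h3 b hb
        have hb' : (acc &&& a).testBit b = true := hb1
        rw [Nat.testBit_land, Bool.and_eq_true] at hb'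
        refine ⟨hb'.1, fun j hj => ?_⟩
        rcases Nat.eq_zero_or_pos j with rfl | hj0
        · simpa using hb'.2
        · have := hb2 (j - 1) (Finset.mem_image.2 ⟨j, Finset.mem_erase.2 ⟨by omega, hj⟩, rfl⟩)
          obtain ⟨i, rfl⟩ : ∃ i, j = i + 1 := ⟨j - 1, by omega⟩
          simpa using this
      · let s' : Finset ℕ := s.image fun j => j - 1
        have hne : ∀ j ∈ s, j ≠ 0 := fun j hj hj0 => h0 (hj0 ▸ hj)
        have hinj : Set.InjOn (fun j : ℕ => j - 1) (s : Set ℕ) := by
          intro i hi j hj hij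
          have hi' := hne i (Finset.mem_coe.1 hi)
          have hj' := hne j (Finset.mem_coe.1 hj)
          simp only at hij
          omega
        obtain ⟨acc', h1, h2, h3⟩ := ih (k + 1) acc h.2 s' (by
          intro j hj
          obtain ⟨i, hi, rfl⟩ := Finset.mem_image.1 hj
          have := hs i hi
          have := hne i hi
          simp only [List.length_cons] at *
          omega) (by
          rw [Finset.card_image_of_injOn hinj, hk])
        refine ⟨acc', h1, h2, fun b hb => ?_⟩
        obtain ⟨hb1, hb2⟩ := h3 b hb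
        refine ⟨hb1, fun j hj => ?_⟩
        have := hb2 (j - 1) (Finset.mem_image.2 ⟨j, hj, rfl⟩)
        have hj0 := hne j hj
        obtain ⟨i, rfl⟩ : ∃ i, j = i + 1 := ⟨j - 1, by omega⟩
        simpa using this

/-- The third form of the certificate that every `k + 2` of the polygons have a common line
transversal. -/
def tOKP (P : List (List (ℤ × ℤ))) (k : ℕ) (L : List ((ℤ × ℤ) × ℤ)) (H : List ℕ) : Bool :=
  decide (k + 2 ≤ P.length) && (L.all fun x => !(x.1.1 == 0 && x.1.2 == 0)) &&
    masksOK L P H && (H.all fun h => Nat.blt h (2 ^ L.length)) &&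
    covP L.length (pack (L.length + 1) (prsL H)) (onesB (L.length + 1) (prsL H)) H k
      (2 ^ L.length - 1)

theorem tOKP_spec {P : List (List (ℤ × ℤ))} {k : ℕ} {L : List ((ℤ × ℤ) × ℤ)} {H : List ℕ}
    (h : tOKP P k L H = true) (I : Finset ℕ) (hI : ∀ i ∈ I, i < P.length)
    (hk : I.card ≤ k + 2) :
    ∃ (u : ℤ × ℤ) (c : ℤ), ptR u ≠ 0 ∧
      ∀ i ∈ I, ∃ z ∈ hull (pol P i), dotR (ptR u) z = (c : ℝ) := by
  simp only [tOKP, Bool.and_eq_true, decide_eq_true_eq, List.all_eq_true] at h
  obtain ⟨⟨⟨⟨hkn, hL⟩, hM⟩, hH⟩, hcov⟩ := h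
  obtain ⟨hlen, hmask⟩ := masksOK_spec P H hM
  obtain ⟨J, hIJ, hJ, hJc⟩ : ∃ J : Finset ℕ, I ⊆ J ∧ J ⊆ Finset.range P.length ∧
      J.card = k + 2 := by
    refine Finset.exists_subsuperset_card_eq (fun i hi => Finset.mem_range.2 (hI i hi)) hk ?_
    rw [Finset.card_range]; exact hkn
  -- split off two elements
  obtain ⟨x, hx, y, hy, hxy⟩ := Finset.one_lt_card.1 (show 1 < J.card by omega)
  obtain ⟨a, b, hab, haJ, hbJ⟩ : ∃ a b, a < b ∧ a ∈ J ∧ b ∈ J := by
    rcases lt_or_gt_of_ne hxy with h1 | h1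
    · exact ⟨x, y, h1, hx, hy⟩
    · exact ⟨y, x, h1, hy, hx⟩
  have hbH : b < H.length := by rw [← hlen]; exact Finset.mem_range.1 (hJ hbJ)
  have hlt : ∀ h ∈ H, h < 2 ^ L.length := fun h hh => by simpa using hH h hh
  obtain ⟨acc', h1, h2, h3⟩ := covP_spec _ _ _ H k _ hcov ((J.erase a).erase b)
    (fun j hj => by
      rw [← hlen]
      exact Finset.mem_range.1 (hJ (Finset.mem_of_mem_erase (Finset.mem_of_mem_erase hj))))
    (by
      rw [Finset.card_erase_of_mem (Finset.mem_erase.2 ⟨hab.ne', hbJ⟩),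
        Finset.card_erase_of_mem haJ, hJc]; rfl)
  have hp : (0 : ℕ) < 2 ^ L.length := by positivity
  have hne := testB_spec L.length (prsL H) acc' (prsL_lt H hlt) (by omega) h1
    _ (mem_prsL H a b hab hbH)
  obtain ⟨β, hβ⟩ := Nat.exists_testBit_of_ne_zero hne
  have hβ' : ((H.getD a 0 &&& H.getD b 0) &&& acc').testBit β = true := hβ
  rw [Nat.testBit_land, Nat.testBit_land, Bool.and_eq_true, Bool.and_eq_true] at hβ'
  obtain ⟨hβ1, hβ2⟩ := h3 β hβ'.2
  have hbL : β < L.length := by
    rw [Nat.testBit_two_pow_sub_one, decide_eq_true_eq] at hβ1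
    exact hβ1
  have hall : ∀ j ∈ J, (H.getD j 0).testBit β = true := by
    intro j hj
    by_cases hja : j = a
    · rw [hja]; exact hβ'.1.1
    · by_cases hjb : j = b
      · rw [hjb]; exact hβ'.1.2
      · exact hβ2 j (Finset.mem_erase.2 ⟨hjb, Finset.mem_erase.2 ⟨hja, hj⟩⟩)
  have hmem : L.getD β ((0, 0), 0) ∈ L := by
    rw [List.getD_eq_getElem _ _ hbL]
    exact List.getElem_mem hbL
  have h4 := hL _ hmem
  simp only [Bool.not_eq_true', Bool.and_eq_false_iff, beq_eq_false_iff_ne] at h4
  refine ⟨(L.getD β ((0, 0), 0)).1, (L.getD β ((0, 0), 0)).2, ?_, fun i hi => ?_⟩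
  · intro h0
    have h01 : (((L.getD β ((0, 0), 0)).1.1 : ℝ)) = 0 := congrArg Prod.fst h0
    have h02 : (((L.getD β ((0, 0), 0)).1.2 : ℝ)) = 0 := congrArg Prod.snd h0
    have h01' : (L.getD β ((0, 0), 0)).1.1 = 0 := by exact_mod_cast h01
    have h02' : (L.getD β ((0, 0), 0)).1.2 = 0 := by exact_mod_cast h02
    rcases h4 with h5 | h5
    · exact h5 h01'
    · exact h5 h02'
  · have h5 := maskOK_spec L 0 (hmask i (hI i hi)) β hbL (by
      rw [Nat.zero_add]; exact hall i (hIJ hi))
    exact hitOK_spec h5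

theorem adm_le_of_certC {P : List (List (ℤ × ℤ))} {k t : ℕ} {L : List ((ℤ × ℤ) × ℤ)}
    {H : List ℕ} {r u₀ : ℤ × ℤ} {V : List ℤ} {S : List (List (List ℕ) × (ℤ × ℤ))}
    (hT : tOKP P k L H = true) (hC : capOK' P t r S = true) (hD : distOK' P u₀ V = true)
    {ρ : ℝ} (h : Adm (k + 2) ρ) : ρ * P.length ≤ t :=
  adm_le_of_data (tOKP_spec hT) (fun _ hu c I hI hit => cap_spec' hC hu c I hI hit)
    (distOK'_spec hD) h

end Pool.Agent.Lib_helper99.Transversal
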