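import Pool.Agent.Lib_helper99.Transversal.Geom

set_option autoImplicit false

namespace Pool.Agent.Lib_helper99.Transversal

open Finset

/-- Centre of the `c`-th cell of the slope range of the point `(j, -j²)`. -/
noncomputable def cen (g j c : ℕ) : ℝ := -2 * (j : ℝ) - 1 + (2 * (c : ℝ) + 1) / g

noncomputable def wlo (g : ℕ) (T : ℝ) (j c : ℕ) : ℝ :=
  if c = 0 then -T else cen g j c - 6 / (5 * g)

noncomputable def whi (g : ℕ) (T : ℝ) (j c : ℕ) : ℝ :=
  if c + 1 = g then T else cen g j c + 6 / (5 * g)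

noncomputable def zlo (ζ : ℝ) (e j : ℕ) : ℝ :=
  if j = e ∨ j = e + 1 then -(2 * (e : ℝ) + 1) - 2 * ζ else 0

noncomputable def zhi (ζ : ℝ) (e j : ℕ) : ℝ :=
  if j = e ∨ j = e + 1 then -(2 * (e : ℝ) + 1) + 2 * ζ else 0

theorem fact1 (g : ℕ) (hg : 1 ≤ g) (T τ : ℝ) (hτ : |τ| < T) (j : ℕ) :
    ∃ c : Fin g, wlo g T j c < τ ∧ τ < whi g T j c := by
  have hg0 : (0 : ℝ) < g := by exact_mod_cast (by omega : 0 < g)
  obtain ⟨hτ1, hτ2⟩ := abs_lt.1 hτ
  obtain ⟨y, hy⟩ : ∃ y : ℝ, y = (τ + 2 * j + 1) * g / 2 := ⟨_, rfl⟩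
  have hτy : τ = -2 * (j : ℝ) - 1 + 2 * y / g := by
    rw [hy]; field_simp; ring
  by_cases h0 : y < 0
  · refine ⟨⟨0, by omega⟩, ?_, ?_⟩
    · simp only [wlo, if_true]; exact hτ1
    · simp only [whi, cen]
      split_ifs with h
      · exact hτ2
      · rw [hτy]
        have h1 : 2 * y / g < 0 := div_neg_of_neg_of_pos (by linarith) hg0
        have h2 : (0 : ℝ) < (2 * ((0 : ℕ) : ℝ) + 1) / g := by positivity
        have h3 : (0 : ℝ) < 6 / (5 * g) := by positivity
        linarith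
  · push Not at h0
    by_cases h1 : (g : ℝ) ≤ y
    · refine ⟨⟨g - 1, by omega⟩, ?_, ?_⟩
      · simp only [wlo, cen]
        split_ifs with h
        · exact hτ1
        · rw [hτy]
          have h2 : (2 * ((g - 1 : ℕ) : ℝ) + 1) / g ≤ 2 * y / g := by
            apply div_le_div_of_nonneg_right _ hg0.le
            rw [Nat.cast_sub hg]; push_cast; linarith
          have h3 : (0 : ℝ) < 6 / (5 * g) := by positivity
          linarith
      · have : g - 1 + 1 = g := by omega
        simp only [whi, this, if_true]; exact hτ2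
    · push Not at h1
      have hc : ⌊y⌋₊ < g := (Nat.floor_lt h0).2 h1
      refine ⟨⟨⌊y⌋₊, hc⟩, ?_, ?_⟩
      · simp only [wlo, cen]
        split_ifs with h
        · exact hτ1
        · rw [hτy]
          have h2 : (⌊y⌋₊ : ℝ) ≤ y := Nat.floor_le h0
          have h3 : (2 * (⌊y⌋₊ : ℝ) + 1) / g - 6 / (5 * g) < 2 * y / g := by
            have : (2 * (⌊y⌋₊ : ℝ) + 1) / g - 6 / (5 * g) = (2 * (⌊y⌋₊ : ℝ) - 1 / 5) / g := by
              field_simp; ring
            rw [this]
            apply div_lt_div_of_pos_right _ hg0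
            linarith
          linarith
      · simp only [whi, cen]
        split_ifs with h
        · exact hτ2
        · rw [hτy]
          have h2 : y < (⌊y⌋₊ : ℝ) + 1 := Nat.lt_floor_add_one y
          have h3 : 2 * y / g < (2 * (⌊y⌋₊ : ℝ) + 1) / g + 6 / (5 * g) := by
            have : (2 * (⌊y⌋₊ : ℝ) + 1) / g + 6 / (5 * g) = (2 * (⌊y⌋₊ : ℝ) + 11 / 5) / g := by
              field_simp; ring
            rw [this]
            apply div_lt_div_of_pos_right _ hg0
            linarith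
          linarith

theorem fact2 (g : ℕ) (T : ℝ) (j c c' : ℕ) (hc : c < g) (hne : c' ≠ c) :
    cen g j c ≤ wlo g T j c' ∨ whi g T j c' ≤ cen g j c := by
  have hg0 : (0 : ℝ) < g := by exact_mod_cast (by omega : 0 < g)
  rcases Nat.lt_or_gt_of_ne hne with h | h
  · right
    have h1 : c' + 1 ≠ g := by omega
    simp only [whi, if_neg h1, cen]
    have h2 : (c' : ℝ) + 1 ≤ c := by exact_mod_cast h
    have h3 : (2 * (c' : ℝ) + 1) / g + 6 / (5 * g) ≤ (2 * (c : ℝ) + 1) / g := by
      have : (2 * (c' : ℝ) + 1) / g + 6 / (5 * g) = (2 * (c' : ℝ) + 11 / 5) / g := by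
        field_simp; ring
      rw [this]
      apply div_le_div_of_nonneg_right _ hg0.le
      linarith
    linarith
  · left
    have h1 : c' ≠ 0 := by omega
    simp only [wlo, if_neg h1, cen]
    have h2 : (c : ℝ) + 1 ≤ c' := by exact_mod_cast h
    have h3 : (2 * (c : ℝ) + 1) / g ≤ (2 * (c' : ℝ) + 1) / g - 6 / (5 * g) := by
      have : (2 * (c' : ℝ) + 1) / g - 6 / (5 * g) = (2 * (c' : ℝ) - 1 / 5) / g := by
        field_simp; ring
      rw [this]
      apply div_le_div_of_nonneg_right _ hg0.le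
      linarith
    linarith

theorem fact3 (g : ℕ) (j c e : ℕ) (hc : c < g) :
    cen g j c ≤ zlo (1 / (4 * g)) e j ∨ zhi (1 / (4 * g)) e j ≤ cen g j c := by
  have hg0 : (0 : ℝ) < g := by exact_mod_cast (by omega : 0 < g)
  simp only [zlo, zhi, cen]
  by_cases h1 : j = e
  · right
    subst h1
    rw [if_pos (Or.inl rfl)]
    have h2 : 2 * (1 / (4 * (g : ℝ))) ≤ (2 * (c : ℝ) + 1) / g := by
      have : 2 * (1 / (4 * (g : ℝ))) = (1 / 2) / g := by field_simp; norm_num
      rw [this]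
      apply div_le_div_of_nonneg_right _ hg0.le
      have : (0 : ℝ) ≤ c := Nat.cast_nonneg c
      linarith
    linarith
  · by_cases h2 : j = e + 1
    · left
      subst h2
      rw [if_pos (Or.inr rfl)]
      have h3 : (c : ℝ) + 1 ≤ g := by exact_mod_cast hc
      have h4 : (2 * (c : ℝ) + 1) / g ≤ 2 - 1 / g := by
        rw [div_le_iff₀ hg0]
        have : (2 - 1 / (g : ℝ)) * g = 2 * g - 1 := by field_simp
        rw [this]; linarith
      have h5 : 2 * (1 / (4 * (g : ℝ))) ≤ 1 / g := by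
        have : 2 * (1 / (4 * (g : ℝ))) = (1 / 2) / g := by field_simp; norm_num
        rw [this]
        apply div_le_div_of_nonneg_right _ hg0.le
        norm_num
      push_cast
      linarith
    · have h3 : ¬ (j = e ∨ j = e + 1) := by omega
      rw [if_neg h3, if_neg h3]
      exact le_total _ _

theorem cen_bounds (g j c : ℕ) (hc : c < g) :
    -2 * (j : ℝ) - 1 ≤ cen g j c ∧ cen g j c ≤ -2 * (j : ℝ) + 1 := by
  have hg0 : (0 : ℝ) < g := by exact_mod_cast (by omega : 0 < g)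
  have h1 : (0 : ℝ) ≤ (2 * (c : ℝ) + 1) / g := by positivity
  have h2 : (2 * (c : ℝ) + 1) / g ≤ 2 := by
    rw [div_le_iff₀ hg0]
    have h3 : (c : ℝ) + 1 ≤ g := by exact_mod_cast hc
    linarith
  unfold cen
  constructor <;> linarith

theorem w_bounds (g : ℕ) (T : ℝ) (m j c : ℕ) (hj : j < m) (hc : c < g) (hT : 2 * (m : ℝ) + 4 ≤ T) :
    |wlo g T j c| ≤ T ∧ |whi g T j c| ≤ T := by
  have hg0 : (0 : ℝ) < g := by exact_mod_cast (by omega : 0 < g)
  have hg1 : (1 : ℝ) ≤ g := by exact_mod_cast (by omega : 1 ≤ g)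
  have h1 := cen_bounds g j c hc
  have hj' : (j : ℝ) + 1 ≤ m := by exact_mod_cast hj
  have hj0 : (0 : ℝ) ≤ j := Nat.cast_nonneg j
  have h2 : 6 / (5 * (g : ℝ)) ≤ 2 := by
    rw [div_le_iff₀ (by positivity)]; linarith
  have h3 : 0 ≤ 6 / (5 * (g : ℝ)) := by positivity
  have hT0 : 0 ≤ T := by linarith
  unfold wlo whi
  constructor
  · split_ifs
    · rw [abs_neg, abs_of_nonneg hT0]
    · rw [abs_le]; constructor <;> linarith
  · split_ifs
    · rw [abs_of_nonneg hT0]
    · rw [abs_le]; constructor <;> linarith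

theorem z_bounds (ζ T : ℝ) (hζ : 0 ≤ ζ) (hζ1 : ζ ≤ 1) (m e j : ℕ) (he : e + 1 < m)
    (hT : 2 * (m : ℝ) + 4 ≤ T) : |zlo ζ e j| ≤ T ∧ |zhi ζ e j| ≤ T := by
  have he' : (e : ℝ) + 2 ≤ m := by exact_mod_cast he
  have he0 : (0 : ℝ) ≤ e := Nat.cast_nonneg e
  have hT0 : 0 ≤ T := by linarith
  unfold zlo zhi
  constructor
  · split_ifs
    · rw [abs_le]; constructor <;> linarith
    · simpa using hT0
  · split_ifs
    · rw [abs_le]; constructor <;> linarith
    · simpa using hT0

end Pool.Agent.Lib_helper99.Transversal
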