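import Pool.Agent.Lib_helper99.Transversal.CertB

set_option autoImplicit false

namespace Pool.Agent.Lib_helper99.Transversal.Three

/-- The vertices of the 15 convex polygons. -/
def P : List (List (ℤ × ℤ)) :=
  [[(88, 326), (435, 43), (278, 723)],
   [(-283, 184), (93, 427), (-602, 488)],
   [(-262, -212), (-378, 221), (-650, -421)],
   [(121, -315), (-327, -291), (200, -749)],
   [(337, 18), (176, -401), (774, -41)],
   [(-668, -548), (-427, -243), (-242, 162)],
   [(315, -805), (99, -482), (-228, -180)],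
   [(863, 50), (489, -54), (101, -273)],
   [(219, 836), (203, 448), (291, 12)],
   [(-728, 466), (-363, 331), (79, 280)],
   [(-315, 268), (33, 47), (-315, 281)],
   [(-353, -216), (-35, 46), (-365, -213)],
   [(97, -402), (-54, -19), (90, -413)],
   [(412, -32), (1, -57), (421, -42)],
   [(158, 382), (55, -17), (170, 387)]]

/-- Lines `⟨u, x⟩ = c`. -/
def L : List ((ℤ × ℤ) × ℤ) :=
  [((101, -5), 7258),
   ((-164, 330), 93148),
   ((-279, 55), -6622),
   ((445, 1037), 238166),
   ((-25, 98), -6661),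
   ((-84, -339), -51117),
   ((7, -428), -15359),
   ((-296, 185), 51467),
   ((-1144, 928), 352912),
   ((-1472, 78), -352822),
   ((-996, 177), -148917),
   ((37, 95), 7009),
   ((-364, -55), 92892),
   ((-138, -248), -6578),
   ((409, -126), -15765),
   ((-267, -224), 51422),
   ((-1237, -802), 353298),
   ((-476, -893), -149232),
   ((-79, 65), 6918),
   ((-61, -363), 92938),
   ((259, -295), -5318),
   ((245, 350), -15260),
   ((130, -323), 51483),
   ((380, -1424), 352504),
   ((-86, -55), 6919),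
   ((361, 156), -5459),
   ((-257, 341), -15192),
   ((348, 24), 51624),
   ((-37, 391), -5431),
   ((-404, -139), -15365),
   ((595, -701), -13312),
   ((27, -74), 6453),
   ((-115, -275), -16720),
   ((762, 20), 65798),
   ((-36, 125), -14292),
   ((226, -193), -16788),
   ((-69, 917), -13697),
   ((604, 464), -65668),
   ((256, 606), 81768),
   ((-420, -693), -17178)]

/-- For every polygon the bit mask of the lines that meet it. -/
def H : List ℕ :=
  [37783603199,
   971250071977,
   93700590034,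
   43214296581,
   1053238635064,
   93766398290,
   60881982981,
   1035802914408,
   312795875306,
   696374251918,
   452633844134,
   809923096784,
   235515986965,
   857557052949,
   942142793835]

/-- The successive cones with the chains of separated polygons. -/
def S : List (List (List ℕ) × (ℤ × ℤ)) :=
  [([[1, 8], [2, 6], [3, 4], [5, 12, 7], [9, 0], [10, 14], [11, 13]], (9470, 3211)),
   ([[1, 8], [2, 10], [3, 4], [5, 12, 13], [6, 14], [9, 0], [11, 7]], (9205, 3908)),
   ([[1], [2, 10, 0], [3, 4], [5, 12, 7], [6, 13], [9, 8], [11, 14]], (8672, 4979)),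
   ([[1], [2, 10, 0], [3, 7], [5, 4], [6, 12, 13], [9, 8], [11, 14]], (8043, 5943)),
   ([[2, 4], [3, 7], [5, 10, 8], [6, 1], [9, 0], [11, 14], [12, 13]], (7480, 6637)),
   ([[2, 1], [3, 7], [5, 10, 8], [6, 4], [9, 0], [11, 14], [12, 13]], (5773, 8165)),
   ([[2, 1], [3, 7], [5, 14], [6, 4], [11, 10, 8], [12, 9], [13, 0]], (5175, 8557)),
   ([[2, 1], [3, 7], [4], [5, 10, 8], [6, 13, 0], [11, 9], [12, 14]], (4081, 9130)),
   ([[2, 8], [3, 7], [4], [5, 1], [6, 13, 0], [11, 10, 9], [12, 14]], (3004, 9538)),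
   ([[2, 0], [3, 7], [4, 9], [5, 1], [6, 13, 8], [11, 10], [12, 14]], (2156, 9765)),
   ([[2, 9], [3, 7], [4, 0], [5, 1], [6, 13, 8], [11, 10], [12, 14]], (-101, 9999)),
   ([[2, 9], [3, 11], [4, 0], [5, 1], [6, 13, 14], [7, 10], [12, 8]], (-879, 9961)),
   ([[2], [3, 11, 1], [4, 0], [5, 9], [6, 13, 8], [7, 14], [12, 10]], (-2056, 9786)),
   ([[2], [3, 11, 1], [4, 8], [5, 9], [6, 0], [7, 13, 14], [12, 10]], (-3165, 9486)),
   ([[3, 0], [4, 8], [5, 1], [6, 11, 9], [7, 2], [12, 10], [13, 14]], (-3998, 9166)),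
   ([[3, 2], [4, 8], [5, 1], [6, 11, 9], [7, 0], [12, 10], [13, 14]], (-5916, 8062)),
   ([[3, 2], [4, 5, 1], [6, 11, 9], [7, 0], [8], [12, 10], [13, 14]], (-5952, 8036)),
   ([[3, 2], [4, 8], [6, 10], [7, 0], [12, 11, 9], [13, 5], [14, 1]], (-6551, 7556)),
   ([[0], [3, 2], [4, 8], [6, 11, 9], [7, 14, 1], [12, 5], [13, 10]], (-7414, 6711)),
   ([[0], [3, 5], [4, 8], [6, 11, 9], [7, 14, 1], [12, 2], [13, 10]], (-7430, 6693)),
   ([[0], [3, 9], [4, 14, 1], [6, 2], [7, 8], [12, 11, 5], [13, 10]], (-8137, 5813)),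
   ([[0, 5], [3, 1], [4, 8], [6, 2], [7, 14, 9], [12, 11], [13, 10]], (-8622, 5065)),
   ([[0, 1], [3, 5], [4, 8], [6, 2], [7, 14, 9], [12, 11], [13, 10]], (-9544, 2985)),
   ([[0, 1], [3, 5], [4, 12], [6, 2], [7, 14, 10], [8, 11], [13, 9]], (-9739, 2269)),
   ([[0, 1], [3], [4, 12, 2], [6, 5], [7, 14, 9], [8, 10], [13, 11]], (-9943, 1064)),
   ([[0, 9], [3], [4, 12, 2], [6, 5], [7, 1], [8, 14, 10], [13, 11]], (-10000, -91)),
   ([[0, 9], [4, 1], [6, 2], [7, 12, 5], [8, 3], [13, 11], [14, 10]], (-9952, -979)),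
   ([[0, 9], [4, 3], [6, 2], [7, 12, 5], [8, 1], [13, 11], [14, 10]], (-9924, -1231))]

/-- The maxima of a linear form over the polygons. -/
def V : List ℤ :=
  [2447, 1374, 285, -824, 651, 244, -768, 1013, 2727, 919, 528, 103, -111, 316, 1331]

theorem t_ok : tOK' P 3 L H = true := by decide +kernel

theorem cap_ok : capOK' P 7 (9924, 1231) S = true := by decide +kernel

theorem dist_ok : distOK' P (1, 3) V = true := by decide +kernel

theorem bound {ρ : ℝ} (h : Adm 3 ρ) : ρ * 15 ≤ 7 := by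
  have := adm_le_of_certB t_ok cap_ok dist_ok h
  have hP : P.length = 15 := by decide +kernel
  rw [hP] at this
  exact_mod_cast this

end Pool.Agent.Lib_helper99.Transversal.Three
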