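import Pool.Agent.Lib_helper99.Transversal.CertB

set_option autoImplicit false

namespace Pool.Agent.Lib_helper99.Transversal

/-! # Decoding of certificates that are written as numbers -/

/-- The first `f` digits of `N` in base `b`. -/
def digs (b : ℕ) : ℕ → ℕ → List ℕ
  | 0, _ => []
  | f + 1, N => N % b :: digs b f (N / b)

/-- Pairs of integers from digits in base `2 o`, with offset `o`. -/
def prs (o : ℕ) : List ℕ → List (ℤ × ℤ)
  | a :: b :: tl => (Int.subNatNat a o, Int.subNatNat b o) :: prs o tl
  | _ => []

/-- Pairs of points. -/
def segs : List (ℤ × ℤ) → List (List (ℤ × ℤ))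
  | p :: q :: tl => [p, q] :: segs tl
  | _ => []

/-- Triples of integers from digits in base `2 o`, with offset `o`. -/
def trs (o : ℕ) : List ℕ → List ((ℤ × ℤ) × ℤ)
  | a :: b :: c :: tl => ((Int.subNatNat a o, Int.subNatNat b o), Int.subNatNat c o) :: trs o tl
  | _ => []

/-- Lists of lists of lists of numbers: `i + 2` stands for `i`, `0` ends a list and `1` ends a list
of lists. -/
def parse : List ℕ → List ℕ → List (List ℕ) → List (List (List ℕ))
  | [], _, _ => []
  | d :: tl, cur, acc =>
    match d with
    | 0 => parse tl [] (cur.reverse :: acc)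
    | 1 => acc :: parse tl [] []
    | i + 2 => parse tl (i :: cur) acc

end Pool.Agent.Lib_helper99.Transversal
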