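import Pool.Agent.Lib_helper99.Transversal.Construct

set_option autoImplicit false

namespace Pool.Agent.Lib_helper99.Transversal

open Finset

/-- Index set of the construction: words, vertical segments, buffer sets. -/
abbrev Idx (m r N : ℕ) : Type := Fin N ⊕ (Fin m × Fin r) ⊕ (Fin (m - 1) × Fin r)

/-- An injective numbering of the index set. -/
noncomputable def code (m r N : ℕ) (x : Idx m r N) : ℕ := (Fintype.equivFin (Idx m r N) x).val

theorem code_inj (m r N : ℕ) : Function.Injective (code m r N) := fun _ _ h =>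
  (Fintype.equivFin (Idx m r N)).injective (Fin.ext h)

theorem code_lt (m r N : ℕ) (x : Idx m r N) : code m r N x < Fintype.card (Idx m r N) :=
  (Fintype.equivFin (Idx m r N) x).isLt

/-- The family of sets. -/
noncomputable def fam (m g r N : ℕ) (W : Fin N → Fin m → Fin g) (T ζ η : ℝ) (x : Idx m r N) :
    Set Pt :=
  match x with
  | Sum.inl i => Lset m η (fun j => wlo g T j (W i j)) (fun j => whi g T j (W i j))
      ((m : ℝ) ^ 2 + 2 + code m r N x)
  | Sum.inr (Sum.inl (j, _)) => Rset j ((m : ℝ) ^ 2 + 2 * m + code m r N x)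
  | Sum.inr (Sum.inr (e, _)) => Lset m η (fun j => zlo ζ e j) (fun j => zhi ζ e j)
      ((m : ℝ) ^ 2 + 2 + code m r N x)

section
variable {m g r N : ℕ} {W : Fin N → Fin m → Fin g} {T ζ η : ℝ}

theorem fam_compact_convex (x : Idx m r N) :
    IsCompact (fam m g r N W T ζ η x) ∧ Convex ℝ (fam m g r N W T ζ η x) := by
  rcases x with i | ⟨j, t⟩ | ⟨e, t⟩
  · exact ⟨Lset_compact _ _ _ _ _, Lset_convex _ _ _ _ _⟩
  · exact ⟨Rset_compact _ _, Rset_convex _ _⟩
  · exact ⟨Lset_compact _ _ _ _ _, Lset_convex _ _ _ _ _⟩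

/-- Every set in the family is an `Lset` or an `Rset` with the right parameters. -/
theorem fam_cases (hζ : 0 ≤ ζ) (hζ1 : ζ ≤ 1)
    (hT : 2 * (m : ℝ) + 4 ≤ T) (x : Idx m r N) :
    (∃ a b : Fin m → ℝ, (∀ j, |a j| ≤ T ∧ |b j| ≤ T) ∧
      fam m g r N W T ζ η x = Lset m η a b ((m : ℝ) ^ 2 + 2 + code m r N x)) ∨
    (∃ j : Fin m, fam m g r N W T ζ η x = Rset j ((m : ℝ) ^ 2 + 2 * m + code m r N x)) := by
  rcases x with i | ⟨j, t⟩ | ⟨e, t⟩
  · left
    exact ⟨_, _, fun j => w_bounds g T m j (W i j) j.isLt (W i j).isLt hT, rfl⟩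
  · right; exact ⟨j, rfl⟩
  · left
    exact ⟨_, _, fun j => z_bounds ζ T hζ hζ1 m e j (by omega) hT, rfl⟩

theorem Lset_low' (hη : 0 ≤ η) (hηT : η * T ≤ 1) {a b : Fin m → ℝ}
    (hab : ∀ j, |a j| ≤ T ∧ |b j| ≤ T) (n : ℕ) {x : Pt}
    (hx : x ∈ Lset m η a b ((m : ℝ) ^ 2 + 2 + n)) : -((m : ℝ) ^ 2 + 2 + n) ≤ x.2 := by
  refine Lset_low (fun j => ?_) hx
  have h1 := abs_le.1 (hab j).1
  have h2 := abs_le.1 (hab j).2
  have hj : ((j : ℕ) : ℝ) ≤ m := by exact_mod_cast j.isLt.le
  have hj0 : (0 : ℝ) ≤ ((j : ℕ) : ℝ) := Nat.cast_nonneg _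
  have hj2 : ((j : ℕ) : ℝ) ^ 2 ≤ (m : ℝ) ^ 2 := by gcongr
  have hn : (0 : ℝ) ≤ n := Nat.cast_nonneg n
  have e1 : η * (-T) ≤ η * a j := mul_le_mul_of_nonneg_left h1.1 hη
  have e2 : η * b j ≤ η * T := mul_le_mul_of_nonneg_left h2.2 hη
  constructor <;> nlinarith

theorem fam_inj (hη : 0 ≤ η) (hηT : η * T ≤ 1) (hζ : 0 ≤ ζ) (hζ1 : ζ ≤ 1)
    (hT : 2 * (m : ℝ) + 4 ≤ T) : Function.Injective (fam m g r N W T ζ η) := by
  intro x y hxy
  apply code_inj
  have hm2 : ∀ j : Fin m, ((j : ℕ) : ℝ) ^ 2 ≤ (m : ℝ) ^ 2 := fun j => by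
    have hj : ((j : ℕ) : ℝ) ≤ m := by exact_mod_cast j.isLt.le
    have hj0 : (0 : ℝ) ≤ ((j : ℕ) : ℝ) := Nat.cast_nonneg _
    gcongr
  have key : ∀ x y : Idx m r N, fam m g r N W T ζ η x = fam m g r N W T ζ η y →
      code m r N x ≤ code m r N y := by
    intro x y hxy
    have hcx : (0 : ℝ) ≤ code m r N x := Nat.cast_nonneg _
    have hcy : (0 : ℝ) ≤ code m r N y := Nat.cast_nonneg _
    rcases fam_cases (g := g) (W := W) hζ hζ1 hT x with ⟨a, b, hab, hx⟩ | ⟨j, hx⟩
    · rcases fam_cases (g := g) (W := W) hζ hζ1 hT y with ⟨a', b', hab', hy⟩ | ⟨j', hy⟩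
      · have h1 : ((0, -((m : ℝ) ^ 2 + 2 + code m r N x)) : Pt) ∈
            Lset m η a' b' ((m : ℝ) ^ 2 + 2 + code m r N y) := by
          rw [← hy, ← hxy, hx]; exact Lset_mem_d
        have h2 := Lset_low' hη hηT hab' _ h1
        simp only at h2
        have : (code m r N x : ℝ) ≤ code m r N y := by linarith
        exact_mod_cast this
      · exfalso
        have h1 : ((0, -((m : ℝ) ^ 2 + 2 + code m r N x)) : Pt) ∈
            Rset j' ((m : ℝ) ^ 2 + 2 * m + code m r N y) := by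
          rw [← hy, ← hxy, hx]; exact Lset_mem_d
        have h2 := h1.2.1
        simp only at h2
        have := hm2 j'
        linarith
    · have hmem : (((j : ℕ) : ℝ), (m : ℝ) ^ 2 + 2 * m + code m r N x) ∈
          fam m g r N W T ζ η x := by
        rw [hx]
        refine ⟨rfl, ?_, le_refl _⟩
        simp only
        have := hm2 j
        have hm : (0 : ℝ) ≤ m := Nat.cast_nonneg m
        nlinarith [sq_nonneg ((j : ℕ) : ℝ)]
      rcases fam_cases (g := g) (W := W) hζ hζ1 hT y with ⟨a', b', hab', hy⟩ | ⟨j', hy⟩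
      · exfalso
        have h1 : ((0, -((m : ℝ) ^ 2 + 2 + code m r N y)) : Pt) ∈
            Rset j ((m : ℝ) ^ 2 + 2 * m + code m r N x) := by
          rw [← hx, hxy, hy]; exact Lset_mem_d
        have h2 := h1.2.1
        simp only at h2
        have := hm2 j
        linarith
      · rw [hxy, hy] at hmem
        have h2 := hmem.2.2
        simp only at h2
        have : (code m r N x : ℝ) ≤ code m r N y := by linarith
        exact_mod_cast this
  exact le_antisymm (key x y hxy) (key y x hxy.symm)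

/-- The lines through `(j, -j²)` whose slope is the centre of a cell not used by any word. -/
theorem fam_hit (hη : 0 ≤ η) (j : Fin m) (c : Fin g) (x : Idx m r N)
    (hx : ∀ i : Fin N, x = Sum.inl i → W i j ≠ c) :
    Hit (some (cen g j c), phi (cen g j c) j) (fam m g r N W T (1 / (4 * g)) η x) := by
  obtain ⟨hc1, hc2⟩ := cen_bounds g j c c.isLt
  have hj0 : (0 : ℝ) ≤ ((j : ℕ) : ℝ) := Nat.cast_nonneg _
  have hjm : ((j : ℕ) : ℝ) + 1 ≤ m := by exact_mod_cast j.isLt
  have hp0 : 0 ≤ phi (cen g j c) j := by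
    unfold phi
    rcases Nat.eq_zero_or_pos (j : ℕ) with h0 | h0
    · rw [h0]; simp
    · have : (1 : ℝ) ≤ ((j : ℕ) : ℝ) := by exact_mod_cast h0
      nlinarith
  have hcode : (0 : ℝ) ≤ code m r N x := Nat.cast_nonneg _
  have hDp : -((m : ℝ) ^ 2 + 2 + code m r N x) ≤ phi (cen g j c) j := by
    have : (0 : ℝ) ≤ (m : ℝ) ^ 2 := by positivity
    linarith
  rcases x with i | ⟨j', t⟩ | ⟨e, t⟩
  · -- a word
    have hW := hx i rfl
    refine Lset_hit j ?_ hDp
    have hne : ((W i j : Fin g) : ℕ) ≠ c := fun h => hW (Fin.ext h)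
    rcases fact2 g T j c (W i j) c.isLt hne with h | h
    · left
      have : 0 ≤ η * (wlo g T j (W i j) - cen g j c) := mul_nonneg hη (by linarith)
      linarith
    · right
      have : 0 ≤ η * (cen g j c - whi g T j (W i j)) := mul_nonneg hη (by linarith)
      linarith
  · -- a segment
    have hj'0 : (0 : ℝ) ≤ ((j' : ℕ) : ℝ) := Nat.cast_nonneg _
    have hj'm : ((j' : ℕ) : ℝ) + 1 ≤ m := by exact_mod_cast j'.isLt
    refine Rset_hit ?_ ?_
    · unfold phi
      have h1 : ((j' : ℕ) : ℝ) = j ∨ ((j' : ℕ) : ℝ) + 1 ≤ j ∨ ((j : ℕ) : ℝ) + 1 ≤ j' := by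
        rcases lt_trichotomy (j' : ℕ) (j : ℕ) with h | h | h
        · right; left; exact_mod_cast h
        · left; exact_mod_cast h
        · right; right; exact_mod_cast h
      rcases h1 with h1 | h1 | h1
      · rw [h1]
      · nlinarith
      · nlinarith
    · unfold phi
      have hm2 : ((j : ℕ) : ℝ) ^ 2 ≤ ((m : ℝ) - 1) ^ 2 := by
        apply pow_le_pow_left₀ hj0; linarith
      have e1 : -(cen g j c) * (j : ℕ) ≤ (2 * ((j : ℕ) : ℝ) + 1) * (j : ℕ) :=
        mul_le_mul_of_nonneg_right (by linarith) hj0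
      have e2 : cen g j c * (j' : ℕ) ≤ 1 * (j' : ℕ) :=
        mul_le_mul_of_nonneg_right (by linarith) hj'0
      nlinarith
  · -- a buffer set
    refine Lset_hit j ?_ hDp
    rcases fact3 g j c e c.isLt with h | h
    · left
      have : 0 ≤ η * (zlo (1 / (4 * g)) e j - cen g j c) := mul_nonneg hη (by linarith)
      linarith
    · right
      have : 0 ≤ η * (cen g j c - zhi (1 / (4 * g)) e j) := mul_nonneg hη (by linarith)
      linarith

end

end Pool.Agent.Lib_helper99.Transversal
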