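import Pool.Agent.Lib_helper99.Transversal.Asymp

set_option autoImplicit false

namespace Pool.Agent.Lib_helper99.Transversal

open Filter Topology Finset

/-- `ρ` is admissible for `k`. -/
def Adm (k : ℕ) (ρ : ℝ) : Prop :=
  ∀ F : Finset (Set Pt), (∀ A ∈ F, IsCompact A ∧ Convex ℝ A) →
    (∀ G ⊆ F, G.card ≤ k → Trans G) → ∃ G ⊆ F, ρ * F.card ≤ G.card ∧ Trans G

theorem trans_empty : Trans ∅ := ⟨0, (1, 0), by simp, by simp⟩

/-- Upper bound for admissible numbers. -/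
theorem upper (δ : ℝ) (hδ : 0 < δ) (hδ1 : δ ≤ 1 / 10) : ∀ᶠ k : ℕ in atTop,
    ∀ ρ : ℝ, Adm k ρ → ρ ≤ 1 - (1 - 10 * δ) * (Real.log k / k) := by
  filter_upwards [params δ hδ hδ1, eventually_ge_atTop 2] with k hk hk2 ρ hρ
  obtain ⟨m, g, r, N, hm, hg, hkN, hcond, hratio⟩ := hk
  obtain ⟨W, hW1, hW2⟩ := exists_code m g N r k (by omega) hg hkN (δ / 2) (by positivity)
    (by linarith) hcond
  obtain ⟨F, hF1, hF2, hF3, hF4⟩ := geom m g r N k hm hg W hW1 hW2
  obtain ⟨G, hGF, hG1, hG2⟩ := hρ F hF1 hF3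
  have h1 := hF4 G hGF hG2
  have hFpos : (0 : ℝ) < F.card := by
    have : 0 < F.card := by
      rw [hF2]
      omega
    exact_mod_cast this
  have h2 : (F.card : ℝ) ≤ N + 2 * m * r := by
    rw [hF2]
    have : N + (m * r + (m - 1) * r) ≤ N + 2 * m * r := by
      have : (m - 1) * r ≤ m * r := Nat.mul_le_mul_right r (by omega)
      nlinarith
    exact_mod_cast this
  have h3 : (G.card : ℝ) + r ≤ F.card := by exact_mod_cast h1
  have hlog : 0 ≤ Real.log k / k := by positivity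
  have h4 : (1 - 10 * δ) * (Real.log k / k) * F.card ≤ r := by
    refine le_trans ?_ hratio
    apply mul_le_mul_of_nonneg_left h2
    have : 0 ≤ 1 - 10 * δ := by linarith
    positivity
  have h5 : ρ * F.card ≤ (1 - (1 - 10 * δ) * (Real.log k / k)) * F.card := by linarith
  exact le_of_mul_le_mul_right h5 hFpos

/-- Lower bound: an admissible number. -/
theorem lower (δ : ℝ) (hδ : 0 < δ) (hδ1 : δ ≤ 1) : ∀ᶠ k : ℕ in atTop,
    Adm k (1 - (1 + δ) * (Real.log k / k)) := by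
  filter_upwards [ev_log_ge 1, ev_log_le (1 / 4) (by norm_num), ev_cast_ge 200,
    ev_cast_ge (16 / δ), (tendsto_rpow_atTop (by positivity : 0 < δ / 2)).comp
      (tendsto_natCast_atTop_atTop (R := ℝ)) |>.eventually_ge_atTop (432 / δ),
    eventually_ge_atTop 2] with k hL1 hLk hk200 hkδ hkpow hk2
  intro F hF hT
  rcases F.eq_empty_or_nonempty with rfl | hne
  · exact ⟨∅, Finset.Subset.refl _, by simp, trans_empty⟩
  simp only [Function.comp] at hkpow
  obtain ⟨L, hL⟩ : ∃ L : ℝ, L = Real.log k := ⟨_, rfl⟩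
  rw [← hL] at hL1 hLk ⊢
  have hk0 : (0 : ℝ) < k := by linarith
  have hk1 : (1 : ℝ) ≤ k := by linarith
  obtain ⟨ε, hε⟩ : ∃ ε : ℝ, ε = (1 + δ) * (L / k) := ⟨_, rfl⟩
  rw [← hε]
  have hε0 : 0 < ε := by rw [hε]; positivity
  have hεk : ε * k = (1 + δ) * L := by rw [hε]; field_simp
  have hε2 : ε ≤ 1 / 2 := by
    have : ε * k ≤ 1 / 2 * k := by rw [hεk]; nlinarith
    exact le_of_mul_le_mul_right this hk0
  -- sample sizes
  obtain ⟨a, ha⟩ : ∃ a : ℕ, a = ⌈(1 - δ / 4) * k⌉₊ := ⟨_, rfl⟩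
  have hpos : 0 ≤ (1 - δ / 4) * (k : ℝ) := by
    have : 0 ≤ 1 - δ / 4 := by linarith
    positivity
  have ha_lo : (1 - δ / 4) * k ≤ a := by rw [ha]; exact Nat.le_ceil _
  have ha_hi : (a : ℝ) < (1 - δ / 4) * k + 1 := by rw [ha]; exact Nat.ceil_lt_add_one hpos
  have hδk : 16 ≤ δ * k := by
    rw [div_le_iff₀ hδ] at hkδ; linarith
  have ha_hi2 : (a : ℝ) ≤ (1 - δ / 8) * k := by nlinarith
  have ha2 : 2 ≤ a := by
    have : (2 : ℝ) ≤ a := by nlinarith
    exact_mod_cast this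
  have hak : a ≤ k := by
    have : (a : ℝ) ≤ k := by nlinarith
    exact_mod_cast this
  have hq_exp : ∀ n : ℕ, (1 - ε) ^ n ≤ Real.exp (-ε * n) := by
    intro n
    have h1 : 1 - ε ≤ Real.exp (-ε) := by
      have := Real.add_one_le_exp (-ε); linarith
    calc (1 - ε) ^ n ≤ (Real.exp (-ε)) ^ n := pow_le_pow_left₀ (by linarith) h1 n
      _ = _ := by rw [← Real.exp_nat_mul]; congr 1; ring
  have hexpk : ∀ c : ℝ, Real.exp (-(c * L)) = (k : ℝ) ^ (-c) := by
    intro c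
    rw [Real.rpow_def_of_pos hk0, ← hL]; congr 1; ring
  have he3 : Real.exp 1 ≤ 3 := by
    have := Real.exp_one_lt_d9; linarith
  refine lower_main F hF hne k (by omega) hT (1 - ε) (by linarith) (by linarith) (3 * k) a
    (by omega) (by omega) ?_ ?_
  · -- no canonical line contains the whole sample
    have h1 := hq_exp (3 * k - 2)
    have h2 : Real.exp (-ε * ((3 * k - 2 : ℕ) : ℝ)) ≤ 3 * (k : ℝ) ^ (-3 : ℝ) := by
      rw [← hexpk 3]
      calc Real.exp (-ε * ((3 * k - 2 : ℕ) : ℝ)) ≤ Real.exp (1 + -(3 * L)) := by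
            apply Real.exp_le_exp.2
            rw [Nat.cast_sub (by omega)]
            push_cast
            nlinarith
        _ = Real.exp 1 * Real.exp (-(3 * L)) := by rw [Real.exp_add]
        _ ≤ _ := mul_le_mul_of_nonneg_right he3 (Real.exp_pos _).le
    have h3 : (k : ℝ) ^ (-3 : ℝ) = 1 / (k : ℝ) ^ 3 := by
      rw [Real.rpow_neg hk0.le, one_div]; congr 1
      exact_mod_cast Real.rpow_natCast (k : ℝ) 3
    rw [h3] at h2
    have h4 : (((3 * k : ℕ) : ℝ)) ^ 2 * (1 - ε) ^ (3 * k - 2) ≤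
        (((3 * k : ℕ) : ℝ)) ^ 2 * (3 * (1 / (k : ℝ) ^ 3)) :=
      mul_le_mul_of_nonneg_left (h1.trans h2) (by positivity)
    have h5 : (((3 * k : ℕ) : ℝ)) ^ 2 * (3 * (1 / (k : ℝ) ^ 3)) = 27 / k := by
      push_cast; field_simp; norm_num
    rw [h5] at h4
    refine h4.trans_lt ?_
    rw [div_lt_div_iff₀ hk0 (by norm_num)]
    linarith
  · -- size
    have h1 := hq_exp (a - 2)
    have h2 : Real.exp (-ε * ((a - 2 : ℕ) : ℝ)) ≤ 3 * (k : ℝ) ^ (-(1 + δ / 2)) := by
      rw [← hexpk (1 + δ / 2)]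
      calc Real.exp (-ε * ((a - 2 : ℕ) : ℝ)) ≤ Real.exp (1 + -((1 + δ / 2) * L)) := by
            apply Real.exp_le_exp.2
            rw [Nat.cast_sub ha2]
            push_cast
            have h3 : (1 + δ / 2) * L ≤ ε * a := by
              calc (1 + δ / 2) * L ≤ (1 + δ) * (1 - δ / 4) * L := by
                    apply mul_le_mul_of_nonneg_right _ (by linarith)
                    nlinarith
                _ = ε * k * (1 - δ / 4) := by rw [hεk]; ring
                _ = ε * ((1 - δ / 4) * k) := by ring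
                _ ≤ ε * a := mul_le_mul_of_nonneg_left ha_lo hε0.le
            linarith
        _ = Real.exp 1 * Real.exp (-((1 + δ / 2) * L)) := by rw [Real.exp_add]
        _ ≤ _ := mul_le_mul_of_nonneg_right he3 (Real.exp_pos _).le
    have h3 : (((3 * k : ℕ) : ℝ)) ^ 2 * (1 - ε) ^ (a - 2) ≤ 27 * (k : ℝ) ^ (1 - δ / 2) := by
      calc (((3 * k : ℕ) : ℝ)) ^ 2 * (1 - ε) ^ (a - 2) ≤
          (((3 * k : ℕ) : ℝ)) ^ 2 * (3 * (k : ℝ) ^ (-(1 + δ / 2))) :=
            mul_le_mul_of_nonneg_left (h1.trans h2) (by positivity)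
        _ = 27 * ((k : ℝ) ^ 2 * (k : ℝ) ^ (-(1 + δ / 2))) := by push_cast; ring
        _ = 27 * (k : ℝ) ^ (1 - δ / 2) := by
            congr 1
            rw [← Real.rpow_natCast, ← Real.rpow_add hk0]
            congr 1; push_cast; ring
    have h4 : 432 * (k : ℝ) ^ (1 - δ / 2) ≤ δ * k := by
      have h5 : (k : ℝ) ^ (1 - δ / 2) * (k : ℝ) ^ (δ / 2) = k := by
        rw [← Real.rpow_add hk0]; simp
      have h6 : 432 ≤ δ * (k : ℝ) ^ (δ / 2) := by
        rw [div_le_iff₀ hδ] at hkpow; linarith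
      have h7 : 0 ≤ (k : ℝ) ^ (1 - δ / 2) := by positivity
      calc 432 * (k : ℝ) ^ (1 - δ / 2) ≤ δ * (k : ℝ) ^ (δ / 2) * (k : ℝ) ^ (1 - δ / 2) :=
            mul_le_mul_of_nonneg_right h6 h7
        _ = δ * ((k : ℝ) ^ (1 - δ / 2) * (k : ℝ) ^ (δ / 2)) := by ring
        _ = δ * k := by rw [h5]
    linarith

/-- The optimal fraction. -/
noncomputable def rho (k : ℕ) : ℝ := sSup {ρ : ℝ | Adm k ρ}

theorem adm_zero (k : ℕ) : Adm k 0 := fun F _ hT =>
  ⟨∅, Finset.empty_subset _, by simp, trans_empty⟩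

theorem adm_le_one {k : ℕ} {ρ : ℝ} (h : Adm k ρ) : ρ ≤ 1 := by
  have h1 : Trans {({0} : Set Pt)} := ⟨0, (1, 0), by simp, by
    intro A hA
    rw [Finset.mem_singleton] at hA
    subst hA
    exact ⟨0, by simp⟩⟩
  obtain ⟨G, hG, hG1, _⟩ := h {({0} : Set Pt)} (by
    intro A hA
    rw [Finset.mem_singleton] at hA
    subst hA
    exact ⟨isCompact_singleton, convex_singleton _⟩) (by
    intro G hG _
    rcases Finset.subset_singleton_iff.1 hG with rfl | rfl
    · exact trans_empty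
    · exact h1)
  have h2 := Finset.card_le_card hG
  rw [Finset.card_singleton] at h2 hG1
  have h3 : (G.card : ℝ) ≤ 1 := by exact_mod_cast h2
  push_cast at hG1
  linarith

theorem rho_isGreatest (k : ℕ) : IsGreatest {ρ : ℝ | Adm k ρ} (rho k) := by
  have hne : {ρ : ℝ | Adm k ρ}.Nonempty := ⟨0, adm_zero k⟩
  have hbdd : BddAbove {ρ : ℝ | Adm k ρ} := ⟨1, fun ρ h => adm_le_one h⟩
  refine ⟨?_, fun ρ hρ => le_csSup hbdd hρ⟩
  intro F hF hT
  classical
  -- the largest partial transversal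
  obtain ⟨G, hG, hmax⟩ := (F.powerset.filter (fun G => Trans G)).exists_max_image
    (fun G => G.card) ⟨∅, Finset.mem_filter.2 ⟨Finset.empty_mem_powerset _, trans_empty⟩⟩
  rw [Finset.mem_filter, Finset.mem_powerset] at hG
  refine ⟨G, hG.1, ?_, hG.2⟩
  rcases F.eq_empty_or_nonempty with rfl | hFne
  · simp
  · have hFpos : (0 : ℝ) < F.card := by exact_mod_cast hFne.card_pos
    rw [← le_div_iff₀ hFpos]
    refine csSup_le hne fun ρ hρ => ?_
    obtain ⟨G', hG'1, hG'2, hG'3⟩ := hρ F hF hT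
    rw [le_div_iff₀ hFpos]
    refine hG'2.trans ?_
    exact_mod_cast hmax G' (Finset.mem_filter.2 ⟨Finset.mem_powerset.2 hG'1, hG'3⟩)

/-- Exact asymptotics of the optimal fraction. -/
theorem rho_asymp : Tendsto (fun k : ℕ => (1 - rho k) * k / Real.log k) atTop (𝓝 1) := by
  rw [Metric.tendsto_nhds]
  intro ε hε
  obtain ⟨δ, hδ0, hδ1, hδε⟩ : ∃ δ : ℝ, 0 < δ ∧ δ ≤ 1 / 10 ∧ 10 * δ < ε := by
    refine ⟨min (1 / 10) (ε / 20), by positivity, min_le_left _ _, ?_⟩
    have := min_le_right (1 / 10) (ε / 20)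
    linarith
  filter_upwards [upper δ hδ0 hδ1, lower δ hδ0 (by linarith), ev_log_ge 1,
    eventually_ge_atTop 2] with k hup hlo hL hk2
  have hk0 : (0 : ℝ) < k := by exact_mod_cast (by omega : 0 < k)
  have hL0 : 0 < Real.log k := by linarith
  have h1 := hup (rho k) (rho_isGreatest k).1
  have h2 := (rho_isGreatest k).2 hlo
  rw [Real.dist_eq, abs_lt]
  have e1 : (1 - 10 * δ) * (Real.log k / k) ≤ 1 - rho k := by linarith
  have e2 : 1 - rho k ≤ (1 + δ) * (Real.log k / k) := by linarith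
  have e3 : 1 - 10 * δ ≤ (1 - rho k) * k / Real.log k := by
    rw [le_div_iff₀ hL0]
    calc (1 - 10 * δ) * Real.log k = (1 - 10 * δ) * (Real.log k / k) * k := by field_simp
      _ ≤ (1 - rho k) * k := mul_le_mul_of_nonneg_right e1 hk0.le
  have e4 : (1 - rho k) * k / Real.log k ≤ 1 + δ := by
    rw [div_le_iff₀ hL0]
    calc (1 - rho k) * k ≤ (1 + δ) * (Real.log k / k) * k :=
          mul_le_mul_of_nonneg_right e2 hk0.le
      _ = (1 + δ) * Real.log k := by field_simp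
  constructor <;> linarith

end Pool.Agent.Lib_helper99.Transversal
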