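import Pool.Agent.Lib_helper99.Transversal.Basic

set_option autoImplicit false

namespace Pool.Agent.Lib_helper99.Transversal

open Finset

/-- Height of the point `(x, -x²)` above the line through the origin of slope `τ`. -/
def phi (τ x : ℝ) : ℝ := -x ^ 2 - τ * x

/-- The polygon passing just below the points `(j, -j²)`. -/
def Lset (m : ℕ) (η : ℝ) (a b : Fin m → ℝ) (D : ℝ) : Set Pt :=
  convexHull ℝ ((Set.range fun j : Fin m => (((j : ℝ) + η, -(j : ℝ) ^ 2 + η * a j) : Pt)) ∪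
    (Set.range fun j : Fin m => (((j : ℝ) - η, -(j : ℝ) ^ 2 - η * b j) : Pt)) ∪ {((0, -D) : Pt)})

theorem Lset_compact (m : ℕ) (η : ℝ) (a b : Fin m → ℝ) (D : ℝ) : IsCompact (Lset m η a b D) := by
  refine Set.Finite.isCompact_convexHull (𝕜 := ℝ) ?_
  exact ((Set.finite_range _).union (Set.finite_range _)).union (Set.finite_singleton _)

theorem Lset_convex (m : ℕ) (η : ℝ) (a b : Fin m → ℝ) (D : ℝ) : Convex ℝ (Lset m η a b D) :=
  convex_convexHull ℝ _

section
variable {m : ℕ} {η : ℝ} {a b : Fin m → ℝ} {D : ℝ}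

theorem Lset_mem_a (j : Fin m) : (((j : ℝ) + η, -(j : ℝ) ^ 2 + η * a j) : Pt) ∈ Lset m η a b D :=
  subset_convexHull ℝ _ (Or.inl (Or.inl ⟨j, rfl⟩))

theorem Lset_mem_b (j : Fin m) : (((j : ℝ) - η, -(j : ℝ) ^ 2 - η * b j) : Pt) ∈ Lset m η a b D :=
  subset_convexHull ℝ _ (Or.inl (Or.inr ⟨j, rfl⟩))

theorem Lset_mem_d : ((0, -D) : Pt) ∈ Lset m η a b D :=
  subset_convexHull ℝ _ (Or.inr rfl)

theorem Lset_hit {τ p : ℝ} (j : Fin m)
    (h : p ≤ phi τ j + η * (a j - τ) ∨ p ≤ phi τ j + η * (τ - b j)) (hD : -D ≤ p) :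
    Hit (some τ, p) (Lset m η a b D) := by
  refine hit_of_le (Lset_convex m η a b D) ⟨_, Lset_mem_d, ?_⟩ ?_
  · simp only [fn]; linarith
  · rcases h with h | h
    · refine ⟨_, Lset_mem_a j, ?_⟩
      simp only [fn]
      unfold phi at h
      linarith
    · refine ⟨_, Lset_mem_b j, ?_⟩
      simp only [fn]
      unfold phi at h
      linarith

theorem Lset_miss {τ p : ℝ}
    (h : ∀ j : Fin m, phi τ j + η * (a j - τ) < p ∧ phi τ j + η * (τ - b j) < p) (hD : -D < p) :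
    ¬ Hit (some τ, p) (Lset m η a b D) := by
  have hsub : Lset m η a b D ⊆ {x : Pt | fn (some τ) x < p} := by
    refine convexHull_min ?_ ?_
    · rintro x ((⟨j, rfl⟩ | ⟨j, rfl⟩) | hx)
      · have := (h j).1
        simp only [fn, Set.mem_ofPred_eq]
        unfold phi at this
        linarith
      · have := (h j).2
        simp only [fn, Set.mem_ofPred_eq]
        unfold phi at this
        linarith
      · rw [Set.mem_singleton_iff] at hx
        subst hx
        simp only [fn, Set.mem_ofPred_eq]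
        linarith
    · exact convex_halfSpace_lt (fn_isLinearMap (some τ)) p
  rintro ⟨x, hx, hx2⟩
  have := hsub hx
  simp only [Set.mem_ofPred_eq] at this
  simp only at hx2
  linarith

theorem Lset_low (h : ∀ j : Fin m, -D ≤ -(j : ℝ) ^ 2 + η * a j ∧ -D ≤ -(j : ℝ) ^ 2 - η * b j)
    {x : Pt} (hx : x ∈ Lset m η a b D) : -D ≤ x.2 := by
  have hsub : Lset m η a b D ⊆ {x : Pt | -D ≤ x.2} := by
    refine convexHull_min ?_ ?_
    · rintro x ((⟨j, rfl⟩ | ⟨j, rfl⟩) | hx)
      · exact (h j).1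
      · exact (h j).2
      · rw [Set.mem_singleton_iff] at hx
        subst hx
        exact le_refl (-D)
    · exact convex_halfSpace_ge ⟨fun x y => rfl, fun c x => rfl⟩ (-D)
  exact hsub hx

end

/-- The vertical segment above the point `(j, -j²)`. -/
def Rset (j : ℕ) (h : ℝ) : Set Pt := {(j : ℝ)} ×ˢ Set.Icc (-(j : ℝ) ^ 2) h

theorem Rset_compact (j : ℕ) (h : ℝ) : IsCompact (Rset j h) :=
  isCompact_singleton.prod isCompact_Icc

theorem Rset_convex (j : ℕ) (h : ℝ) : Convex ℝ (Rset j h) :=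
  (convex_singleton _).prod (convex_Icc _ _)

theorem Rset_hit {j : ℕ} {h τ p : ℝ} (h1 : phi τ j ≤ p) (h2 : p ≤ h - τ * j) :
    Hit (some τ, p) (Rset j h) := by
  refine ⟨((j : ℝ), p + τ * j), ⟨rfl, ?_, ?_⟩, ?_⟩
  · unfold phi at h1; simp only; linarith
  · simp only; linarith
  · simp only [fn]; ring

theorem Rset_hit_iff {j : ℕ} {h τ p : ℝ} (hh : Hit (some τ, p) (Rset j h)) :
    phi τ j ≤ p ∧ p ≤ h - τ * j := by
  obtain ⟨⟨x, y⟩, ⟨hx, hy1, hy2⟩, hx2⟩ := hh
  simp only [Set.mem_singleton_iff] at hx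
  simp only at hy1 hy2
  simp only [fn] at hx2
  subst hx
  unfold phi
  constructor <;> linarith

theorem Rset_hit_vert {j : ℕ} {h γ : ℝ} (hh : Hit (none, γ) (Rset j h)) : γ = j := by
  obtain ⟨⟨x, y⟩, ⟨hx, hy1, hy2⟩, hx2⟩ := hh
  simp only [Set.mem_singleton_iff] at hx
  simp only [fn] at hx2
  rw [← hx2, hx]

end Pool.Agent.Lib_helper99.Transversal
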