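import Pool.Agent.Lib_helper99.Transversal.Final

set_option autoImplicit false

namespace Pool.Agent.Lib_helper99.Transversal

open Filter Topology Finset

/-- `ρ` is admissible for `k`, for indexed families (repetitions allowed). -/
def AdmIdx (k : ℕ) (ρ : ℝ) : Prop :=
  ∀ (n : ℕ) (F : Fin n → Set Pt), (∀ i, IsCompact (F i) ∧ Convex ℝ (F i)) →
    (∀ I : Finset (Fin n), I.card ≤ k → ∃ ℓ : Option ℝ × ℝ, ∀ i ∈ I, Hit ℓ (F i)) →
    ∃ I : Finset (Fin n), ρ * n ≤ I.card ∧ ∃ ℓ : Option ℝ × ℝ, ∀ i ∈ I, Hit ℓ (F i)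

theorem lower_idx (n : ℕ) (F : Fin n → Set Pt) (hF : ∀ i, IsCompact (F i) ∧ Convex ℝ (F i))
    (hn : 0 < n) (k : ℕ) (hk : 1 ≤ k)
    (hT : ∀ I : Finset (Fin n), I.card ≤ k → ∃ ℓ : Option ℝ × ℝ, ∀ i ∈ I, Hit ℓ (F i))
    (q : ℝ) (hq : 0 < q) (hq1 : q ≤ 1) (s a : ℕ) (has : a ≤ s) (ha0 : 0 < a)
    (hbig : (s : ℝ) ^ 2 * q ^ (s - 2) < 1 / 2)
    (hka : (a : ℝ) + 2 * ((s : ℝ) ^ 2 * q ^ (a - 2)) ≤ k) :
    ∃ I : Finset (Fin n), q * n ≤ I.card ∧ ∃ ℓ : Option ℝ × ℝ, ∀ i ∈ I, Hit ℓ (F i) := by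
  classical
  by_contra hcon
  push Not at hcon
  have hmem : ∀ i, (F i).Nonempty := by
    intro i
    obtain ⟨ℓ, hℓ⟩ := hT {i} (by simpa using hk)
    obtain ⟨x, hx, _⟩ := hℓ i (by simp)
    exact ⟨x, hx⟩
  have : Nonempty (Fin n) := ⟨⟨0, hn⟩⟩
  let H : Fin n → Fin n → Finset (Fin n) :=
    fun i j => univ.filter (fun l => Hit (canon (F i) (F j)) (F l))
  have hH : ∀ i j, ((H i j).card : ℝ) ≤ q * Fintype.card (Fin n) := by
    intro i j
    rw [Fintype.card_fin]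
    by_contra hlt
    push Not at hlt
    obtain ⟨l, hl, hl2⟩ := hcon (H i j) hlt.le (canon (F i) (F j))
    exact hl2 (Finset.mem_filter.1 hl).2
  obtain ⟨S, hSne, hS1, hS2⟩ := exists_small H q hq hq1 hH s a has ha0 hbig
  have hSk : S.card ≤ k := by exact_mod_cast hS1.trans hka
  obtain ⟨ℓ, hℓ⟩ := hT S hSk
  obtain ⟨A, hA, B, hB, hAB⟩ := canon_hit (S.image F)
    (fun A hA => by
      obtain ⟨i, _, rfl⟩ := Finset.mem_image.1 hA
      exact ⟨(hF i).1, (hF i).2, hmem i⟩)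
    (hSne.image F) ⟨ℓ, fun A hA => by
      obtain ⟨i, hi, rfl⟩ := Finset.mem_image.1 hA
      exact hℓ i hi⟩
  obtain ⟨i, hi, rfl⟩ := Finset.mem_image.1 hA
  obtain ⟨j, hj, rfl⟩ := Finset.mem_image.1 hB
  obtain ⟨l, hl, hl2⟩ := hS2 i hi j hj
  apply hl2
  exact Finset.mem_filter.2 ⟨Finset.mem_univ _, hAB _ (Finset.mem_image_of_mem F hl)⟩

theorem adm_of_idx {k : ℕ} {ρ : ℝ} (h : AdmIdx k ρ) : Adm k ρ := by
  classical
  intro F hF hT
  let e := F.equivFin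
  obtain ⟨I, hI1, ℓ, hℓ⟩ := h F.card (fun i => (e.symm i).1) (fun i => hF _ (e.symm i).2) (by
    intro I hI
    have h1 := (trans_iff (I.image (fun i => (e.symm i).1))).1 (hT _ (by
      intro A hA
      obtain ⟨i, _, rfl⟩ := Finset.mem_image.1 hA
      exact (e.symm i).2) (Finset.card_image_le.trans hI))
    obtain ⟨ℓ, hℓ⟩ := h1
    exact ⟨ℓ, fun i hi => hℓ _ (Finset.mem_image_of_mem _ hi)⟩)
  refine ⟨I.image (fun i => (e.symm i).1), ?_, ?_, ?_⟩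
  · intro A hA
    obtain ⟨i, _, rfl⟩ := Finset.mem_image.1 hA
    exact (e.symm i).2
  · rw [Finset.card_image_of_injective]
    · exact hI1
    · intro i j hij
      exact e.symm.injective (Subtype.ext hij)
  · rw [trans_iff]
    refine ⟨ℓ, fun A hA => ?_⟩
    obtain ⟨i, hi, rfl⟩ := Finset.mem_image.1 hA
    exact hℓ i hi

/-- numerical conditions for the lower bound -/
theorem lower_params (δ : ℝ) (hδ : 0 < δ) (hδ1 : δ ≤ 1) : ∀ᶠ k : ℕ in atTop,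
    1 ≤ k ∧ ∃ (q : ℝ) (s a : ℕ), q = 1 - (1 + δ) * (Real.log k / k) ∧ 0 < q ∧ q ≤ 1 ∧ a ≤ s ∧
      0 < a ∧ (s : ℝ) ^ 2 * q ^ (s - 2) < 1 / 2 ∧
      (a : ℝ) + 2 * ((s : ℝ) ^ 2 * q ^ (a - 2)) ≤ k := by
  filter_upwards [ev_log_ge 1, ev_log_le (1 / 4) (by norm_num), ev_cast_ge 200,
    ev_cast_ge (16 / δ), (tendsto_rpow_atTop (by positivity : 0 < δ / 2)).comp
      (tendsto_natCast_atTop_atTop (R := ℝ)) |>.eventually_ge_atTop (432 / δ),
    eventually_ge_atTop 2] with k hL1 hLk hk200 hkδ hkpow hk2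
  refine ⟨by omega, ?_⟩
  simp only [Function.comp] at hkpow
  obtain ⟨L, hL⟩ : ∃ L : ℝ, L = Real.log k := ⟨_, rfl⟩
  rw [← hL] at hL1 hLk ⊢
  have hk0 : (0 : ℝ) < k := by linarith
  have hk1 : (1 : ℝ) ≤ k := by linarith
  obtain ⟨ε, hε⟩ : ∃ ε : ℝ, ε = (1 + δ) * (L / k) := ⟨_, rfl⟩
  rw [← hε]
  have hε0 : 0 < ε := by rw [hε]; positivity
  have hεk : ε * k = (1 + δ) * L := by rw [hε]; field_simp
  have hε2 : ε ≤ 1 / 2 := by
    have : ε * k ≤ 1 / 2 * k := by rw [hεk]; nlinarith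
    exact le_of_mul_le_mul_right this hk0
  -- sample sizes
  obtain ⟨a, ha⟩ : ∃ a : ℕ, a = ⌈(1 - δ / 4) * k⌉₊ := ⟨_, rfl⟩
  have hpos : 0 ≤ (1 - δ / 4) * (k : ℝ) := by
    have : 0 ≤ 1 - δ / 4 := by linarith
    positivity
  have ha_lo : (1 - δ / 4) * k ≤ a := by rw [ha]; exact Nat.le_ceil _
  have ha_hi : (a : ℝ) < (1 - δ / 4) * k + 1 := by rw [ha]; exact Nat.ceil_lt_add_one hpos
  have hδk : 16 ≤ δ * k := by
    rw [div_le_iff₀ hδ] at hkδ; linarith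
  have ha_hi2 : (a : ℝ) ≤ (1 - δ / 8) * k := by nlinarith
  have ha2 : 2 ≤ a := by
    have : (2 : ℝ) ≤ a := by nlinarith
    exact_mod_cast this
  have hak : a ≤ k := by
    have : (a : ℝ) ≤ k := by nlinarith
    exact_mod_cast this
  have hq_exp : ∀ n : ℕ, (1 - ε) ^ n ≤ Real.exp (-ε * n) := by
    intro n
    have h1 : 1 - ε ≤ Real.exp (-ε) := by
      have := Real.add_one_le_exp (-ε); linarith
    calc (1 - ε) ^ n ≤ (Real.exp (-ε)) ^ n := pow_le_pow_left₀ (by linarith) h1 n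
      _ = _ := by rw [← Real.exp_nat_mul]; congr 1; ring
  have hexpk : ∀ c : ℝ, Real.exp (-(c * L)) = (k : ℝ) ^ (-c) := by
    intro c
    rw [Real.rpow_def_of_pos hk0, ← hL]; congr 1; ring
  have he3 : Real.exp 1 ≤ 3 := by
    have := Real.exp_one_lt_d9; linarith
  refine ⟨1 - ε, 3 * k, a, rfl, by linarith, by linarith, by omega, by omega, ?_, ?_⟩
  · -- no canonical line contains the whole sample
    have h1 := hq_exp (3 * k - 2)
    have h2 : Real.exp (-ε * ((3 * k - 2 : ℕ) : ℝ)) ≤ 3 * (k : ℝ) ^ (-3 : ℝ) := by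
      rw [← hexpk 3]
      calc Real.exp (-ε * ((3 * k - 2 : ℕ) : ℝ)) ≤ Real.exp (1 + -(3 * L)) := by
            apply Real.exp_le_exp.2
            rw [Nat.cast_sub (by omega)]
            push_cast
            nlinarith
        _ = Real.exp 1 * Real.exp (-(3 * L)) := by rw [Real.exp_add]
        _ ≤ _ := mul_le_mul_of_nonneg_right he3 (Real.exp_pos _).le
    have h3 : (k : ℝ) ^ (-3 : ℝ) = 1 / (k : ℝ) ^ 3 := by
      rw [Real.rpow_neg hk0.le, one_div]; congr 1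
      exact_mod_cast Real.rpow_natCast (k : ℝ) 3
    rw [h3] at h2
    have h4 : (((3 * k : ℕ) : ℝ)) ^ 2 * (1 - ε) ^ (3 * k - 2) ≤
        (((3 * k : ℕ) : ℝ)) ^ 2 * (3 * (1 / (k : ℝ) ^ 3)) :=
      mul_le_mul_of_nonneg_left (h1.trans h2) (by positivity)
    have h5 : (((3 * k : ℕ) : ℝ)) ^ 2 * (3 * (1 / (k : ℝ) ^ 3)) = 27 / k := by
      push_cast; field_simp; norm_num
    rw [h5] at h4
    refine h4.trans_lt ?_
    rw [div_lt_div_iff₀ hk0 (by norm_num)]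
    linarith
  · -- size
    have h1 := hq_exp (a - 2)
    have h2 : Real.exp (-ε * ((a - 2 : ℕ) : ℝ)) ≤ 3 * (k : ℝ) ^ (-(1 + δ / 2)) := by
      rw [← hexpk (1 + δ / 2)]
      calc Real.exp (-ε * ((a - 2 : ℕ) : ℝ)) ≤ Real.exp (1 + -((1 + δ / 2) * L)) := by
            apply Real.exp_le_exp.2
            rw [Nat.cast_sub ha2]
            push_cast
            have h3 : (1 + δ / 2) * L ≤ ε * a := by
              calc (1 + δ / 2) * L ≤ (1 + δ) * (1 - δ / 4) * L := by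
                    apply mul_le_mul_of_nonneg_right _ (by linarith)
                    nlinarith
                _ = ε * k * (1 - δ / 4) := by rw [hεk]; ring
                _ = ε * ((1 - δ / 4) * k) := by ring
                _ ≤ ε * a := mul_le_mul_of_nonneg_left ha_lo hε0.le
            linarith
        _ = Real.exp 1 * Real.exp (-((1 + δ / 2) * L)) := by rw [Real.exp_add]
        _ ≤ _ := mul_le_mul_of_nonneg_right he3 (Real.exp_pos _).le
    have h3 : (((3 * k : ℕ) : ℝ)) ^ 2 * (1 - ε) ^ (a - 2) ≤ 27 * (k : ℝ) ^ (1 - δ / 2) := by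
      calc (((3 * k : ℕ) : ℝ)) ^ 2 * (1 - ε) ^ (a - 2) ≤
          (((3 * k : ℕ) : ℝ)) ^ 2 * (3 * (k : ℝ) ^ (-(1 + δ / 2))) :=
            mul_le_mul_of_nonneg_left (h1.trans h2) (by positivity)
        _ = 27 * ((k : ℝ) ^ 2 * (k : ℝ) ^ (-(1 + δ / 2))) := by push_cast; ring
        _ = 27 * (k : ℝ) ^ (1 - δ / 2) := by
            congr 1
            rw [← Real.rpow_natCast, ← Real.rpow_add hk0]
            congr 1; push_cast; ring
    have h4 : 432 * (k : ℝ) ^ (1 - δ / 2) ≤ δ * k := by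
      have h5 : (k : ℝ) ^ (1 - δ / 2) * (k : ℝ) ^ (δ / 2) = k := by
        rw [← Real.rpow_add hk0]; simp
      have h6 : 432 ≤ δ * (k : ℝ) ^ (δ / 2) := by
        rw [div_le_iff₀ hδ] at hkpow; linarith
      have h7 : 0 ≤ (k : ℝ) ^ (1 - δ / 2) := by positivity
      calc 432 * (k : ℝ) ^ (1 - δ / 2) ≤ δ * (k : ℝ) ^ (δ / 2) * (k : ℝ) ^ (1 - δ / 2) :=
            mul_le_mul_of_nonneg_right h6 h7
        _ = δ * ((k : ℝ) ^ (1 - δ / 2) * (k : ℝ) ^ (δ / 2)) := by ring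
        _ = δ * k := by rw [h5]
    linarith

theorem lower' (δ : ℝ) (hδ : 0 < δ) (hδ1 : δ ≤ 1) : ∀ᶠ k : ℕ in atTop,
    AdmIdx k (1 - (1 + δ) * (Real.log k / k)) := by
  filter_upwards [lower_params δ hδ hδ1] with k hk
  obtain ⟨hk1, q, s, a, hq, hq0, hq1, has, ha0, h1, h2⟩ := hk
  intro n F hF hT
  rcases Nat.eq_zero_or_pos n with rfl | hn
  · exact ⟨∅, by simp, (none, 0), by simp⟩
  · rw [← hq]
    exact lower_idx n F hF hn k hk1 hT q hq0 hq1 s a has ha0 h1 h2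

/-- The optimal fraction for indexed families. -/
noncomputable def rhoIdx (k : ℕ) : ℝ := sSup {ρ : ℝ | AdmIdx k ρ}

theorem admIdx_zero (k : ℕ) : AdmIdx k 0 := fun n F _ hT =>
  ⟨∅, by simp, (none, 0), by simp⟩

theorem rhoIdx_isGreatest (k : ℕ) : IsGreatest {ρ : ℝ | AdmIdx k ρ} (rhoIdx k) := by
  have hne : {ρ : ℝ | AdmIdx k ρ}.Nonempty := ⟨0, admIdx_zero k⟩
  have hbdd : BddAbove {ρ : ℝ | AdmIdx k ρ} := ⟨1, fun ρ h => adm_le_one (adm_of_idx h)⟩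
  refine ⟨?_, fun ρ hρ => le_csSup hbdd hρ⟩
  intro n F hF hT
  classical
  obtain ⟨I, hI, hmax⟩ := ((univ : Finset (Finset (Fin n))).filter
    (fun I => ∃ ℓ : Option ℝ × ℝ, ∀ i ∈ I, Hit ℓ (F i))).exists_max_image
    (fun I => I.card) ⟨∅, Finset.mem_filter.2 ⟨Finset.mem_univ _, (none, 0), by simp⟩⟩
  rw [Finset.mem_filter] at hI
  refine ⟨I, ?_, hI.2⟩
  rcases Nat.eq_zero_or_pos n with rfl | hn
  · simp
  · have hnpos : (0 : ℝ) < n := by exact_mod_cast hn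
    rw [← le_div_iff₀ hnpos]
    refine csSup_le hne fun ρ hρ => ?_
    obtain ⟨I', hI'1, hI'2⟩ := hρ n F hF hT
    rw [le_div_iff₀ hnpos]
    refine hI'1.trans ?_
    exact_mod_cast hmax I' (Finset.mem_filter.2 ⟨Finset.mem_univ _, hI'2⟩)

theorem rhoIdx_asymp : Tendsto (fun k : ℕ => (1 - rhoIdx k) * k / Real.log k) atTop (𝓝 1) := by
  rw [Metric.tendsto_nhds]
  intro ε hε
  obtain ⟨δ, hδ0, hδ1, hδε⟩ : ∃ δ : ℝ, 0 < δ ∧ δ ≤ 1 / 10 ∧ 10 * δ < ε := by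
    refine ⟨min (1 / 10) (ε / 20), by positivity, min_le_left _ _, ?_⟩
    have := min_le_right (1 / 10) (ε / 20)
    linarith
  filter_upwards [upper δ hδ0 hδ1, lower' δ hδ0 (by linarith), ev_log_ge 1,
    eventually_ge_atTop 2] with k hup hlo hL hk2
  have hk0 : (0 : ℝ) < k := by exact_mod_cast (by omega : 0 < k)
  have hL0 : 0 < Real.log k := by linarith
  have h1 := hup (rhoIdx k) (adm_of_idx (rhoIdx_isGreatest k).1)
  have h2 := (rhoIdx_isGreatest k).2 hlo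
  rw [Real.dist_eq, abs_lt]
  have e1 : (1 - 10 * δ) * (Real.log k / k) ≤ 1 - rhoIdx k := by linarith
  have e2 : 1 - rhoIdx k ≤ (1 + δ) * (Real.log k / k) := by linarith
  have e3 : 1 - 10 * δ ≤ (1 - rhoIdx k) * k / Real.log k := by
    rw [le_div_iff₀ hL0]
    calc (1 - 10 * δ) * Real.log k = (1 - 10 * δ) * (Real.log k / k) * k := by field_simp
      _ ≤ (1 - rhoIdx k) * k := mul_le_mul_of_nonneg_right e1 hk0.le
  have e4 : (1 - rhoIdx k) * k / Real.log k ≤ 1 + δ := by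
    rw [div_le_iff₀ hL0]
    calc (1 - rhoIdx k) * k ≤ (1 + δ) * (Real.log k / k) * k :=
          mul_le_mul_of_nonneg_right e2 hk0.le
      _ = (1 + δ) * Real.log k := by field_simp
  constructor <;> linarith

end Pool.Agent.Lib_helper99.Transversal
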