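import Pool.Agent.Lib_helper99.Transversal.Family

set_option autoImplicit false

namespace Pool.Agent.Lib_helper99.Transversal

open Finset

theorem card_ge_of_fin {I : Type*} [Fintype I] (P : I → Prop) [DecidablePred P] (r : ℕ)
    (f : Fin r → I) (hf : Function.Injective f) (h : ∀ t, P (f t)) :
    r ≤ (univ.filter P).card := by
  have := Finset.card_le_card_of_injOn (s := (univ : Finset (Fin r))) (t := univ.filter P) f
    (fun t _ => by simp [h t]) (fun a _ b _ hab => hf hab)
  simpa using this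

/-- Differences of `phi` at integer points. -/
theorem phi_gap (τ : ℝ) (j j' : ℝ) :
    phi τ j - phi τ j' = (j' - j) * ((j' - j) + (τ + 2 * j)) := by
  unfold phi; ring

/-- A point of an `Lset` near `(j, -j²)` is below the line. -/
theorem near_below {η T τ p ζ x a b : ℝ} (hη : 0 < η) (hηT : η * (2 * T) < ζ) (hτ : |τ| ≤ T)
    (hab : |a| ≤ T ∧ |b| ≤ T)
    (h : (a < τ ∧ τ < b ∧ phi τ x ≤ p) ∨ phi τ x ≤ p - ζ) :
    phi τ x + η * (a - τ) < p ∧ phi τ x + η * (τ - b) < p := by
  rcases h with ⟨h1, h2, h3⟩ | h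
  · have e1 : η * (a - τ) < 0 := mul_neg_of_pos_of_neg hη (by linarith)
    have e2 : η * (τ - b) < 0 := mul_neg_of_pos_of_neg hη (by linarith)
    constructor <;> linarith
  · have ha := abs_le.1 hab.1
    have hb := abs_le.1 hab.2
    have ht := abs_le.1 hτ
    have e1 : η * (a - τ) ≤ η * (2 * T) := mul_le_mul_of_nonneg_left (by linarith) hη.le
    have e2 : η * (τ - b) ≤ η * (2 * T) := mul_le_mul_of_nonneg_left (by linarith) hη.le
    constructor <;> linarith

theorem exists_top (m : ℕ) (hm : 1 ≤ m) (τ : ℝ) :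
    ∃ j : Fin m, ∀ j' : Fin m, phi τ (j' : ℕ) ≤ phi τ (j : ℕ) := by
  haveI : Nonempty (Fin m) := ⟨⟨0, by omega⟩⟩
  obtain ⟨j, _, h⟩ := Finset.exists_max_image (univ : Finset (Fin m))
    (fun j : Fin m => phi τ (j : ℕ)) Finset.univ_nonempty
  exact ⟨j, fun j' => h j' (Finset.mem_univ _)⟩

/-- Near a chord slope there are only two almost-top points. -/
theorem buffer (m : ℕ) (τ ζ : ℝ) (hζ : 0 < ζ) (hζ1 : ζ ≤ 1 / 4) (j : Fin m)
    (hj : ∀ j' : Fin m, phi τ (j' : ℕ) ≤ phi τ (j : ℕ)) (j1 : Fin m) (hne : j1 ≠ j)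
    (h1 : phi τ (j : ℕ) - ζ < phi τ (j1 : ℕ)) :
    ∃ e : ℕ, e + 1 < m ∧ |τ + (2 * e + 1)| < ζ ∧
      ∀ j' : Fin m, ((j' : ℕ) = e ∨ (j' : ℕ) = e + 1) ∨ phi τ (j' : ℕ) ≤ phi τ (j : ℕ) - ζ := by
  have hgap := fun (j' : Fin m) => phi_gap τ (j : ℕ) (j' : ℕ)
  set θ : ℝ := τ + 2 * (j : ℕ) with hθ
  rcases lt_or_gt_of_ne (fun h => hne (Fin.ext h) : (j1 : ℕ) ≠ (j : ℕ)) with hlt | hgt
  · -- `j1 < j`
    have hjm1 : 1 ≤ (j : ℕ) := by omega
    have hθ1 : θ ≤ 1 := by
      have hh := hj ⟨(j : ℕ) - 1, by omega⟩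
      have h2 := hgap ⟨(j : ℕ) - 1, by omega⟩
      simp only at hh h2
      rw [Nat.cast_sub hjm1] at hh h2
      push_cast at hh h2
      nlinarith
    have h3 := hgap j1
    have h4 : ((j1 : ℕ) : ℝ) + 1 ≤ (j : ℕ) := by exact_mod_cast hlt
    have h5 : (j1 : ℕ) + 1 = j := by
      by_contra hcon
      have h6 : ((j1 : ℕ) : ℝ) + 2 ≤ (j : ℕ) := by
        have : (j1 : ℕ) + 2 ≤ j := by omega
        exact_mod_cast this
      nlinarith
    have h6 : ((j : ℕ) : ℝ) = (j1 : ℕ) + 1 := by exact_mod_cast h5.symm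
    have h7 : 1 - θ < ζ := by
      rw [h6] at h3 h1
      have : ((j1 : ℕ) : ℝ) - ((j1 : ℕ) + 1) = -1 := by ring
      rw [this] at h3
      linarith
    refine ⟨j1, by omega, ?_, fun j' => ?_⟩
    · rw [abs_lt]
      rw [hθ, h6] at h7 hθ1
      constructor <;> linarith
    · by_cases h8 : (j' : ℕ) = j1 ∨ (j' : ℕ) = j1 + 1
      · exact Or.inl h8
      · right
        have h9 := hgap j'
        have h10 : (j' : ℕ) + 1 ≤ j1 ∨ (j : ℕ) + 1 ≤ j' := by omega
        rcases h10 with h10 | h10
        · have h11 : ((j' : ℕ) : ℝ) + 1 ≤ (j1 : ℕ) := by exact_mod_cast h10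
          nlinarith
        · have h11 : ((j : ℕ) : ℝ) + 1 ≤ (j' : ℕ) := by exact_mod_cast h10
          nlinarith
  · -- `j < j1`
    have hθ1 : -1 ≤ θ := by
      have hh := hj ⟨(j : ℕ) + 1, by omega⟩
      have h2 := hgap ⟨(j : ℕ) + 1, by omega⟩
      simp only at hh h2
      push_cast at hh h2
      nlinarith
    have h3 := hgap j1
    have h4 : ((j : ℕ) : ℝ) + 1 ≤ (j1 : ℕ) := by exact_mod_cast hgt
    have h5 : (j : ℕ) + 1 = j1 := by
      by_contra hcon
      have h6 : ((j : ℕ) : ℝ) + 2 ≤ (j1 : ℕ) := by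
        have : (j : ℕ) + 2 ≤ j1 := by omega
        exact_mod_cast this
      nlinarith
    have h6 : ((j1 : ℕ) : ℝ) = (j : ℕ) + 1 := by exact_mod_cast h5.symm
    have h7 : 1 + θ < ζ := by
      rw [h6] at h3 h1
      have : ((j : ℕ) : ℝ) + 1 - (j : ℕ) = 1 := by ring
      rw [this] at h3
      linarith
    refine ⟨j, by omega, ?_, fun j' => ?_⟩
    · rw [abs_lt]
      rw [hθ] at h7 hθ1
      constructor <;> linarith
    · by_cases h8 : (j' : ℕ) = j ∨ (j' : ℕ) = j + 1
      · exact Or.inl h8
      · right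
        have h9 := hgap j'
        have h10 : (j' : ℕ) + 1 ≤ j ∨ (j : ℕ) + 2 ≤ j' := by omega
        rcases h10 with h10 | h10
        · have h11 : ((j' : ℕ) : ℝ) + 1 ≤ (j : ℕ) := by exact_mod_cast h10
          nlinarith
        · have h11 : ((j : ℕ) : ℝ) + 2 ≤ (j' : ℕ) := by exact_mod_cast h10
          nlinarith

open scoped Classical in
theorem fam_miss (m g r N : ℕ) (hm : 2 ≤ m) (hg : 1 ≤ g) (W : Fin N → Fin m → Fin g)
    (hr : ∀ (j : Fin m) (c : Fin g), r ≤ (univ.filter (fun i => W i j = c)).card) (T ζ η : ℝ)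
    (hζ : 0 < ζ) (hζ1 : ζ ≤ 1 / 4) (hη : 0 < η) (hηT : η * (2 * T) < ζ)
    (hT : (m : ℝ) ^ 2 + 3 * m + Fintype.card (Idx m r N) + 4 ≤ T) (ℓ : Option ℝ × ℝ) :
    r ≤ (univ.filter (fun x : Idx m r N => ¬ Hit ℓ (fam m g r N W T ζ η x))).card := by
  have hm' : (2 : ℝ) ≤ m := by exact_mod_cast hm
  have hT' : 2 * (m : ℝ) + 4 ≤ T := by
    have : (0 : ℝ) ≤ Fintype.card (Idx m r N) := Nat.cast_nonneg _
    nlinarith
  have hcode : ∀ x : Idx m r N, (code m r N x : ℝ) ≤ Fintype.card (Idx m r N) := fun x => by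
    exact_mod_cast (code_lt m r N x).le
  have hcode0 : ∀ x : Idx m r N, (0 : ℝ) ≤ code m r N x := fun x => Nat.cast_nonneg _
  have hinjR : ∀ j : Fin m, Function.Injective
      (fun t : Fin r => (Sum.inr (Sum.inl (j, t)) : Idx m r N)) := by
    intro j a b hab
    simpa using hab
  have hinjZ : ∀ e : Fin (m - 1), Function.Injective
      (fun t : Fin r => (Sum.inr (Sum.inr (e, t)) : Idx m r N)) := by
    intro j a b hab
    simpa using hab
  obtain ⟨d, p⟩ := ℓ
  cases d with
  | none =>
    -- a vertical line misses the segments of column 0 or 1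
    by_cases hp : p = 0
    · refine card_ge_of_fin _ r _ (hinjR ⟨1, by omega⟩) fun t ht => ?_
      have := Rset_hit_vert ht
      simp [hp] at this
    · refine card_ge_of_fin _ r _ (hinjR ⟨0, by omega⟩) fun t ht => ?_
      have := Rset_hit_vert ht
      simp at this
      exact hp this
  | some τ =>
    obtain ⟨j, hj⟩ := exists_top m (by omega) τ
    by_cases hpj : p < phi τ (j : ℕ)
    · refine card_ge_of_fin _ r _ (hinjR j) fun t ht => ?_
      have := (Rset_hit_iff ht).1
      linarith
    · push Not at hpj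
      have h00 : (0 : ℝ) ≤ phi τ (j : ℕ) := by
        have := hj ⟨0, by omega⟩
        simpa [phi] using this
      by_cases hτ1 : T ≤ τ
      · refine card_ge_of_fin _ r _ (hinjR ⟨m - 1, by omega⟩) fun t ht => ?_
        have h1 := (Rset_hit_iff ht).2
        have h2 := hcode (Sum.inr (Sum.inl (⟨m - 1, by omega⟩, t)))
        simp only at h1
        rw [Nat.cast_sub (by omega : 1 ≤ m)] at h1
        push_cast at h1
        nlinarith
      · by_cases hτ2 : τ ≤ -T
        · refine card_ge_of_fin _ r _ (hinjR ⟨0, by omega⟩) fun t ht => ?_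
          have h1 := (Rset_hit_iff ht).2
          have h2 := hcode (Sum.inr (Sum.inl (⟨0, by omega⟩, t)))
          have h3 := hj ⟨m - 1, by omega⟩
          simp only at h1 h3
          rw [Nat.cast_sub (by omega : 1 ≤ m)] at h3
          unfold phi at h3 hpj
          push_cast at h1 h3
          nlinarith
        · push Not at hτ1 hτ2
          have hτ : |τ| < T := abs_lt.2 ⟨hτ2, hτ1⟩
          by_cases hbuf : ∃ j1 : Fin m, j1 ≠ j ∧ phi τ (j : ℕ) - ζ < phi τ (j1 : ℕ)
          · obtain ⟨j1, hne, h1⟩ := hbuf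
            obtain ⟨e, he, he2, he3⟩ := buffer m τ ζ hζ hζ1 j hj j1 hne h1
            refine card_ge_of_fin _ r _ (hinjZ ⟨e, by omega⟩) fun t => ?_
            refine Lset_miss (fun j' => ?_) ?_
            · refine near_below hη hηT hτ.le
                (z_bounds ζ T hζ.le (by linarith) m e j' he hT') ?_
              rcases he3 j' with h2 | h2
              · left
                obtain ⟨h3, h4⟩ := abs_lt.1 he2
                have h5 := hj j'
                simp only [zlo, zhi]
                rw [if_pos h2, if_pos h2]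
                refine ⟨by linarith, by linarith, by linarith⟩
              · right; linarith
            · have := hcode0 (Sum.inr (Sum.inr (⟨e, by omega⟩, t)))
              have : (0 : ℝ) ≤ (m : ℝ) ^ 2 := by positivity
              linarith
          · push Not at hbuf
            obtain ⟨c, hc1, hc2⟩ := fact1 g hg T τ hτ j
            refine (hr j c).trans ?_
            refine Finset.card_le_card_of_injOn (fun i => (Sum.inl i : Idx m r N)) ?_ ?_
            · intro i hi
              simp only [Finset.coe_filter, Finset.mem_univ, true_and, Set.mem_ofPred_eq] at hi ⊢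
              refine Lset_miss (fun j' => ?_) ?_
              · refine near_below hη hηT hτ.le
                  (w_bounds g T m j' (W i j') j'.isLt (W i j').isLt hT') ?_
                by_cases hjj : j' = j
                · left
                  subst hjj
                  rw [hi]
                  exact ⟨hc1, hc2, hpj⟩
                · right
                  have := hbuf j' hjj
                  linarith
              · have := hcode0 (Sum.inl i)
                have : (0 : ℝ) ≤ (m : ℝ) ^ 2 := by positivity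
                linarith
            · intro a _ b _ hab
              simpa using hab

end Pool.Agent.Lib_helper99.Transversal
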